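import Mathlib

/-!
Annular strand diagrams: a sequence of events (crossings of two strands, births of a pair of
strands) defines a digraph on the natural numbers; integer labels along a double ray.
-/

namespace Pool.Agent.H4.Ray

/-- A strand: a level, an index and a sign (`true` = outgoing half, `false` = incoming half). -/
structure St where
  lev : ℕ
  idx : ℕ
  pos : Bool
deriving DecidableEq

/-- An event: two strands cross, or a wire is born (just above the strand `c`). -/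
inductive Ev
  | cross (a b : St)
  | birth (l i : ℕ) (c : St)

/-- The strands involved in an event. -/
def Ev.Inv : Ev → St → Prop
  | .cross a b, s => s = a ∨ s = b
  | .birth l i _, s => s.lev = l ∧ s.idx = i

/-- `x` and `y` are consecutive events of the strand `s`. -/
def Nx (ev : ℕ → Ev) (s : St) (x y : ℕ) : Prop :=
  x < y ∧ (ev x).Inv s ∧ (ev y).Inv s ∧ ∀ z, x < z → z < y → ¬ (ev z).Inv s

/-- The edge of the digraph along the strand `s`. -/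
def Es (ev : ℕ → Ev) (s : St) (x y : ℕ) : Prop :=
  (s.pos = true ∧ Nx ev s x y) ∨ (s.pos = false ∧ Nx ev s y x)

/-- A double ray of the digraph with a choice of strands for its edges. -/
structure Ray2 (ev : ℕ → Ev) where
  q : ℤ → ℕ
  s : ℤ → St
  inj : Function.Injective q
  es : ∀ k, Es ev (s k) (q k) (q (k + 1))

namespace Ray2

variable {ev : ℕ → Ev} (Q : Ray2 ev)

/-- The double ray uses the edge of strand `t` at layer `ℓ`. -/
def used (ℓ : ℕ) (t : St) : Prop :=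
  ∃ k, Q.s k = t ∧ ((t.pos = true ∧ Q.q k < ℓ ∧ ℓ ≤ Q.q (k + 1)) ∨
    (t.pos = false ∧ Q.q (k + 1) < ℓ ∧ ℓ ≤ Q.q k))

open Classical in
/-- Signed usage. -/
noncomputable def u (ℓ : ℕ) (t : St) : ℤ :=
  if Q.used ℓ t then (if t.pos = true then 1 else -1) else 0

/-- Label of the gap above the strand `t` at layer `ℓ`. -/
noncomputable def U : ℕ → St → ℤ
  | 0, _ => 0
  | ℓ + 1, t =>
    match ev ℓ with
    | .cross a b => if t = b then U ℓ a else if t = a then U ℓ a - Q.u (ℓ + 1) b else U ℓ t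
    | .birth l i c =>
      if t = ⟨l, i, false⟩ then U ℓ c
      else if t = ⟨l, i, true⟩ then U ℓ c - Q.u (ℓ + 1) ⟨l, i, false⟩ else U ℓ t

/-- Label of the gap below the strand `t` at layer `ℓ`. -/
noncomputable def D (ℓ : ℕ) (t : St) : ℤ := Q.U ℓ t - Q.u ℓ t

lemma inv_left (k : ℤ) : (ev (Q.q k)).Inv (Q.s k) := by
  rcases Q.es k with ⟨_, h⟩ | ⟨_, h⟩
  · exact h.2.1
  · exact h.2.2.1

lemma inv_right (k : ℤ) : (ev (Q.q (k + 1))).Inv (Q.s k) := by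
  rcases Q.es k with ⟨_, h⟩ | ⟨_, h⟩
  · exact h.2.2.1
  · exact h.2.1

lemma used_succ_of_not_inv {ℓ : ℕ} {t : St} (h : ¬ (ev ℓ).Inv t) :
    Q.used (ℓ + 1) t ↔ Q.used ℓ t := by
  constructor
  · rintro ⟨k, rfl, hk⟩
    refine ⟨k, rfl, ?_⟩
    have h1 := Q.inv_left k
    have h2 := Q.inv_right k
    have n1 : Q.q k ≠ ℓ := fun e => h (e ▸ h1)
    have n2 : Q.q (k + 1) ≠ ℓ := fun e => h (e ▸ h2)
    rcases hk with ⟨hp, a, b⟩ | ⟨hp, a, b⟩
    · exact Or.inl ⟨hp, by omega, by omega⟩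
    · exact Or.inr ⟨hp, by omega, by omega⟩
  · rintro ⟨k, rfl, hk⟩
    refine ⟨k, rfl, ?_⟩
    have h1 := Q.inv_left k
    have h2 := Q.inv_right k
    have n1 : Q.q k ≠ ℓ := fun e => h (e ▸ h1)
    have n2 : Q.q (k + 1) ≠ ℓ := fun e => h (e ▸ h2)
    rcases hk with ⟨hp, a, b⟩ | ⟨hp, a, b⟩
    · exact Or.inl ⟨hp, by omega, by omega⟩
    · exact Or.inr ⟨hp, by omega, by omega⟩

lemma u_succ_of_not_inv {ℓ : ℕ} {t : St} (h : ¬ (ev ℓ).Inv t) :
    Q.u (ℓ + 1) t = Q.u ℓ t := by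
  classical
  have := Q.used_succ_of_not_inv h
  unfold u
  by_cases hh : Q.used ℓ t
  · rw [if_pos (this.2 hh), if_pos hh]
  · rw [if_neg (fun h' => hh (this.1 h')), if_neg hh]

/-- At an event of `t`: usage at the inner layer. -/
lemma used_at_pos {ℓ : ℕ} {t : St} (h : (ev ℓ).Inv t) (hp : t.pos = true) :
    Q.used ℓ t ↔ ∃ k, Q.s k = t ∧ Q.q (k + 1) = ℓ := by
  constructor
  · rintro ⟨k, rfl, hk⟩
    rcases hk with ⟨_, a, b⟩ | ⟨hn, _⟩
    · refine ⟨k, rfl, ?_⟩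
      rcases Q.es k with ⟨_, hx⟩ | ⟨hn, _⟩
      · by_contra hne
        exact hx.2.2.2 ℓ a (by omega) h
      · rw [hp] at hn; cases hn
    · rw [hp] at hn; cases hn
  · rintro ⟨k, rfl, hk⟩
    refine ⟨k, rfl, Or.inl ⟨hp, ?_, hk.ge⟩⟩
    rcases Q.es k with ⟨_, hx⟩ | ⟨hn, _⟩
    · exact hk ▸ hx.1
    · rw [hp] at hn; cases hn

lemma used_at_neg {ℓ : ℕ} {t : St} (h : (ev ℓ).Inv t) (hp : t.pos = false) :
    Q.used ℓ t ↔ ∃ k, Q.s k = t ∧ Q.q k = ℓ := by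
  constructor
  · rintro ⟨k, rfl, hk⟩
    rcases hk with ⟨hn, _⟩ | ⟨_, a, b⟩
    · rw [hp] at hn; cases hn
    · refine ⟨k, rfl, ?_⟩
      rcases Q.es k with ⟨hn, _⟩ | ⟨_, hx⟩
      · rw [hp] at hn; cases hn
      · by_contra hne
        exact hx.2.2.2 ℓ a (by omega) h
  · rintro ⟨k, rfl, hk⟩
    refine ⟨k, rfl, Or.inr ⟨hp, ?_, hk.ge⟩⟩
    rcases Q.es k with ⟨hn, _⟩ | ⟨_, hx⟩
    · rw [hp] at hn; cases hn
    · exact hk ▸ hx.1

lemma used_succ_pos {ℓ : ℕ} {t : St} (h : (ev ℓ).Inv t) (hp : t.pos = true) :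
    Q.used (ℓ + 1) t ↔ ∃ k, Q.s k = t ∧ Q.q k = ℓ := by
  constructor
  · rintro ⟨k, rfl, hk⟩
    rcases hk with ⟨_, a, b⟩ | ⟨hn, _⟩
    · refine ⟨k, rfl, ?_⟩
      rcases Q.es k with ⟨_, hx⟩ | ⟨hn, _⟩
      · by_contra hne
        exact hx.2.2.2 ℓ (by omega) (by omega) h
      · rw [hp] at hn; cases hn
    · rw [hp] at hn; cases hn
  · rintro ⟨k, rfl, hk⟩
    refine ⟨k, rfl, Or.inl ⟨hp, by omega, ?_⟩⟩
    rcases Q.es k with ⟨_, hx⟩ | ⟨hn, _⟩
    · have := hx.1; omega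
    · rw [hp] at hn; cases hn

lemma used_succ_neg {ℓ : ℕ} {t : St} (h : (ev ℓ).Inv t) (hp : t.pos = false) :
    Q.used (ℓ + 1) t ↔ ∃ k, Q.s k = t ∧ Q.q (k + 1) = ℓ := by
  constructor
  · rintro ⟨k, rfl, hk⟩
    rcases hk with ⟨hn, _⟩ | ⟨_, a, b⟩
    · rw [hp] at hn; cases hn
    · refine ⟨k, rfl, ?_⟩
      rcases Q.es k with ⟨hn, _⟩ | ⟨_, hx⟩
      · rw [hp] at hn; cases hn
      · by_contra hne
        exact hx.2.2.2 ℓ (by omega) (by omega) h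
  · rintro ⟨k, rfl, hk⟩
    refine ⟨k, rfl, Or.inr ⟨hp, by omega, ?_⟩⟩
    rcases Q.es k with ⟨hn, _⟩ | ⟨_, hx⟩
    · rw [hp] at hn; cases hn
    · have := hx.1; omega

/-- If the ray does not pass `ℓ`, no strand involved in event `ℓ` is used around it. -/
lemma not_pass {ℓ : ℕ} {t : St} (h : (ev ℓ).Inv t) (hn : ∀ k, Q.q k ≠ ℓ) :
    ¬ Q.used ℓ t ∧ ¬ Q.used (ℓ + 1) t := by
  cases hp : t.pos
  · rw [Q.used_at_neg h hp, Q.used_succ_neg h hp]
    exact ⟨fun ⟨k, _, hk⟩ => hn _ hk, fun ⟨k, _, hk⟩ => hn _ hk⟩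
  · rw [Q.used_at_pos h hp, Q.used_succ_pos h hp]
    exact ⟨fun ⟨k, _, hk⟩ => hn _ hk, fun ⟨k, _, hk⟩ => hn _ hk⟩

lemma ex_right_iff {ℓ : ℕ} {t : St} {k : ℤ} (hk : Q.q k = ℓ) :
    (∃ j, Q.s j = t ∧ Q.q j = ℓ) ↔ Q.s k = t := by
  constructor
  · rintro ⟨j, hj, hj'⟩
    have : j = k := Q.inj (hj'.trans hk.symm)
    rw [← this]; exact hj
  · intro h; exact ⟨k, h, hk⟩

lemma ex_left_iff {ℓ : ℕ} {t : St} {k : ℤ} (hk : Q.q k = ℓ) :
    (∃ j, Q.s j = t ∧ Q.q (j + 1) = ℓ) ↔ Q.s (k - 1) = t := by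
  constructor
  · rintro ⟨j, hj, hj'⟩
    have : j + 1 = k := Q.inj (hj'.trans hk.symm)
    rw [← this, add_sub_cancel_right]; exact hj
  · intro h; exact ⟨k - 1, h, by rw [sub_add_cancel]; exact hk⟩

/-- Signed usage at the inner layer of an event passed by the ray. -/
lemma u_at {ℓ : ℕ} {t : St} (h : (ev ℓ).Inv t) {k : ℤ} (hk : Q.q k = ℓ) :
    Q.u ℓ t = (if t.pos = true ∧ Q.s (k - 1) = t then 1 else 0)
      - (if t.pos = false ∧ Q.s k = t then 1 else 0) := by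
  classical
  unfold u
  cases hp : t.pos
  · have := Q.used_at_neg h hp
    rw [Q.ex_right_iff hk] at this
    simp only [this]
    by_cases hh : Q.s k = t <;> simp [hh]
  · have := Q.used_at_pos h hp
    rw [Q.ex_left_iff hk] at this
    simp only [this]
    by_cases hh : Q.s (k - 1) = t <;> simp [hh]

lemma u_succ {ℓ : ℕ} {t : St} (h : (ev ℓ).Inv t) {k : ℤ} (hk : Q.q k = ℓ) :
    Q.u (ℓ + 1) t = (if t.pos = true ∧ Q.s k = t then 1 else 0)
      - (if t.pos = false ∧ Q.s (k - 1) = t then 1 else 0) := by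
  classical
  unfold u
  cases hp : t.pos
  · have := Q.used_succ_neg h hp
    rw [Q.ex_left_iff hk] at this
    simp only [this]
    by_cases hh : Q.s (k - 1) = t <;> simp [hh]
  · have := Q.used_succ_pos h hp
    rw [Q.ex_right_iff hk] at this
    simp only [this]
    by_cases hh : Q.s k = t <;> simp [hh]

lemma u_zero_of_not_pass {ℓ : ℕ} {t : St} (h : (ev ℓ).Inv t) (hn : ∀ k, Q.q k ≠ ℓ) :
    Q.u ℓ t = 0 ∧ Q.u (ℓ + 1) t = 0 := by
  have := Q.not_pass h hn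
  unfold u
  simp [this.1, this.2]

lemma inv_pred {ℓ : ℕ} {k : ℤ} (hk : Q.q k = ℓ) : (ev ℓ).Inv (Q.s (k - 1)) := by
  have := Q.inv_right (k - 1)
  rw [sub_add_cancel, hk] at this
  exact this

lemma inv_self {ℓ : ℕ} {k : ℤ} (hk : Q.q k = ℓ) : (ev ℓ).Inv (Q.s k) := hk ▸ Q.inv_left k

/-- Conservation at a crossing. -/
lemma cons_cross {ℓ : ℕ} {a b : St} (he : ev ℓ = .cross a b) (hab : a ≠ b) :
    Q.u ℓ a + Q.u ℓ b = Q.u (ℓ + 1) a + Q.u (ℓ + 1) b := by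
  have ha : (ev ℓ).Inv a := by rw [he]; exact Or.inl rfl
  have hb : (ev ℓ).Inv b := by rw [he]; exact Or.inr rfl
  by_cases hpass : ∃ k, Q.q k = ℓ
  · obtain ⟨k, hk⟩ := hpass
    rw [Q.u_at ha hk, Q.u_at hb hk, Q.u_succ ha hk, Q.u_succ hb hk]
    have h1 := Q.inv_pred hk
    have h2 := Q.inv_self hk
    rw [he] at h1 h2
    cases hpa : a.pos <;> cases hpb : b.pos <;> rcases h1 with h1 | h1 <;> rcases h2 with h2 | h2 <;>
      simp [h1, h2, hab, hab.symm]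
  · push Not at hpass
    have := Q.u_zero_of_not_pass ha hpass
    have := Q.u_zero_of_not_pass hb hpass
    omega

lemma u_le_one (ℓ : ℕ) (t : St) (hp : t.pos = true) : 0 ≤ Q.u ℓ t := by
  classical
  unfold u
  split_ifs <;> simp_all

lemma u_nonpos (ℓ : ℕ) (t : St) (hp : t.pos = false) : Q.u ℓ t ≤ 0 := by
  classical
  unfold u
  split_ifs <;> simp_all

lemma u_of_used_pos {ℓ : ℕ} {t : St} (h : Q.used ℓ t) (hp : t.pos = true) : Q.u ℓ t = 1 := by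
  unfold u; simp [h, hp]

lemma u_of_used_neg {ℓ : ℕ} {t : St} (h : Q.used ℓ t) (hp : t.pos = false) : Q.u ℓ t = -1 := by
  unfold u; simp [h, hp]

/-! ### Labels -/

lemma U_succ_cross {ℓ : ℕ} {a b : St} (he : ev ℓ = .cross a b) (t : St) :
    Q.U (ℓ + 1) t = if t = b then Q.U ℓ a else if t = a then Q.U ℓ a - Q.u (ℓ + 1) b
      else Q.U ℓ t := by
  conv_lhs => unfold U
  rw [he]

lemma U_succ_birth {ℓ l i : ℕ} {c : St} (he : ev ℓ = .birth l i c) (t : St) :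
    Q.U (ℓ + 1) t = if t = ⟨l, i, false⟩ then Q.U ℓ c
      else if t = ⟨l, i, true⟩ then Q.U ℓ c - Q.u (ℓ + 1) ⟨l, i, false⟩ else Q.U ℓ t := by
  conv_lhs => unfold U
  rw [he]

lemma U_succ_of_not_inv {ℓ : ℕ} {t : St} (h : ¬ (ev ℓ).Inv t) : Q.U (ℓ + 1) t = Q.U ℓ t := by
  cases he : ev ℓ with
  | cross a b =>
    rw [Q.U_succ_cross he]
    rw [he] at h
    simp only [Ev.Inv, not_or] at h
    simp [h.1, h.2]
  | birth l i c =>
    rw [Q.U_succ_birth he]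
    rw [he] at h
    have h1 : t ≠ ⟨l, i, false⟩ := by rintro rfl; exact h ⟨rfl, rfl⟩
    have h2 : t ≠ ⟨l, i, true⟩ := by rintro rfl; exact h ⟨rfl, rfl⟩
    simp [h1, h2]

lemma D_succ_of_not_inv {ℓ : ℕ} {t : St} (h : ¬ (ev ℓ).Inv t) : Q.D (ℓ + 1) t = Q.D ℓ t := by
  unfold D
  rw [Q.U_succ_of_not_inv h, Q.u_succ_of_not_inv h]

/-- The labels around a crossing. -/
lemma cross_labels {ℓ : ℕ} {a b : St} (he : ev ℓ = .cross a b) (hab : a ≠ b)
    (hadj : Q.U ℓ b = Q.D ℓ a) :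
    Q.U (ℓ + 1) b = Q.U ℓ a ∧ Q.U (ℓ + 1) a = Q.D (ℓ + 1) b ∧ Q.D (ℓ + 1) a = Q.D ℓ b := by
  have hb : Q.U (ℓ + 1) b = Q.U ℓ a := by rw [Q.U_succ_cross he]; simp
  have ha : Q.U (ℓ + 1) a = Q.U ℓ a - Q.u (ℓ + 1) b := by
    rw [Q.U_succ_cross he]; simp [hab]
  have hc := Q.cons_cross he hab
  refine ⟨hb, ?_, ?_⟩
  · unfold D; rw [ha, hb]
  · unfold D at hadj ⊢
    rw [ha]
    omega

end Ray2

end Pool.Agent.H4.Ray
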