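import Pool.Agent.H4.Ray.Label

/-!
Cyclic lists of strands, coherence of the labels, monotonicity of the labels.
-/

namespace Pool.Agent.H4.Ray

/-- Effect of an event on the cyclic list of strands. -/
inductive Step : Ev → Cycle St → Cycle St → Prop
  | cross (a b : St) (Z : List St) :
      Step (.cross a b) ((a :: b :: Z : List St) : Cycle St) ((b :: a :: Z : List St) : Cycle St)
  | birth (l i : ℕ) (c : St) (Z : List St) (h : ∀ s ∈ c :: Z, ¬ (s.lev = l ∧ s.idx = i)) :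
      Step (.birth l i c) ((c :: Z : List St) : Cycle St)
        ((⟨l, i, false⟩ :: ⟨l, i, true⟩ :: c :: Z : List St) : Cycle St)
  | birth0 (l i : ℕ) (c : St) :
      Step (.birth l i c) (([] : List St) : Cycle St)
        (([⟨l, i, false⟩, ⟨l, i, true⟩] : List St) : Cycle St)

/-- Successive effect of a list of events. -/
inductive Run : List Ev → Cycle St → Cycle St → Prop
  | nil (C : Cycle St) : Run [] C C
  | cons {e : Ev} {es : List Ev} {C C' C'' : Cycle St} :
      Step e C C' → Run es C' C'' → Run (e :: es) C C''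

lemma Run.append {es es' : List Ev} {C C' C'' : Cycle St} (h : Run es C C') (h' : Run es' C' C'') :
    Run (es ++ es') C C'' := by
  induction h with
  | nil C => exact h'
  | cons hs _ ih => exact Run.cons hs (ih h')

lemma Run.single {e : Ev} {C C' : Cycle St} (h : Step e C C') : Run [e] C C' :=
  Run.cons h (Run.nil _)

/-- The list of events `es` occurs in `ev` from position `ℓ` on. -/
def Follows (ev : ℕ → Ev) : ℕ → List Ev → Prop
  | _, [] => True
  | ℓ, e :: es => ev ℓ = e ∧ Follows ev (ℓ + 1) es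

lemma follows_append {ev : ℕ → Ev} {es es' : List Ev} {ℓ : ℕ} :
    Follows ev ℓ (es ++ es') ↔ Follows ev ℓ es ∧ Follows ev (ℓ + es.length) es' := by
  induction es generalizing ℓ with
  | nil => simp [Follows]
  | cons e es ih =>
    simp only [List.cons_append, Follows, List.length_cons, ih]
    rw [show ℓ + 1 + es.length = ℓ + (es.length + 1) by omega, and_assoc]

lemma follows_get {ev : ℕ → Ev} {es : List Ev} {ℓ : ℕ} (h : Follows ev ℓ es) (i : ℕ)
    (hi : i < es.length) : ev (ℓ + i) = es[i] := by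
  induction es generalizing ℓ i with
  | nil => simp at hi
  | cons e es ih =>
    cases i with
    | zero => exact h.1
    | succ i =>
      have := ih h.2 i (by simpa using hi)
      rw [show ℓ + (i + 1) = ℓ + 1 + i by omega, this]
      rfl

lemma follows_of_get {ev : ℕ → Ev} {es : List Ev} {ℓ : ℕ}
    (h : ∀ i (hi : i < es.length), ev (ℓ + i) = es[i]) : Follows ev ℓ es := by
  induction es generalizing ℓ with
  | nil => trivial
  | cons e es ih =>
    refine ⟨h 0 (by simp), ih fun i hi => ?_⟩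
    have := h (i + 1) (by simpa using hi)
    rw [show ℓ + 1 + i = ℓ + (i + 1) by omega, this]
    rfl

/-- Propagation of a property along a run. -/
lemma run_prop {ev : ℕ → Ev} (P : ℕ → Cycle St → Prop)
    (hP : ∀ ℓ C C', P ℓ C → Step (ev ℓ) C C' → P (ℓ + 1) C')
    {es : List Ev} {C C' : Cycle St} (hr : Run es C C') {ℓ : ℕ} (hf : Follows ev ℓ es)
    (h0 : P ℓ C) :
    P (ℓ + es.length) C' ∧
      ∀ z, ℓ ≤ z → z < ℓ + es.length → ∃ C1 C2, P z C1 ∧ Step (ev z) C1 C2 := by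
  induction hr generalizing ℓ with
  | nil C => exact ⟨by simpa using h0, fun z hz hz' => by simp at hz'; omega⟩
  | @cons e es C C' C'' hs _ ih =>
    obtain ⟨he, hf'⟩ := hf
    have hs' : Step (ev ℓ) C C' := by rw [he]; exact hs
    obtain ⟨h1, h2⟩ := ih hf' (hP _ _ _ h0 hs')
    refine ⟨?_, fun z hz hz' => ?_⟩
    · rw [List.length_cons, show ℓ + (es.length + 1) = ℓ + 1 + es.length by omega]
      exact h1
    · rcases hz.eq_or_lt with rfl | hlt
      · exact ⟨C, C', h0, hs'⟩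
      · exact h2 z hlt (by rw [List.length_cons] at hz'; omega)

/-- No strand is repeated and all strands involved so far are present. -/
def Good (ev : ℕ → Ev) (ℓ : ℕ) (C : Cycle St) : Prop :=
  C.Nodup ∧ ∀ z < ℓ, ∀ t, (ev z).Inv t → t ∈ C

lemma Good.step {ev : ℕ → Ev} {ℓ : ℕ} {C C' : Cycle St} (h : Good ev ℓ C)
    (hs : Step (ev ℓ) C C') : Good ev (ℓ + 1) C' := by
  obtain ⟨h1, h2⟩ := h
  generalize he : ev ℓ = e at hs
  cases hs with
  | cross a b Z =>
    refine ⟨?_, ?_⟩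
    · rw [Cycle.nodup_coe_iff] at h1 ⊢
      rw [List.nodup_cons, List.nodup_cons] at h1
      rw [List.nodup_cons, List.nodup_cons]
      simp only [List.mem_cons, not_or] at h1 ⊢
      exact ⟨⟨Ne.symm h1.1.1, h1.2.1⟩, h1.1.2, h1.2.2⟩
    · intro z hz t ht
      rw [Cycle.mem_coe_iff]
      rcases Nat.lt_succ_iff_lt_or_eq.1 hz with hz' | rfl
      · have := h2 z hz' t ht
        rw [Cycle.mem_coe_iff] at this
        simp only [List.mem_cons] at this ⊢
        tauto
      · rw [he] at ht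
        rcases ht with rfl | rfl <;> simp
  | birth l i c Z hfr =>
    refine ⟨?_, ?_⟩
    · rw [Cycle.nodup_coe_iff] at h1 ⊢
      rw [List.nodup_cons, List.nodup_cons]
      refine ⟨?_, ?_, h1⟩
      · rw [List.mem_cons, not_or]
        refine ⟨by simp, fun hm => hfr _ hm ⟨rfl, rfl⟩⟩
      · exact fun hm => hfr _ hm ⟨rfl, rfl⟩
    · intro z hz t ht
      rw [Cycle.mem_coe_iff]
      rcases Nat.lt_succ_iff_lt_or_eq.1 hz with hz' | rfl
      · have := h2 z hz' t ht
        rw [Cycle.mem_coe_iff] at this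
        exact List.mem_cons_of_mem _ (List.mem_cons_of_mem _ this)
      · rw [he] at ht
        obtain ⟨rfl, rfl⟩ := ht
        obtain ⟨l, i, p⟩ := t
        cases p <;> simp
  | birth0 l i c =>
    refine ⟨?_, ?_⟩
    · rw [Cycle.nodup_coe_iff]
      simp
    · intro z hz t ht
      rw [Cycle.mem_coe_iff]
      rcases Nat.lt_succ_iff_lt_or_eq.1 hz with hz' | rfl
      · have := h2 z hz' t ht
        rw [Cycle.mem_coe_iff] at this
        simp at this
      · rw [he] at ht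
        obtain ⟨rfl, rfl⟩ := ht
        obtain ⟨l, i, p⟩ := t
        cases p <;> simp

lemma Good.fresh {ev : ℕ → Ev} {ℓ : ℕ} {C C' : Cycle St} (h : Good ev ℓ C)
    (hs : Step (ev ℓ) C C') {l i : ℕ} {c : St} (he : ev ℓ = .birth l i c) :
    ∀ z < ℓ, ∀ t : St, t.lev = l → t.idx = i → ¬ (ev z).Inv t := by
  intro z hz t h1 h2 ht
  have hm := h.2 z hz t ht
  rw [he] at hs
  cases hs with
  | birth _ _ _ Z hfr =>
    rw [Cycle.mem_coe_iff] at hm
    exact hfr _ hm ⟨h1, h2⟩
  | birth0 =>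
    rw [Cycle.mem_coe_iff] at hm
    simp at hm

lemma fresh_of_good {ev : ℕ → Ev} (h : ∀ ℓ, ∃ C1 C2, Good ev ℓ C1 ∧ Step (ev ℓ) C1 C2) :
    Fresh ev := by
  intro ℓ l i c he
  obtain ⟨C1, C2, h1, h2⟩ := h ℓ
  exact h1.fresh h2 he

namespace Ray2

variable {ev : ℕ → Ev} (Q : Ray2 ev)

/-- Adjacent strands share the label of the gap between them. -/
def Coh (ℓ : ℕ) (C : Cycle St) : Prop := C.Chain (fun x y => Q.D ℓ x = Q.U ℓ y)

lemma chain_transfer {D U D' U' : St → ℤ} {y y' : St} (hy : U' y' = U y) (Z : List St)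
    (hZ : ∀ z ∈ Z, D' z = D z ∧ U' z = U z) {x x' : St} (hx : D' x' = D x)
    (h : List.IsChain (fun p q => D p = U q) (x :: (Z ++ [y]))) :
    List.IsChain (fun p q => D' p = U' q) (x' :: (Z ++ [y'])) := by
  induction Z generalizing x x' with
  | nil =>
    simp only [List.nil_append, List.isChain_cons_cons, List.isChain_singleton, and_true] at h ⊢
    rw [hx, h, hy]
  | cons z Z ih =>
    rw [List.cons_append, List.isChain_cons_cons] at h ⊢
    have hz := hZ z (by simp)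
    refine ⟨by rw [hx, h.1, hz.2], ih (fun w hw => hZ w (by simp [hw])) hz.1 h.2⟩

lemma Coh.step {ℓ : ℕ} {C C' : Cycle St} (hF : Fresh ev) (hC : C.Nodup) (h : Q.Coh ℓ C)
    (hs : Step (ev ℓ) C C') : Q.Coh (ℓ + 1) C' := by
  generalize he : ev ℓ = e at hs
  cases hs with
  | cross a b Z =>
    rw [Cycle.nodup_coe_iff, List.nodup_cons, List.nodup_cons, List.mem_cons, not_or] at hC
    unfold Coh at h ⊢
    rw [Cycle.chain_coe_cons, List.cons_append, List.isChain_cons_cons] at h ⊢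
    obtain ⟨c1, c2, c3⟩ := Q.cross_labels he hC.1.1 h.1.symm
    refine ⟨c2.symm, chain_transfer c1 Z (fun z hz => ?_) c3 h.2⟩
    have hni : ¬ (ev ℓ).Inv z := by
      rw [he]
      rintro (rfl | rfl)
      · exact hC.1.2 hz
      · exact hC.2.1 hz
    exact ⟨Q.D_succ_of_not_inv hni, Q.U_succ_of_not_inv hni⟩
  | birth l i c Z hfr =>
    obtain ⟨b1, b2, b3⟩ := birth_labels (Q := Q) hF he
    unfold Coh at h ⊢
    rw [Cycle.chain_coe_cons] at h ⊢
    rw [List.cons_append, List.isChain_cons_cons, List.cons_append, List.isChain_cons_cons]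
    have hni : ∀ z ∈ c :: Z, ¬ (ev ℓ).Inv z := by
      intro z hz
      rw [he]
      exact hfr z hz
    have hc := hni c (by simp)
    refine ⟨b2.symm, by rw [b3, Q.U_succ_of_not_inv hc], ?_⟩
    refine chain_transfer (y := c) b1 Z (fun z hz => ?_) (Q.D_succ_of_not_inv hc) h
    have hni' := hni z (by simp [hz])
    exact ⟨Q.D_succ_of_not_inv hni', Q.U_succ_of_not_inv hni'⟩
  | birth0 l i c =>
    obtain ⟨b1, b2, b3⟩ := birth_labels (Q := Q) hF he
    unfold Coh
    rw [Cycle.chain_coe_cons]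
    simp only [List.cons_append, List.nil_append, List.isChain_cons_cons,
      List.isChain_singleton, and_true]
    exact ⟨b2.symm, by rw [b3, b1]⟩

lemma loc_of_coh (hF : Fresh ev)
    (h : ∀ ℓ, ∃ C1 C2, (Good ev ℓ C1 ∧ Q.Coh ℓ C1) ∧ Step (ev ℓ) C1 C2) : Q.Loc := by
  refine ⟨?_, hF⟩
  intro ℓ a b he
  obtain ⟨C1, C2, ⟨h1, h2⟩, h3⟩ := h ℓ
  rw [he] at h3
  cases h3 with
  | cross _ _ Z =>
    have hC := h1.1
    rw [Cycle.nodup_coe_iff, List.nodup_cons, List.nodup_cons, List.mem_cons, not_or] at hC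
    unfold Coh at h2
    rw [Cycle.chain_coe_cons, List.cons_append, List.isChain_cons_cons] at h2
    exact ⟨hC.1.1, h2.1.symm⟩

variable {Q}

/-! ### Monotonicity -/

/-- Faces around a crossing. -/
lemma faces (hL : Q.Loc) {ℓ : ℕ} {a b : St} (he : ev ℓ = .cross a b) :
    a ≠ b ∧ Q.U ℓ b = Q.D ℓ a ∧ Q.U (ℓ + 1) b = Q.U ℓ a ∧ Q.U (ℓ + 1) a = Q.D (ℓ + 1) b ∧
      Q.D (ℓ + 1) a = Q.D ℓ b := by
  obtain ⟨h1, h2⟩ := hL.1 ℓ a b he
  obtain ⟨c1, c2, c3⟩ := Q.cross_labels he h1 h2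
  exact ⟨h1, h2, c1, c2, c3⟩

lemma U_eq (ℓ : ℕ) (t : St) : Q.U ℓ t = Q.D ℓ t + Q.u ℓ t := by unfold D; ring

/-- The upper strand is outgoing: the labels of the lower strand increase. -/
lemma up_of_pos (hL : Q.Loc) {ℓ : ℕ} {a b : St} (he : ev ℓ = .cross a b) (hp : a.pos = true) :
    Q.U ℓ b ≤ Q.U (ℓ + 1) b ∧ Q.D ℓ b ≤ Q.D (ℓ + 1) b := by
  obtain ⟨h1, h2, h3, h4, h5⟩ := faces hL he
  have e1 := Q.u_le_one ℓ a hp
  have e2 := Q.u_le_one (ℓ + 1) a hp
  have f1 := U_eq (Q := Q) ℓ a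
  have f2 := U_eq (Q := Q) (ℓ + 1) a
  omega

/-- The upper strand is incoming: the labels of the lower strand decrease. -/
lemma down_of_neg (hL : Q.Loc) {ℓ : ℕ} {a b : St} (he : ev ℓ = .cross a b) (hp : a.pos = false) :
    Q.U (ℓ + 1) b ≤ Q.U ℓ b ∧ Q.D (ℓ + 1) b ≤ Q.D ℓ b := by
  obtain ⟨h1, h2, h3, h4, h5⟩ := faces hL he
  have e1 := Q.u_nonpos ℓ a hp
  have e2 := Q.u_nonpos (ℓ + 1) a hp
  have f1 := U_eq (Q := Q) ℓ a
  have f2 := U_eq (Q := Q) (ℓ + 1) a
  omega

/-- The lower strand is outgoing: the labels of the upper strand decrease. -/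
lemma down_of_pos (hL : Q.Loc) {ℓ : ℕ} {a b : St} (he : ev ℓ = .cross a b) (hp : b.pos = true) :
    Q.U (ℓ + 1) a ≤ Q.U ℓ a ∧ Q.D (ℓ + 1) a ≤ Q.D ℓ a := by
  obtain ⟨h1, h2, h3, h4, h5⟩ := faces hL he
  have e1 := Q.u_le_one ℓ b hp
  have e2 := Q.u_le_one (ℓ + 1) b hp
  have f1 := U_eq (Q := Q) ℓ b
  have f2 := U_eq (Q := Q) (ℓ + 1) b
  omega

/-- The lower strand is incoming: the labels of the upper strand increase. -/
lemma up_of_neg (hL : Q.Loc) {ℓ : ℕ} {a b : St} (he : ev ℓ = .cross a b) (hp : b.pos = false) :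
    Q.U ℓ a ≤ Q.U (ℓ + 1) a ∧ Q.D ℓ a ≤ Q.D (ℓ + 1) a := by
  obtain ⟨h1, h2, h3, h4, h5⟩ := faces hL he
  have e1 := Q.u_nonpos ℓ b hp
  have e2 := Q.u_nonpos (ℓ + 1) b hp
  have f1 := U_eq (Q := Q) ℓ b
  have f2 := U_eq (Q := Q) (ℓ + 1) b
  omega

/-- A segment of crossings of an incoming strand above an outgoing one. -/
def Seg1 (ev : ℕ → Ev) (m n : ℕ) : Prop :=
  m ≤ n ∧ ∀ z, m ≤ z → z < n → ∃ x y, ev z = .cross x y ∧ x.pos = false ∧ y.pos = true

/-- A segment of crossings of an outgoing strand above an incoming one. -/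
def Seg2 (ev : ℕ → Ev) (m n : ℕ) : Prop :=
  m ≤ n ∧ ∀ z, m ≤ z → z < n → ∃ x y, ev z = .cross x y ∧ x.pos = true ∧ y.pos = false

lemma seg1_mono (hL : Q.Loc) {m n : ℕ} (h : Seg1 ev m n) (t : St) :
    Q.U n t ≤ Q.U m t ∧ Q.D n t ≤ Q.D m t := by
  obtain ⟨d, rfl⟩ := Nat.exists_eq_add_of_le h.1
  induction d with
  | zero => exact ⟨le_rfl, le_rfl⟩
  | succ d ih =>
    have ih' := ih ⟨by omega, fun z hz hz' => h.2 z hz (by omega)⟩
    obtain ⟨x, y, he, hx, hy⟩ := h.2 (m + d) (by omega) (by omega)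
    rw [← add_assoc]
    by_cases h1 : t = x
    · have := down_of_pos hL he hy
      rw [h1] at ih' ⊢
      omega
    · by_cases h2 : t = y
      · have := down_of_neg hL he hx
        rw [h2] at ih' ⊢
        omega
      · have hni : ¬ (ev (m + d)).Inv t := by rw [he]; rintro (rfl | rfl) <;> simp_all
        rw [Q.U_succ_of_not_inv hni, Q.D_succ_of_not_inv hni]
        exact ih'

lemma seg2_mono (hL : Q.Loc) {m n : ℕ} (h : Seg2 ev m n) (t : St) :
    Q.U m t ≤ Q.U n t ∧ Q.D m t ≤ Q.D n t := by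
  obtain ⟨d, rfl⟩ := Nat.exists_eq_add_of_le h.1
  induction d with
  | zero => exact ⟨le_rfl, le_rfl⟩
  | succ d ih =>
    have ih' := ih ⟨by omega, fun z hz hz' => h.2 z hz (by omega)⟩
    obtain ⟨x, y, he, hx, hy⟩ := h.2 (m + d) (by omega) (by omega)
    rw [← add_assoc]
    by_cases h1 : t = x
    · have := up_of_neg hL he hy
      rw [h1] at ih' ⊢
      omega
    · by_cases h2 : t = y
      · have := up_of_pos hL he hx
        rw [h2] at ih' ⊢
        omega
      · have hni : ¬ (ev (m + d)).Inv t := by rw [he]; rintro (rfl | rfl) <;> simp_all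
        rw [Q.U_succ_of_not_inv hni, Q.D_succ_of_not_inv hni]
        exact ih'

/-- Crossing in a segment of the first type. -/
lemma seg1_cross (hL : Q.Loc) {m n z : ℕ} (h : Seg1 ev m n) (hz : m ≤ z) (hz' : z < n) {x y : St}
    (he : ev z = .cross x y) (C : ℤ) :
    (Q.D m y ≤ C → Q.U n x ≤ C ∧ Q.D n x ≤ C) ∧ (Q.U m x ≤ C → Q.U n y ≤ C ∧ Q.D n y ≤ C) := by
  obtain ⟨x', y', he', hx, hy⟩ := h.2 z hz hz'
  rw [he] at he'
  injection he' with e1 e2
  subst e1 e2
  have s1 : Seg1 ev m z := ⟨hz, fun w hw hw' => h.2 w hw (by omega)⟩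
  have s2 : Seg1 ev (z + 1) n := ⟨hz', fun w hw hw' => h.2 w (by omega) hw'⟩
  have m1 := seg1_mono hL s1 x
  have m2 := seg1_mono hL s1 y
  have m3 := seg1_mono hL s2 x
  have m4 := seg1_mono hL s2 y
  have f := faces hL he
  have g1 := down_of_neg hL he hx
  have g2 := down_of_pos hL he hy
  constructor
  · intro hc
    omega
  · intro hc
    omega

/-- Crossing in a segment of the second type. -/
lemma seg2_cross (hL : Q.Loc) {m n z : ℕ} (h : Seg2 ev m n) (hz : m ≤ z) (hz' : z < n) {x y : St}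
    (he : ev z = .cross x y) (C : ℤ) :
    (C ≤ Q.D m y → C ≤ Q.U n x ∧ C ≤ Q.D n x) ∧ (C ≤ Q.U m x → C ≤ Q.U n y ∧ C ≤ Q.D n y) := by
  obtain ⟨x', y', he', hx, hy⟩ := h.2 z hz hz'
  rw [he] at he'
  injection he' with e1 e2
  subst e1 e2
  have s1 : Seg2 ev m z := ⟨hz, fun w hw hw' => h.2 w hw (by omega)⟩
  have s2 : Seg2 ev (z + 1) n := ⟨hz', fun w hw hw' => h.2 w (by omega) hw'⟩
  have m1 := seg2_mono hL s1 x
  have m2 := seg2_mono hL s1 y
  have m3 := seg2_mono hL s2 x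
  have m4 := seg2_mono hL s2 y
  have f := faces hL he
  have g1 := up_of_pos hL he hx
  have g2 := up_of_neg hL he hy
  constructor
  · intro hc
    omega
  · intro hc
    omega

end Ray2

end Pool.Agent.H4.Ray
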