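import Pool.Agent.H4.Ray.Graph

/-!
Every vertex of the example digraph has at most three neighbours.
-/

namespace Pool.Agent.H4.Ray

lemma nx_right {s : St} {x y y' : ℕ} (h : Nx ev s x y) (h' : Nx ev s x y') : y = y' := by
  by_contra hne
  rcases lt_or_gt_of_ne hne with hlt | hlt
  · exact h'.2.2.2 y h.1 hlt h.2.2.1
  · exact h.2.2.2 y' h'.1 hlt h'.2.2.1

lemma nx_left {s : St} {x x' y : ℕ} (h : Nx ev s x y) (h' : Nx ev s x' y) : x = x' := by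
  by_contra hne
  rcases lt_or_gt_of_ne hne with hlt | hlt
  · exact h.2.2.2 x' hlt h'.1 h'.2.1
  · exact h'.2.2.2 x hlt h.1 h.2.1

lemma es_right {s : St} {x y y' : ℕ} (h : Es ev s x y) (h' : Es ev s x y') : y = y' := by
  rcases h with ⟨hp, h⟩ | ⟨hp, h⟩ <;> rcases h' with ⟨hp', h'⟩ | ⟨hp', h'⟩
  · exact nx_right h h'
  · rw [hp] at hp'; cases hp'
  · rw [hp] at hp'; cases hp'
  · exact nx_left h h'

lemma es_left {s : St} {x x' y : ℕ} (h : Es ev s x y) (h' : Es ev s x' y) : x = x' := by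
  rcases h with ⟨hp, h⟩ | ⟨hp, h⟩ <;> rcases h' with ⟨hp', h'⟩ | ⟨hp', h'⟩
  · exact nx_left h h'
  · rw [hp] at hp'; cases hp'
  · rw [hp] at hp'; cases hp'
  · exact nx_right h h'

lemma es_inv {s : St} {x y : ℕ} (h : Es ev s x y) : (ev x).Inv s ∧ (ev y).Inv s := by
  rcases h with ⟨_, h⟩ | ⟨_, h⟩
  · exact ⟨h.2.1, h.2.2.1⟩
  · exact ⟨h.2.2.1, h.2.1⟩

lemma inv_two (e : Ev) : ∃ s1 s2 : St, ∀ s, e.Inv s → s = s1 ∨ s = s2 := by
  cases e with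
  | cross a b => exact ⟨a, b, fun s h => h⟩
  | birth l i c =>
    refine ⟨⟨l, i, true⟩, ⟨l, i, false⟩, fun s h => ?_⟩
    cases hp : s.pos
    · exact Or.inr (Ray2.St_eq h.1 h.2 hp)
    · exact Or.inl (Ray2.St_eq h.1 h.2 hp)

lemma gr_out (x : ℕ) : ∃ y1 y2, ∀ y, Gr x y → y = y1 ∨ y = y2 := by
  obtain ⟨s1, s2, hs⟩ := inv_two (ev x)
  have key : ∀ s, ∃ y0, ∀ y, Es ev s x y → y = y0 := by
    intro s
    by_cases h : ∃ y, Es ev s x y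
    · obtain ⟨y0, h0⟩ := h
      exact ⟨y0, fun y hy => es_right hy h0⟩
    · exact ⟨0, fun y hy => absurd ⟨y, hy⟩ h⟩
  obtain ⟨y1, h1⟩ := key s1
  obtain ⟨y2, h2⟩ := key s2
  refine ⟨y1, y2, ?_⟩
  rintro y ⟨s, h⟩
  rcases hs s (es_inv h).1 with rfl | rfl
  · exact Or.inl (h1 y h)
  · exact Or.inr (h2 y h)

lemma gr_in (y : ℕ) : ∃ x1 x2, ∀ x, Gr x y → x = x1 ∨ x = x2 := by
  obtain ⟨s1, s2, hs⟩ := inv_two (ev y)
  have key : ∀ s, ∃ x0, ∀ x, Es ev s x y → x = x0 := by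
    intro s
    by_cases h : ∃ x, Es ev s x y
    · obtain ⟨x0, h0⟩ := h
      exact ⟨x0, fun x hx => es_left hx h0⟩
    · exact ⟨0, fun x hx => absurd ⟨x, hx⟩ h⟩
  obtain ⟨x1, h1⟩ := key s1
  obtain ⟨x2, h2⟩ := key s2
  refine ⟨x1, x2, ?_⟩
  rintro x ⟨s, h⟩
  rcases hs s (es_inv h).2 with rfl | rfl
  · exact Or.inl (h1 x h)
  · exact Or.inr (h2 x h)

/-- Every vertex has at most three neighbours. -/
theorem sp_degree (a : ℕ) : ∃ b c d, ∀ e, Sp a e ∨ Sp e a → e = b ∨ e = c ∨ e = d := by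
  obtain ⟨x, hx⟩ : ∃ x, a = 2 * x ∨ a = 2 * x + 1 := ⟨a / 2, by omega⟩
  rcases hx with rfl | rfl
  · obtain ⟨x1, x2, h⟩ := gr_in x
    refine ⟨2 * x + 1, 2 * x1 + 1, 2 * x2 + 1, ?_⟩
    rintro e ((⟨y, h1, h2⟩ | ⟨y, z, h1, h2, _⟩) | (⟨y, h1, h2⟩ | ⟨y, z, h1, h2, h3⟩))
    · omega
    · omega
    · omega
    · have : z = x := by omega
      subst z
      rcases h y h3 with rfl | rfl <;> omega
  · obtain ⟨y1, y2, h⟩ := gr_out x
    refine ⟨2 * x, 2 * y1, 2 * y2, ?_⟩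
    rintro e ((⟨y, h1, h2⟩ | ⟨y, z, h1, h2, h3⟩) | (⟨y, h1, h2⟩ | ⟨y, z, h1, h2, _⟩))
    · omega
    · have : y = x := by omega
      subst y
      rcases h z h3 with rfl | rfl <;> omega
    · omega
    · omega

end Pool.Agent.H4.Ray
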