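import Pool.Agent.H4.Ray.Wires

/-!
The example digraph: arbitrarily many vertex-disjoint directed double rays, but no infinite family
of edge-disjoint ones.
-/

namespace Pool.Agent.H4.Ray

open Ray2

/-- A two-way infinite path of the relation `E`. -/
def IsDRay (E : ℕ → ℕ → Prop) (f : ℤ → ℕ) : Prop :=
  Function.Injective f ∧ ∀ k, E (f k) (f (k + 1))

/-- The digraph of the strand diagram. -/
def Gr (x y : ℕ) : Prop := ∃ s, Es ev s x y

/-- The digraph obtained by splitting every vertex `x` into `2 x → 2 x + 1`. -/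
def Sp (a b : ℕ) : Prop :=
  (∃ x, a = 2 * x ∧ b = 2 * x + 1) ∨ ∃ x y, a = 2 * x + 1 ∧ b = 2 * y ∧ Gr x y

lemma gr_irrefl (x : ℕ) : ¬ Gr x x := by
  rintro ⟨s, ⟨_, h⟩ | ⟨_, h⟩⟩ <;> exact lt_irrefl _ h.1

lemma sp_asymm {a b : ℕ} (h : Sp a b) : ¬ Sp b a := by
  rcases h with ⟨x, rfl, rfl⟩ | ⟨x, y, rfl, rfl, hxy⟩
  · rintro (⟨z, h1, h2⟩ | ⟨z, w, h1, h2, h3⟩)
    · omega
    · have : z = x := by omega
      have : w = x := by omega
      subst z w
      exact gr_irrefl _ h3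
  · rintro (⟨z, h1, h2⟩ | ⟨z, w, h1, h2, h3⟩)
    · have : y = x := by omega
      subst y
      exact gr_irrefl _ hxy
    · omega

lemma sp_even {a b : ℕ} (h : Sp a b) (ha : a % 2 = 0) : b = a + 1 := by
  rcases h with ⟨x, rfl, rfl⟩ | ⟨x, y, rfl, rfl, _⟩ <;> omega

lemma sp_odd {a b : ℕ} (h : Sp a b) (ha : a % 2 = 1) : b % 2 = 0 ∧ Gr (a / 2) (b / 2) := by
  rcases h with ⟨x, rfl, rfl⟩ | ⟨x, y, rfl, rfl, hxy⟩
  · omega
  · refine ⟨by omega, ?_⟩
    rw [show (2 * x + 1) / 2 = x by omega, show 2 * y / 2 = y by omega]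
    exact hxy

lemma sp_parity {f : ℤ → ℕ} (hf : IsDRay Sp f) {b : ℤ} (hb : f b % 2 = 0) (m : ℤ) :
    f (b + 2 * m) % 2 = 0 := by
  have alt : ∀ k, f (k + 1) % 2 = 1 ↔ f k % 2 = 0 := by
    intro k
    have h := hf.2 k
    rcases Nat.mod_two_eq_zero_or_one (f k) with h0 | h0
    · have := sp_even h h0
      omega
    · have := (sp_odd h h0).1
      omega
  have alt2 : ∀ k, f (k + 2) % 2 = 0 ↔ f k % 2 = 0 := by
    intro k
    have h1 := alt k
    have h2 := alt (k + 1)
    rw [show k + 1 + 1 = k + 2 by ring] at h2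
    rcases Nat.mod_two_eq_zero_or_one (f (k + 1)) with h0 | h0 <;>
      rcases Nat.mod_two_eq_zero_or_one (f (k + 2)) with h3 | h3 <;>
      rcases Nat.mod_two_eq_zero_or_one (f k) with h4 | h4 <;> simp_all
  induction m using Int.induction_on with
  | zero => simpa using hb
  | succ i ih =>
    have := (alt2 (b + 2 * i)).2 ih
    rw [show b + 2 * ((i : ℤ) + 1) = b + 2 * i + 2 by ring]
    exact this
  | pred i ih =>
    refine (alt2 (b + 2 * (-i - 1))).1 ?_
    rw [show b + 2 * (-(i : ℤ) - 1) + 2 = b + 2 * -i by ring]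
    exact ih

/-- A double ray of the split digraph passes through both halves of every vertex. -/
lemma ray_of_sp {f : ℤ → ℕ} (hf : IsDRay Sp f) : ∃ Q : Ray2 ev, ∀ k, ∃ m,
    f m = 2 * Q.q k ∧ f (m + 1) = 2 * Q.q k + 1 := by
  obtain ⟨b, hb⟩ : ∃ b, f b % 2 = 0 := by
    rcases Nat.mod_two_eq_zero_or_one (f 0) with h0 | h0
    · exact ⟨0, h0⟩
    · exact ⟨0 + 1, (sp_odd (hf.2 0) h0).1⟩
  have hev := sp_parity hf hb
  have hsucc : ∀ m, f (b + 2 * m + 1) = f (b + 2 * m) + 1 := fun m => sp_even (hf.2 _) (hev m)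
  have hgr : ∀ m, Gr (f (b + 2 * m) / 2) (f (b + 2 * (m + 1)) / 2) := by
    intro m
    have h1 := hf.2 (b + 2 * m + 1)
    rw [show b + 2 * m + 1 + 1 = b + 2 * (m + 1) by ring] at h1
    have h2 := (sp_odd h1 (by rw [hsucc]; have := hev m; omega)).2
    rw [hsucc, show (f (b + 2 * m) + 1) / 2 = f (b + 2 * m) / 2 by have := hev m; omega] at h2
    exact h2
  choose s hs using hgr
  refine ⟨⟨fun m => f (b + 2 * m) / 2, s, ?_, hs⟩, fun k => ⟨b + 2 * k, ?_, ?_⟩⟩
  · intro x y hxy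
    simp only at hxy
    have h1 := hev x
    have h2 := hev y
    have h3 : f (b + 2 * x) = f (b + 2 * y) := by omega
    have h4 := hf.1 h3
    omega
  · simp only
    have := hev k
    omega
  · simp only
    have := hev k
    rw [hsucc]
    omega

/-- No infinite family of edge-disjoint double rays in the split digraph. -/
theorem sp_none (f : ℕ → ℤ → ℕ) (hf : ∀ i, IsDRay Sp (f i))
    (hd : ∀ i j, i ≠ j → ∀ k k', ¬ (f i k = f j k' ∧ f i (k + 1) = f j (k' + 1))) : False := by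
  choose Q hQ using fun i => ray_of_sp (hf i)
  refine no_infinite Q fun i j hij k k' he => ?_
  obtain ⟨m, h1, h2⟩ := hQ i k
  obtain ⟨m', h1', h2'⟩ := hQ j k'
  exact hd i j hij m m' ⟨by rw [h1, h1', he], by rw [h2, h2', he]⟩

/-- The double ray of the split digraph coming from a double ray. -/
def dbl (q : ℤ → ℕ) (k : ℤ) : ℕ := 2 * q (k / 2) + (k % 2).toNat

lemma dbl_isDRay (Q : Ray2 ev) : IsDRay Sp (dbl Q.q) := by
  constructor
  · intro x y hxy
    unfold dbl at hxy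
    have h1 : Q.q (x / 2) = Q.q (y / 2) := by omega
    have h2 := Q.inj h1
    omega
  · intro k
    unfold dbl
    rcases Int.emod_two_eq_zero_or_one k with h | h
    · left
      refine ⟨Q.q (k / 2), by rw [h]; rfl, ?_⟩
      rw [show (k + 1) / 2 = k / 2 by omega, show (k + 1) % 2 = 1 by omega]
      rfl
    · right
      refine ⟨Q.q (k / 2), Q.q (k / 2 + 1), by rw [h]; rfl, ?_, Q.s (k / 2), Q.es (k / 2)⟩
      rw [show (k + 1) / 2 = k / 2 + 1 by omega, show (k + 1) % 2 = 0 by omega]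
      rfl

/-- Arbitrarily many vertex-disjoint double rays in the split digraph. -/
theorem sp_many (n : ℕ) : ∃ f : ℕ → ℤ → ℕ, (∀ i < n, IsDRay Sp (f i)) ∧
    ∀ i < n, ∀ j < n, i ≠ j → ∀ k k', f i k ≠ f j k' := by
  refine ⟨fun i => dbl (wq n i), fun i hi => dbl_isDRay (wire (l := n) (i := i) hi.le), ?_⟩
  intro i hi j hj hij k k' he
  have he : dbl (wq n i) k = dbl (wq n j) k' := he
  unfold dbl at he
  exact wires_disjoint hi.le hj.le hij (k / 2) (k' / 2) (by omega)

end Pool.Agent.H4.Ray
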