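import Mathlib

/-!
Halin's ray theorem for directed and undirected graphs, vertex- and edge-disjoint single rays.
-/

namespace Pool.Agent.H4.Ray

/-- A one-way infinite path of the relation `E`. -/
def IsRay (E : ℕ → ℕ → Prop) (f : ℕ → ℕ) : Prop :=
  Function.Injective f ∧ ∀ k, E (f k) (f (k + 1))

lemma finite_hits {f : ℕ → ℕ} (hf : Function.Injective f) (F : Finset ℕ) :
    ∃ B, ∀ k, B ≤ k → f k ∉ F := by
  have h : (f ⁻¹' (F : Set ℕ)).Finite := F.finite_toSet.preimage hf.injOn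
  obtain ⟨B, hB⟩ := h.bddAbove
  refine ⟨B + 1, fun k hk hm => ?_⟩
  have := hB (show k ∈ f ⁻¹' (F : Set ℕ) from hm)
  omega

/-- The last element of a nonempty bounded set of natural numbers. -/
lemma exists_last {p : ℕ → Prop} (h : ∃ k, p k) (hB : ∃ B, ∀ k, B ≤ k → ¬ p k) :
    ∃ k, p k ∧ ∀ k', k < k' → ¬ p k' := by
  classical
  obtain ⟨k0, hk0⟩ := h
  obtain ⟨B, hB⟩ := hB
  have hlt : k0 < B := by
    by_contra hge
    exact hB k0 (by omega) hk0
  refine ⟨Nat.findGreatest p B, Nat.findGreatest_spec hlt.le hk0, fun k' hk' hp => ?_⟩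
  by_cases hkB : k' ≤ B
  · exact absurd (Nat.le_findGreatest hkB hp) (by omega)
  · exact hB k' (by omega) hp

lemma splice_gen {E : ℕ → ℕ → Prop} {R S : ℕ → ℕ} (hR : IsRay E R) (hS : IsRay E S) {a b r : ℕ}
    (hr : r ≤ a) (h : S b = R r) :
    ∃ T ρ σ, IsRay E T ∧ T 0 = R 0 ∧ ρ ≤ a ∧ b ≤ σ ∧ (∀ k ≤ ρ, T k = R k) ∧
      (∀ k, ρ ≤ k → T k = S (σ + (k - ρ))) := by
  have hlast : ∃ σ, (∃ r, r ≤ a ∧ S σ = R r) ∧ ∀ σ', σ < σ' → ¬ ∃ r, r ≤ a ∧ S σ' = R r := by
    refine exists_last (p := fun σ => ∃ r, r ≤ a ∧ S σ = R r) ⟨b, r, hr, h⟩ ?_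
    obtain ⟨B, hB⟩ := finite_hits hS.1 ((Finset.range (a + 1)).image R)
    refine ⟨B, fun k hk ⟨r, hr, he⟩ => hB k hk ?_⟩
    rw [he]
    exact Finset.mem_image_of_mem _ (Finset.mem_range.2 (by omega))
  obtain ⟨σ, ⟨ρ, hρ, he⟩, hl⟩ := hlast
  have hbσ : b ≤ σ := by
    by_contra hlt
    exact hl b (by omega) ⟨r, hr, h⟩
  have hT1 : ∀ k ≤ ρ, (if k < ρ then R k else S (σ + (k - ρ))) = R k := by
    intro k hk
    rcases hk.eq_or_lt with rfl | hlt
    · simp [he]
    · rw [if_pos hlt]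
  have hT2 : ∀ k, ρ ≤ k → (if k < ρ then R k else S (σ + (k - ρ))) = S (σ + (k - ρ)) := by
    intro k hk
    rw [if_neg (by omega)]
  refine ⟨fun k => if k < ρ then R k else S (σ + (k - ρ)), ρ, σ, ⟨?_, ?_⟩, ?_, hρ, hbσ, hT1, hT2⟩
  · have key : ∀ x y, x < ρ → ρ ≤ y → R x ≠ S (σ + (y - ρ)) := by
      intro x y hx hy hxy
      rcases hy.eq_or_lt with rfl | hlt
      · rw [Nat.sub_self, add_zero, he] at hxy
        have := hR.1 hxy
        omega
      · exact hl (σ + (y - ρ)) (by omega) ⟨x, by omega, hxy.symm⟩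
    intro x y hxy
    simp only at hxy
    by_cases hx : x < ρ <;> by_cases hy : y < ρ
    · rw [if_pos hx, if_pos hy] at hxy; exact hR.1 hxy
    · rw [if_pos hx, if_neg hy] at hxy; exact absurd hxy (key x y hx (by omega))
    · rw [if_neg hx, if_pos hy] at hxy; exact absurd hxy.symm (key y x hy (by omega))
    · rw [if_neg hx, if_neg hy] at hxy
      have := hS.1 hxy
      omega
  · intro k
    rcases lt_or_ge k ρ with hk | hk
    · have h1 := hT1 k (by omega)
      have h2 := hT1 (k + 1) (by omega)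
      simp only at h1 h2 ⊢
      rw [h1, h2]
      exact hR.2 k
    · have h1 := hT2 k (by omega)
      have h2 := hT2 (k + 1) (by omega)
      simp only at h1 h2 ⊢
      rw [h1, h2, show σ + (k + 1 - ρ) = σ + (k - ρ) + 1 by omega]
      exact hS.2 _
  · exact hT1 0 (Nat.zero_le _)

section

variable {α : Type} (it : ℕ → ℕ → α)

/-- The `k`-th item (vertex or edge) of a ray. -/
def item (f : ℕ → ℕ) (k : ℕ) : α := it (f k) (f (k + 1))

/-- Two rays share no item. -/
def Dj (f g : ℕ → ℕ) : Prop := ∀ k k', item it f k ≠ item it g k'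

/-- The properties of items used in the proof. -/
structure ItemOK : Prop where
  inj : ∀ f : ℕ → ℕ, Function.Injective f → Function.Injective (item it f)
  touch : ∀ u v u' v', it u v = it u' v' → u' = u ∨ u' = v
  splice : ∀ (E : ℕ → ℕ → Prop) (R S : ℕ → ℕ) (a b : ℕ), IsRay E R → IsRay E S →
    item it R a = item it S b → ∃ T, IsRay E T ∧ T 0 = R 0 ∧
      (∀ k, (∃ j, j ≤ a ∧ item it T k = item it R j) ∨ (∃ j, b < j ∧ item it T k = item it S j)) ∧
      (∀ k, (∃ j, T k = R j) ∨ ∃ j, T k = S j)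

end

/-- Vertices as items. -/
def itV (u _v : ℕ) : ℕ := u

/-- Directed edges as items. -/
def itE (u v : ℕ) : ℕ × ℕ := (u, v)

/-- Undirected edges as items. -/
def itU (u v : ℕ) : Sym2 ℕ := s(u, v)

lemma okV : ItemOK itV where
  inj := fun f hf => hf
  touch := fun u v u' v' h => Or.inl h.symm
  splice := by
    intro E R S a b hR hS h
    obtain ⟨T, ρ, σ, h1, h2, h3, h4, h5, h6⟩ := splice_gen hR hS (a := a) (b := b) (r := a) le_rfl
      h.symm
    refine ⟨T, h1, h2, fun k => ?_, fun k => ?_⟩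
    · rcases le_or_gt k ρ with hk | hk
      · exact Or.inl ⟨k, by omega, h5 k hk⟩
      · exact Or.inr ⟨σ + (k - ρ), by omega, h6 k (by omega)⟩
    · rcases le_or_gt k ρ with hk | hk
      · exact Or.inl ⟨k, h5 k hk⟩
      · exact Or.inr ⟨_, h6 k (by omega)⟩

lemma splice_edge {α : Type} {it : ℕ → ℕ → α} {E : ℕ → ℕ → Prop} {R S : ℕ → ℕ} {a b : ℕ}
    (hR : IsRay E R) (hS : IsRay E S) (h : S (b + 1) = R a ∨ S (b + 1) = R (a + 1)) :
    ∃ T, IsRay E T ∧ T 0 = R 0 ∧
      (∀ k, (∃ j, j ≤ a ∧ item it T k = item it R j) ∨ (∃ j, b < j ∧ item it T k = item it S j)) ∧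
      (∀ k, (∃ j, T k = R j) ∨ ∃ j, T k = S j) := by
  obtain ⟨r, hr, he⟩ : ∃ r, r ≤ a + 1 ∧ S (b + 1) = R r := by
    rcases h with h | h
    · exact ⟨a, by omega, h⟩
    · exact ⟨a + 1, le_rfl, h⟩
  obtain ⟨T, ρ, σ, h1, h2, h3, h4, h5, h6⟩ := splice_gen hR hS hr he
  refine ⟨T, h1, h2, fun k => ?_, fun k => ?_⟩
  · rcases lt_or_ge k ρ with hk | hk
    · refine Or.inl ⟨k, by omega, ?_⟩
      unfold item
      rw [h5 k (by omega), h5 (k + 1) (by omega)]
    · refine Or.inr ⟨σ + (k - ρ), by omega, ?_⟩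
      unfold item
      rw [h6 k hk, h6 (k + 1) (by omega), show σ + (k + 1 - ρ) = σ + (k - ρ) + 1 by omega]
  · rcases le_or_gt k ρ with hk | hk
    · exact Or.inl ⟨k, h5 k hk⟩
    · exact Or.inr ⟨_, h6 k (by omega)⟩

lemma okE : ItemOK itE where
  inj := fun f hf x y h => hf (congrArg Prod.fst h)
  touch := fun u v u' v' h => Or.inl (congrArg Prod.fst h).symm
  splice := fun E R S a b hR hS h =>
    splice_edge hR hS (Or.inr (congrArg Prod.snd h).symm)

lemma okU : ItemOK itU where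
  inj := by
    intro f hf x y h
    unfold item itU at h
    rw [Sym2.eq_iff] at h
    rcases h with ⟨h, _⟩ | ⟨h, h'⟩
    · exact hf h
    · have := hf h
      have := hf h'
      omega
  touch := by
    intro u v u' v' h
    unfold itU at h
    rw [Sym2.eq_iff] at h
    rcases h with ⟨h, _⟩ | ⟨_, h⟩
    · exact Or.inl h.symm
    · exact Or.inr h.symm
  splice := by
    intro E R S a b hR hS h
    refine splice_edge hR hS ?_
    unfold item itU at h
    rw [Sym2.eq_iff] at h
    rcases h with ⟨_, h⟩ | ⟨h, _⟩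
    · exact Or.inr h.symm
    · exact Or.inl h.symm

/-! ### Augmentation -/

section

variable {α : Type} {it : ℕ → ℕ → α} (n : ℕ) (R S : ℕ → ℕ → ℕ)

variable (it) in
/-- Items visited up to the times `t`. -/
def Vis (t : ℕ → ℕ) (x : α) : Prop := ∃ i < n, ∃ s ≤ t i, x = item it (R i) s

variable (it) in
/-- The current item of `R i` is the last visited one on some `S j`. -/
def Acc (t : ℕ → ℕ) (i : ℕ) : Prop :=
  ∃ j ≤ n, ∃ τ, item it (R i) (t i) = item it (S j) τ ∧ ∀ τ', τ < τ' →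
    ¬ Vis it n R t (item it (S j) τ')

open Classical in
variable (it) in
/-- The times of the process. -/
noncomputable def tm : ℕ → ℕ → ℕ
  | 0 => fun _ => 0
  | m + 1 => fun i => if Acc it n R S (tm m) i then tm m i else tm m i + 1

lemma tm_cases (m i : ℕ) :
    (Acc it n R S (tm it n R S m) i ∧ tm it n R S (m + 1) i = tm it n R S m i) ∨
    (¬ Acc it n R S (tm it n R S m) i ∧ tm it n R S (m + 1) i = tm it n R S m i + 1) := by
  classical
  by_cases h : Acc it n R S (tm it n R S m) i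
  · exact Or.inl ⟨h, if_pos h⟩
  · exact Or.inr ⟨h, if_neg h⟩

lemma tm_le_succ (m i : ℕ) : tm it n R S m i ≤ tm it n R S (m + 1) i := by
  rcases tm_cases (it := it) n R S m i with ⟨_, h⟩ | ⟨_, h⟩ <;> omega

lemma tm_mono {m m' : ℕ} (h : m ≤ m') (i : ℕ) : tm it n R S m i ≤ tm it n R S m' i := by
  obtain ⟨d, rfl⟩ := Nat.exists_eq_add_of_le h
  induction d with
  | zero => exact le_rfl
  | succ d ih => exact (ih (by omega)).trans (tm_le_succ n R S (m + d) i)

lemma tm_adv {m i : ℕ} (h : tm it n R S (m + 1) i ≠ tm it n R S m i) :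
    ¬ Acc it n R S (tm it n R S m) i := by
  rcases tm_cases (it := it) n R S m i with ⟨_, h'⟩ | ⟨h', _⟩
  · exact absurd h' h
  · exact h'

lemma tm_acc {m i : ℕ} (h : tm it n R S (m + 1) i = tm it n R S m i) :
    Acc it n R S (tm it n R S m) i := by
  rcases tm_cases (it := it) n R S m i with ⟨h', _⟩ | ⟨_, h'⟩
  · exact h'
  · omega

lemma vis_mono {m m' : ℕ} (h : m ≤ m') {x : α} (hx : Vis it n R (tm it n R S m) x) :
    Vis it n R (tm it n R S m') x := by
  obtain ⟨i, hi, s, hs, hx⟩ := hx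
  exact ⟨i, hi, s, hs.trans (tm_mono n R S h i), hx⟩

/-- If the process has passed `s` on `R i`, it left `s` at some time. -/
lemma passed {m i s : ℕ} (h : s < tm it n R S m i) :
    ∃ m' < m, tm it n R S m' i = s ∧ ¬ Acc it n R S (tm it n R S m') i := by
  induction m with
  | zero => exact absurd h (by simp [tm])
  | succ m ih =>
    rcases lt_or_ge s (tm it n R S m i) with h1 | h1
    · obtain ⟨m', h2, h3⟩ := ih h1
      exact ⟨m', by omega, h3⟩
    · have h2 : tm it n R S (m + 1) i ≤ tm it n R S m i + 1 := by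
        rcases tm_cases (it := it) n R S m i with ⟨_, h'⟩ | ⟨_, h'⟩ <;> omega
      refine ⟨m, by omega, by omega, tm_adv n R S (by omega)⟩

variable {R S}

lemma vis_bound (hok : ItemOK it) (hS : ∀ j ≤ n, Function.Injective (S j)) (t : ℕ → ℕ) {j : ℕ}
    (hj : j ≤ n) : ∃ B, ∀ τ, B ≤ τ → ¬ Vis it n R t (item it (S j) τ) := by
  classical
  have hfin : ({x | Vis it n R t x} : Set α).Finite := by
    have : {x | Vis it n R t x} ⊆
        ⋃ i ∈ Finset.range n, (fun s => item it (R i) s) '' (Finset.range (t i + 1) : Set ℕ) := by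
      rintro x ⟨i, hi, s, hs, rfl⟩
      simp only [Set.mem_iUnion]
      exact ⟨i, Finset.mem_range.2 hi, s, by simpa using Nat.lt_succ_iff.2 hs, rfl⟩
    refine Set.Finite.subset ?_ this
    exact Set.Finite.biUnion (Finset.range n).finite_toSet
      fun i _ => (Finset.finite_toSet _).image _
  have h2 : (item it (S j) ⁻¹' {x | Vis it n R t x}).Finite :=
    hfin.preimage (hok.inj _ (hS j hj)).injOn
  obtain ⟨B, hB⟩ := h2.bddAbove
  refine ⟨B + 1, fun k hk hm => ?_⟩
  have := hB (show k ∈ item it (S j) ⁻¹' {x | Vis it n R t x} from hm)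
  omega

/-- Every visited `S j` has a holder. -/
lemma holder (hok : ItemOK it) (hS : ∀ j ≤ n, Function.Injective (S j)) (m : ℕ) {j : ℕ}
    (hj : j ≤ n) (hv : ∃ τ, Vis it n R (tm it n R S m) (item it (S j) τ)) :
    ∃ i < n, ∃ τ, item it (R i) (tm it n R S m i) = item it (S j) τ := by
  obtain ⟨τ, hτ, hl⟩ := exists_last hv (vis_bound n hok hS _ hj)
  obtain ⟨i, hi, s, hs, he⟩ := hτ
  rcases hs.eq_or_lt with rfl | hlt
  · exact ⟨i, hi, τ, he.symm⟩
  · obtain ⟨m', hm', hs', hacc⟩ := passed n R S hlt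
    exfalso
    apply hacc
    refine ⟨j, hj, τ, by rw [hs', he], fun τ' hτ' hvis => hl τ' hτ' ?_⟩
    exact vis_mono n R S hm'.le hvis

/-- Some `S j` is never visited. -/
lemma unvisited (hok : ItemOK it) (hS : ∀ j ≤ n, Function.Injective (S j))
    (hSd : ∀ j ≤ n, ∀ j' ≤ n, j ≠ j' → Dj it (S j) (S j')) :
    ∃ j ≤ n, ∀ m τ, ¬ Vis it n R (tm it n R S m) (item it (S j) τ) := by
  by_contra hcon
  push Not at hcon
  choose! f g hg using hcon
  set M := (Finset.range (n + 1)).sup f with hM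
  have hf : ∀ j ≤ n, f j ≤ M := fun j hj => Finset.le_sup (Finset.mem_range.2 (by omega))
  have h1 : ∀ j ≤ n, ∃ i < n, ∃ τ, item it (R i) (tm it n R S M i) = item it (S j) τ := by
    intro j hj
    exact holder n hok hS M hj ⟨g j, vis_mono n R S (hf j hj) (hg j hj)⟩
  choose! h hh using h1
  obtain ⟨x, hx, y, hy, hxy, he⟩ := Finset.exists_ne_map_eq_of_card_lt_of_maps_to
    (s := Finset.range (n + 1)) (t := Finset.range n) (f := h) (by simp)
    (fun j hj => by
      have hj' : j ≤ n := by have := Finset.mem_range.1 (Finset.mem_coe.1 hj); omega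
      exact Finset.mem_coe.2 (Finset.mem_range.2 (hh j hj').1))
  have hx' : x ≤ n := by have := Finset.mem_range.1 hx; omega
  have hy' : y ≤ n := by have := Finset.mem_range.1 hy; omega
  obtain ⟨τ, hτ⟩ := (hh x hx').2
  obtain ⟨τ', hτ'⟩ := (hh y hy').2
  rw [he] at hτ
  exact hSd x hx' y hy' hxy τ τ' (hτ.symm.trans hτ')

/-- Items visited at some time. -/
def VisA (it : ℕ → ℕ → α) (n : ℕ) (R S : ℕ → ℕ → ℕ) (x : α) : Prop :=
  ∃ m, Vis it n R (tm it n R S m) x

/-- Behaviour of the process on one ray. -/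
lemma one_ray (hok : ItemOK it) (hS : ∀ j ≤ n, Function.Injective (S j))
    (hSd : ∀ j ≤ n, ∀ j' ≤ n, j ≠ j' → Dj it (S j) (S j')) {i : ℕ} (hi : i < n) :
    (∀ s, VisA it n R S (item it (R i) s)) ∨
    (∃ a j τ, j ≤ n ∧ item it (R i) a = item it (S j) τ ∧
      (∀ s ≤ a, VisA it n R S (item it (R i) s)) ∧
      ∀ τ', τ < τ' → ¬ VisA it n R S (item it (S j) τ')) := by
  by_cases hb : ∃ B, ∀ m, tm it n R S m i ≤ B
  · right
    obtain ⟨B, hB⟩ := hb
    have hex : ∃ m0, ∀ m, tm it n R S m i ≤ tm it n R S m0 i := by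
      obtain ⟨v, ⟨m0, rfl⟩, hv⟩ := exists_last (p := fun v => ∃ m, tm it n R S m i = v)
        ⟨_, 0, rfl⟩ ⟨B + 1, fun k hk ⟨m, hm⟩ => by have := hB m; omega⟩
      refine ⟨m0, fun m => ?_⟩
      by_contra hlt
      exact hv _ (by omega) ⟨m, rfl⟩
    obtain ⟨m0, hm0⟩ := hex
    have hconst : ∀ m, m0 ≤ m → tm it n R S m i = tm it n R S m0 i :=
      fun m hm => le_antisymm (hm0 m) (tm_mono n R S hm i)
    obtain ⟨j, hj, τ, he, hl⟩ := tm_acc n R S
      ((hconst (m0 + 1) (by omega)).trans (hconst m0 le_rfl).symm)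
    refine ⟨tm it n R S m0 i, j, τ, hj, he, fun s hs => ⟨m0, i, hi, s, hs, rfl⟩, ?_⟩
    rintro τ' hτ' ⟨m, hm⟩
    have hm1 := vis_mono n R S (le_max_left m m0) hm
    have hM : m0 ≤ max m m0 := le_max_right _ _
    obtain ⟨j', hj', τ1, he', hl'⟩ := tm_acc n R S (m := max m m0) (i := i)
      ((hconst (max m m0 + 1) (by omega)).trans (hconst _ hM).symm)
    rw [hconst _ hM] at he'
    have hjj : j' = j := by
      by_contra hne
      exact hSd j' hj' j hj hne τ1 τ (he'.symm.trans he)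
    subst hjj
    have hττ : τ1 = τ := hok.inj _ (hS j' hj') (he'.symm.trans he)
    subst hττ
    exact hl' τ' hτ' hm1
  · left
    push Not at hb
    intro s
    obtain ⟨m, hm⟩ := hb s
    exact ⟨m, i, hi, s, hm.le, rfl⟩

/-- Augmentation of a family of `n` disjoint rays using `n + 1` disjoint rays. -/
lemma augment {E : ℕ → ℕ → Prop} (hok : ItemOK it) (hR : ∀ i < n, IsRay E (R i))
    (hRd : ∀ i < n, ∀ i' < n, i ≠ i' → Dj it (R i) (R i')) (hS : ∀ j ≤ n, IsRay E (S j))
    (hSd : ∀ j ≤ n, ∀ j' ≤ n, j ≠ j' → Dj it (S j) (S j')) :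
    ∃ (T : ℕ → ℕ → ℕ) (j0 : ℕ), j0 ≤ n ∧
      (∀ i < n, IsRay E (T i) ∧ T i 0 = R i 0 ∧
        (∀ k, (∃ j, T i k = R i j) ∨ ∃ j ≤ n, ∃ j', T i k = S j j') ∧
        (∀ k, (∃ j, item it (T i) k = item it (R i) j) ∨
          ∃ j ≤ n, ∃ j', item it (T i) k = item it (S j) j')) ∧
      (∀ i < n, ∀ i' < n, i ≠ i' → Dj it (T i) (T i')) ∧ (∀ i < n, Dj it (T i) (S j0)) := by
  have hSi : ∀ j ≤ n, Function.Injective (S j) := fun j hj => (hS j hj).1
  -- the rays with a description of their items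
  have hT : ∀ i, i < n → ∃ T, IsRay E T ∧ T 0 = R i 0 ∧
      (∀ k, (∃ j, T k = R i j) ∨ ∃ j ≤ n, ∃ j', T k = S j j') ∧
      ((∀ k, ∃ j, item it T k = item it (R i) j ∧ VisA it n R S (item it (R i) j)) ∨
        ∃ a j τ, j ≤ n ∧ item it (R i) a = item it (S j) τ ∧
          VisA it n R S (item it (S j) τ) ∧
          (∀ τ', τ < τ' → ¬ VisA it n R S (item it (S j) τ')) ∧
          (∀ k, (∃ j, item it T k = item it (R i) j ∧ VisA it n R S (item it (R i) j)) ∨
            ∃ τ', τ < τ' ∧ item it T k = item it (S j) τ')) := by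
    intro i hi
    rcases one_ray n hok hSi hSd hi with h | ⟨a, j, τ, hj, he, h1, h2⟩
    · exact ⟨R i, hR i hi, rfl, fun k => Or.inl ⟨k, rfl⟩, Or.inl fun k => ⟨k, rfl, h k⟩⟩
    · obtain ⟨T, t1, t2, t3, t4⟩ := hok.splice E (R i) (S j) a τ (hR i hi) (hS j hj) he
      refine ⟨T, t1, t2, fun k => ?_, Or.inr ⟨a, j, τ, hj, he, ?_, h2, fun k => ?_⟩⟩
      · rcases t4 k with ⟨j', h⟩ | ⟨j', h⟩
        · exact Or.inl ⟨j', h⟩
        · exact Or.inr ⟨j, hj, j', h⟩
      · rw [← he]
        exact h1 a le_rfl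
      · rcases t3 k with ⟨j', hj', h⟩ | ⟨j', hj', h⟩
        · exact Or.inl ⟨j', h, h1 j' hj'⟩
        · exact Or.inr ⟨j', hj', h⟩
  choose! T hT1 hT2 hT3 hT4 using hT
  obtain ⟨j0, hj0, hun⟩ := unvisited n (R := R) hok hSi hSd
  refine ⟨T, j0, hj0, fun i hi => ⟨hT1 i hi, hT2 i hi, hT3 i hi, fun k => ?_⟩, ?_, ?_⟩
  · rcases hT4 i hi with h | ⟨a, j, τ, hj, he, h1, h2, h3⟩
    · obtain ⟨j, h, _⟩ := h k
      exact Or.inl ⟨j, h⟩
    · rcases h3 k with ⟨j', h, _⟩ | ⟨τ', _, h⟩
      · exact Or.inl ⟨j', h⟩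
      · exact Or.inr ⟨j, hj, τ', h⟩
  · -- description of an item
    have desc : ∀ i < n, ∀ k, (∃ j, item it (T i) k = item it (R i) j ∧
        VisA it n R S (item it (T i) k)) ∨ (∃ a j τ τ', j ≤ n ∧ item it (R i) a = item it (S j) τ ∧
          VisA it n R S (item it (S j) τ) ∧
          (∀ τ', τ < τ' → ¬ VisA it n R S (item it (S j) τ')) ∧ τ < τ' ∧
          item it (T i) k = item it (S j) τ') := by
      intro i hi k
      rcases hT4 i hi with h | ⟨a, j, τ, hj, he, h1, h2, h3⟩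
      · obtain ⟨j, h, h'⟩ := h k
        exact Or.inl ⟨j, h, by rw [h]; exact h'⟩
      · rcases h3 k with ⟨j', h, h'⟩ | ⟨τ', hτ', h⟩
        · exact Or.inl ⟨j', h, by rw [h]; exact h'⟩
        · exact Or.inr ⟨a, j, τ, τ', hj, he, h1, h2, hτ', h⟩
    intro i hi i' hi' hne k k' heq
    rcases desc i hi k with ⟨j, h, hv⟩ | ⟨a, j, τ, τ1, hj, he, h1, h2, hτ, h⟩
    · rcases desc i' hi' k' with ⟨j', h', hv'⟩ | ⟨a', j', τ', τ2, hj', he', h1', h2', hτ', h'⟩
      · exact hRd i hi i' hi' hne j j' (by rw [← h, ← h', heq])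
      · exact h2' τ2 hτ' (by rw [← h', ← heq]; exact hv)
    · rcases desc i' hi' k' with ⟨j', h', hv'⟩ | ⟨a', j', τ', τ2, hj', he', h1', h2', hτ', h'⟩
      · exact h2 τ1 hτ (by rw [← h, heq]; exact hv')
      · have hjj : j = j' := by
          by_contra hne'
          exact hSd j hj j' hj' hne' τ1 τ2 (by rw [← h, ← h', heq])
        subst hjj
        have hττ : τ = τ' := by
          by_contra hne'
          rcases lt_or_gt_of_ne hne' with hlt | hlt
          · exact h2 τ' hlt h1'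
          · exact h2' τ hlt h1
        subst hττ
        exact hRd i hi i' hi' hne a a' (he.trans he'.symm)
  · intro i hi k k' heq
    rcases hT4 i hi with h | ⟨a, j, τ, hj, he, h1, h2, h3⟩
    · obtain ⟨j, h, m, hm⟩ := h k
      exact hun m k' (by rw [← heq, h]; exact hm)
    · rcases h3 k with ⟨j', h, m, hm⟩ | ⟨τ', _, h⟩
      · exact hun m k' (by rw [← heq, h]; exact hm)
      · have hne : j ≠ j0 := by
          rintro rfl
          obtain ⟨m, hm⟩ := h1
          exact hun m τ hm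
        exact hSd j hj j0 hj0 hne τ' k' (by rw [← h, heq])

end

/-- A family of `n` pairwise disjoint rays. -/
def Fam {α : Type} (it : ℕ → ℕ → α) (E : ℕ → ℕ → Prop) (n : ℕ) (R : ℕ → ℕ → ℕ) : Prop :=
  (∀ i < n, IsRay E (R i)) ∧ ∀ i < n, ∀ i' < n, i ≠ i' → Dj it (R i) (R i')

/-- One step of the construction of infinitely many disjoint rays. -/
lemma extend {α : Type} {it : ℕ → ℕ → α} (hok : ItemOK it) {E : ℕ → ℕ → Prop}
    (H : ∀ n, ∃ R, Fam it E n R) {n : ℕ} {R : ℕ → ℕ → ℕ} (hR : Fam it E n R) :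
    ∃ R', Fam it E (n + 1) R' ∧ ∀ i < n, ∀ k ≤ n, R' i k = R i k := by
  classical
  obtain ⟨S0, hS0⟩ := H (n + 1)
  set F : Finset ℕ := (Finset.range n).biUnion (fun i => (Finset.range (n + 2)).image (R i)) with hF
  have hFmem : ∀ i < n, ∀ k ≤ n + 1, R i k ∈ F := by
    intro i hi k hk
    rw [hF, Finset.mem_biUnion]
    exact ⟨i, Finset.mem_range.2 hi, Finset.mem_image_of_mem _ (Finset.mem_range.2 (by omega))⟩
  have hB : ∀ j, j < n + 1 → ∃ B, ∀ k, B ≤ k → S0 j k ∉ F := fun j hj =>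
    finite_hits (hS0.1 j hj).1 F
  choose! B hB using hB
  set S : ℕ → ℕ → ℕ := fun j k => S0 j (B j + k) with hSdef
  have hSF : ∀ j ≤ n, ∀ k, S j k ∉ F := fun j hj k => hB j (by omega) _ (by omega)
  have hS : ∀ j ≤ n, IsRay E (S j) := by
    intro j hj
    obtain ⟨h1, h2⟩ := hS0.1 j (by omega)
    refine ⟨fun x y hxy => ?_, fun k => ?_⟩
    · have := h1 hxy
      omega
    · exact h2 (B j + k)
  have hitS : ∀ j k, item it (S j) k = item it (S0 j) (B j + k) := fun j k => rfl
  have hSd : ∀ j ≤ n, ∀ j' ≤ n, j ≠ j' → Dj it (S j) (S j') := by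
    intro j hj j' hj' hne k k'
    rw [hitS, hitS]
    exact hS0.2 j (by omega) j' (by omega) hne _ _
  set R1 : ℕ → ℕ → ℕ := fun i k => R i (n + k) with hR1def
  have hR1 : ∀ i < n, IsRay E (R1 i) := by
    intro i hi
    obtain ⟨h1, h2⟩ := hR.1 i hi
    refine ⟨fun x y hxy => ?_, fun k => ?_⟩
    · have := h1 hxy
      omega
    · exact h2 (n + k)
  have hitR : ∀ i k, item it (R1 i) k = item it (R i) (n + k) := fun i k => rfl
  have hR1d : ∀ i < n, ∀ i' < n, i ≠ i' → Dj it (R1 i) (R1 i') := by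
    intro i hi i' hi' hne k k'
    rw [hitR, hitR]
    exact hR.2 i hi i' hi' hne _ _
  obtain ⟨T, j0, hj0, hT, hTd, hTS⟩ := augment n hok hR1 hR1d hS hSd
  set R' : ℕ → ℕ → ℕ := fun i k => if i < n then (if k < n then R i k else T i (k - n))
    else S j0 k with hR'def
  have hT0 : ∀ i < n, T i 0 = R i n := fun i hi => (hT i hi).2.1
  have hRa : ∀ i < n, ∀ k ≤ n, R' i k = R i k := by
    intro i hi k hk
    simp only [hR'def]
    rw [if_pos hi]
    rcases hk.eq_or_lt with rfl | hlt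
    · rw [if_neg (lt_irrefl _), Nat.sub_self, hT0 i hi]
    · rw [if_pos hlt]
  have hRb : ∀ i < n, ∀ k, n ≤ k → R' i k = T i (k - n) := by
    intro i hi k hk
    simp only [hR'def]
    rw [if_pos hi, if_neg (by omega)]
  have hRc : ∀ k, R' n k = S j0 k := by
    intro k
    simp only [hR'def]
    rw [if_neg (lt_irrefl _)]
  have hia : ∀ i < n, ∀ k < n, item it (R' i) k = item it (R i) k := by
    intro i hi k hk
    unfold item
    rw [hRa i hi k (by omega), hRa i hi (k + 1) (by omega)]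
  have hib : ∀ i < n, ∀ k, n ≤ k → item it (R' i) k = item it (T i) (k - n) := by
    intro i hi k hk
    unfold item
    rw [hRb i hi k hk, hRb i hi (k + 1) (by omega), show k + 1 - n = k - n + 1 by omega]
  have hic : ∀ k, item it (R' n) k = item it (S j0) k := by
    intro k
    unfold item
    rw [hRc, hRc]
  -- items of initial segments are no items of the `S j`
  have hRS : ∀ i < n, ∀ k < n, ∀ j ≤ n, ∀ k', item it (R i) k ≠ item it (S j) k' := by
    intro i hi k hk j hj k' he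
    rcases hok.touch _ _ _ _ he with h | h
    · exact hSF j hj k' (by rw [h]; exact hFmem i hi k (by omega))
    · exact hSF j hj k' (by rw [h]; exact hFmem i hi (k + 1) (by omega))
  have key : ∀ i < n, ∀ i' < n, i ≠ i' → ∀ k < n, ∀ k', n ≤ k' →
      item it (R' i) k ≠ item it (R' i') k' := by
    intro i hi i' hi' hne k hk k' hk' he
    rw [hia i hi k hk, hib i' hi' k' hk'] at he
    rcases (hT i' hi').2.2.2 (k' - n) with ⟨j, h⟩ | ⟨j, hj, j', h⟩
    · rw [h, hitR] at he
      exact hR.2 i hi i' hi' hne _ _ he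
    · rw [h] at he
      exact hRS i hi k hk j hj j' he
  have keyS : ∀ i < n, ∀ k k', item it (R' i) k ≠ item it (S j0) k' := by
    intro i hi k k' he
    rcases lt_or_ge k n with hk | hk
    · rw [hia i hi k hk] at he
      exact hRS i hi k hk j0 hj0 k' he
    · rw [hib i hi k hk] at he
      exact hTS i hi _ _ he
  refine ⟨R', ⟨?_, ?_⟩, hRa⟩
  · intro i hi
    rcases Nat.lt_succ_iff_lt_or_eq.1 hi with hi' | rfl
    · constructor
      · have kk : ∀ x y, x < n → n ≤ y → R' i x ≠ R' i y := by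
          intro x y hx hy he
          rw [hRa i hi' x (by omega), hRb i hi' y hy] at he
          rcases (hT i hi').2.2.1 (y - n) with ⟨j, h⟩ | ⟨j, hj, j', h⟩
          · rw [h] at he
            have := (hR.1 i hi').1 he
            omega
          · rw [h] at he
            exact hSF j hj j' (by rw [← he]; exact hFmem i hi' x (by omega))
        intro x y hxy
        rcases lt_or_ge x n with hx | hx <;> rcases lt_or_ge y n with hy | hy
        · rw [hRa i hi' x (by omega), hRa i hi' y (by omega)] at hxy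
          exact (hR.1 i hi').1 hxy
        · exact absurd hxy (kk x y hx hy)
        · exact absurd hxy.symm (kk y x hy hx)
        · rw [hRb i hi' x hx, hRb i hi' y hy] at hxy
          have := (hT i hi').1.1 hxy
          omega
      · intro k
        rcases lt_or_ge k n with hk | hk
        · rw [hRa i hi' k (by omega), hRa i hi' (k + 1) (by omega)]
          exact (hR.1 i hi').2 k
        · rw [hRb i hi' k hk, hRb i hi' (k + 1) (by omega), show k + 1 - n = k - n + 1 by omega]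
          exact (hT i hi').1.2 _
    · have : R' i = S j0 := funext hRc
      rw [this]
      exact hS j0 hj0
  · intro i hi i' hi' hne k k'
    rcases Nat.lt_succ_iff_lt_or_eq.1 hi with h1 | rfl
    · rcases Nat.lt_succ_iff_lt_or_eq.1 hi' with h2 | rfl
      · rcases lt_or_ge k n with hk | hk <;> rcases lt_or_ge k' n with hk' | hk'
        · rw [hia i h1 k hk, hia i' h2 k' hk']
          exact hR.2 i h1 i' h2 hne _ _
        · exact key i h1 i' h2 hne k hk k' hk'
        · exact (key i' h2 i h1 (Ne.symm hne) k' hk' k hk).symm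
        · rw [hib i h1 k hk, hib i' h2 k' hk']
          exact hTd i h1 i' h2 hne _ _
      · rw [hic]
        exact keyS i h1 k k'
    · rcases Nat.lt_succ_iff_lt_or_eq.1 hi' with h2 | rfl
      · rw [hic]
        exact (keyS i' h2 k' k).symm
      · exact absurd rfl hne

/-- Halin's ray theorem, for every kind of items. -/
theorem halin {α : Type} {it : ℕ → ℕ → α} (hok : ItemOK it) {E : ℕ → ℕ → Prop}
    (H : ∀ n, ∃ R, Fam it E n R) :
    ∃ R : ℕ → ℕ → ℕ, (∀ i, IsRay E (R i)) ∧ ∀ i i', i ≠ i' → Dj it (R i) (R i') := by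
  choose! f hf1 hf2 using fun (n : ℕ) (R : ℕ → ℕ → ℕ) (h : Fam it E n R) => extend hok H h
  -- the sequence of families
  let X : ℕ → ℕ → ℕ → ℕ := fun n => Nat.rec (fun _ _ => 0) (fun n R => f n R) n
  have hX : ∀ n, Fam it E n (X n) := by
    intro n
    induction n with
    | zero => exact ⟨fun i hi => absurd hi (by omega), fun i hi => absurd hi (by omega)⟩
    | succ n ih => exact hf1 n (X n) ih
  have hXs : ∀ n, ∀ i < n, ∀ k ≤ n, X (n + 1) i k = X n i k := fun n => hf2 n (X n) (hX n)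
  have hc : ∀ i k d, X (i + 1 + k + d) i k = X (i + 1 + k) i k := by
    intro i k d
    induction d with
    | zero => rfl
    | succ d ih =>
      rw [← add_assoc, hXs _ i (by omega) k (by omega), ih]
  have hlim : ∀ i k n, i + 1 + k ≤ n → X n i k = X (i + 1 + k) i k := by
    intro i k n hn
    obtain ⟨d, rfl⟩ := Nat.exists_eq_add_of_le hn
    exact hc i k d
  refine ⟨fun i k => X (i + 1 + k) i k, fun i => ⟨fun x y hxy => ?_, fun k => ?_⟩, ?_⟩
  · simp only at hxy
    rw [← hlim i x (i + 1 + x + y) (by omega), ← hlim i y (i + 1 + x + y) (by omega)] at hxy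
    exact ((hX (i + 1 + x + y)).1 i (by omega)).1 hxy
  · simp only
    rw [← hlim i k (i + 1 + (k + 1)) (by omega)]
    exact ((hX (i + 1 + (k + 1))).1 i (by omega)).2 k
  · intro i i' hne k k'
    unfold item
    simp only
    set n := i + i' + k + k' + 3 with hn
    rw [← hlim i k n (by omega), ← hlim i (k + 1) n (by omega), ← hlim i' k' n (by omega),
      ← hlim i' (k' + 1) n (by omega)]
    exact (hX n).2 i (by omega) i' (by omega) hne k k'

end Pool.Agent.H4.Ray
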