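import Mathlib

/-!
The language of second-order arithmetic, its (general) models, the theories RCA₀, IΣ¹₁ and Z₂,
and the eight infinite ray theorems as sentences of this language.

Variables are de Bruijn indices: there are two kinds of variables (numbers and sets), and index `0`
of each kind refers to the innermost quantifier of that kind.
-/

namespace Pool.Agent.H4.L2

/-- Numerical terms. -/
inductive Tm
  | var (n : ℕ)
  | zero
  | one
  | add (s t : Tm)
  | mul (s t : Tm)

/-- Formulas; `all`, `ex` quantify over numbers, `allS`, `exS` over sets. -/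
inductive Fm
  | eq (s t : Tm)
  | lt (s t : Tm)
  | mem (t : Tm) (X : ℕ)
  | not (φ : Fm)
  | and (φ ψ : Fm)
  | or (φ ψ : Fm)
  | imp (φ ψ : Fm)
  | all (φ : Fm)
  | ex (φ : Fm)
  | allS (φ : Fm)
  | exS (φ : Fm)

/-- Equivalence of two formulas. -/
def Fm.iff (φ ψ : Fm) : Fm := .and (.imp φ ψ) (.imp ψ φ)

/-! ### Models -/

/-- Structures for the language: a first-order part `N` and a nonempty collection `S` of subsets
of `N` as the range of the set variables. -/
structure Str where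
  N : Type
  S : Set (Set N)
  ne : S.Nonempty
  zero : N
  one : N
  add : N → N → N
  mul : N → N → N
  lt : N → N → Prop

/-- Extend an assignment by a value for the innermost variable. -/
def cons {α : Type} (a : α) (v : ℕ → α) : ℕ → α
  | 0 => a
  | n + 1 => v n

/-- Value of a term. -/
def Tm.val (M : Str) (v : ℕ → M.N) : Tm → M.N
  | .var n => v n
  | .zero => M.zero
  | .one => M.one
  | .add s t => M.add (s.val M v) (t.val M v)
  | .mul s t => M.mul (s.val M v) (t.val M v)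

/-- Satisfaction of a formula under an assignment. -/
def Sat (M : Str) : (ℕ → M.N) → (ℕ → Set M.N) → Fm → Prop
  | v, _, .eq s t => s.val M v = t.val M v
  | v, _, .lt s t => M.lt (s.val M v) (t.val M v)
  | v, V, .mem t X => t.val M v ∈ V X
  | v, V, .not φ => ¬ Sat M v V φ
  | v, V, .and φ ψ => Sat M v V φ ∧ Sat M v V ψ
  | v, V, .or φ ψ => Sat M v V φ ∨ Sat M v V ψ
  | v, V, .imp φ ψ => Sat M v V φ → Sat M v V ψ
  | v, V, .all φ => ∀ a : M.N, Sat M (cons a v) V φ
  | v, V, .ex φ => ∃ a : M.N, Sat M (cons a v) V φ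
  | v, V, .allS φ => ∀ A ∈ M.S, Sat M v (cons A V) φ
  | v, V, .exS φ => ∃ A ∈ M.S, Sat M v (cons A V) φ

/-- `M` satisfies (the universal closure of) `φ`. -/
def Valid (M : Str) (φ : Fm) : Prop :=
  ∀ (v : ℕ → M.N) (V : ℕ → Set M.N), (∀ n, V n ∈ M.S) → Sat M v V φ

/-- `T` entails `φ`: every model of `T` satisfies `φ`. By the completeness theorem this is the same
as provability of `φ` from `T`. -/
def Entails (T : Set Fm) (φ : Fm) : Prop :=
  ∀ M : Str, (∀ ψ ∈ T, Valid M ψ) → Valid M φ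

/-! ### Substitution -/

/-- Shift the variables of a term past one new quantifier. -/
def Tm.lift : Tm → Tm
  | .var n => .var (n + 1)
  | .zero => .zero
  | .one => .one
  | .add s t => .add s.lift t.lift
  | .mul s t => .mul s.lift t.lift

/-- Simultaneous substitution in a term. -/
def Tm.sub (σ : ℕ → Tm) : Tm → Tm
  | .var n => σ n
  | .zero => .zero
  | .one => .one
  | .add s t => .add (s.sub σ) (t.sub σ)
  | .mul s t => .mul (s.sub σ) (t.sub σ)

/-- A substitution under one number quantifier. -/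
def up (σ : ℕ → Tm) : ℕ → Tm
  | 0 => .var 0
  | n + 1 => (σ n).lift

/-- Simultaneous substitution of terms for the number variables. -/
def Fm.subst : (ℕ → Tm) → Fm → Fm
  | σ, .eq s t => .eq (s.sub σ) (t.sub σ)
  | σ, .lt s t => .lt (s.sub σ) (t.sub σ)
  | σ, .mem t X => .mem (t.sub σ) X
  | σ, .not φ => .not (φ.subst σ)
  | σ, .and φ ψ => .and (φ.subst σ) (ψ.subst σ)
  | σ, .or φ ψ => .or (φ.subst σ) (ψ.subst σ)
  | σ, .imp φ ψ => .imp (φ.subst σ) (ψ.subst σ)
  | σ, .all φ => .all (φ.subst (up σ))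
  | σ, .ex φ => .ex (φ.subst (up σ))
  | σ, .allS φ => .allS (φ.subst σ)
  | σ, .exS φ => .exS (φ.subst σ)

/-- A renaming of set variables under one set quantifier. -/
def upS (ρ : ℕ → ℕ) : ℕ → ℕ
  | 0 => 0
  | n + 1 => ρ n + 1

/-- Renaming of the set variables. -/
def Fm.ren : (ℕ → ℕ) → Fm → Fm
  | _, .eq s t => .eq s t
  | _, .lt s t => .lt s t
  | ρ, .mem t X => .mem t (ρ X)
  | ρ, .not φ => .not (φ.ren ρ)
  | ρ, .and φ ψ => .and (φ.ren ρ) (ψ.ren ρ)
  | ρ, .or φ ψ => .or (φ.ren ρ) (ψ.ren ρ)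
  | ρ, .imp φ ψ => .imp (φ.ren ρ) (ψ.ren ρ)
  | ρ, .all φ => .all (φ.ren ρ)
  | ρ, .ex φ => .ex (φ.ren ρ)
  | ρ, .allS φ => .allS (φ.ren (upS ρ))
  | ρ, .exS φ => .exS (φ.ren (upS ρ))

/-- Shift the set variables past one new set quantifier. -/
def Fm.liftS (φ : Fm) : Fm := φ.ren (fun n => n + 1)

/-! ### Classes of formulas -/

/-- Bounded (Δ⁰₀) formulas. -/
inductive Delta0 : Fm → Prop
  | eq (s t : Tm) : Delta0 (.eq s t)
  | lt (s t : Tm) : Delta0 (.lt s t)
  | mem (t : Tm) (X : ℕ) : Delta0 (.mem t X)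
  | not {φ : Fm} : Delta0 φ → Delta0 (.not φ)
  | and {φ ψ : Fm} : Delta0 φ → Delta0 ψ → Delta0 (.and φ ψ)
  | or {φ ψ : Fm} : Delta0 φ → Delta0 ψ → Delta0 (.or φ ψ)
  | imp {φ ψ : Fm} : Delta0 φ → Delta0 ψ → Delta0 (.imp φ ψ)
  | ball (t : Tm) {φ : Fm} : Delta0 φ → Delta0 (.all (.imp (.lt (.var 0) t.lift) φ))
  | bex (t : Tm) {φ : Fm} : Delta0 φ → Delta0 (.ex (.and (.lt (.var 0) t.lift) φ))

/-- Σ⁰₁ formulas. -/
def Sigma01 (φ : Fm) : Prop := ∃ θ, Delta0 θ ∧ φ = .ex θ

/-- Π⁰₁ formulas. -/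
def Pi01 (φ : Fm) : Prop := ∃ θ, Delta0 θ ∧ φ = .all θ

/-- Arithmetical formulas (no set quantifiers). -/
inductive Arith : Fm → Prop
  | eq (s t : Tm) : Arith (.eq s t)
  | lt (s t : Tm) : Arith (.lt s t)
  | mem (t : Tm) (X : ℕ) : Arith (.mem t X)
  | not {φ : Fm} : Arith φ → Arith (.not φ)
  | and {φ ψ : Fm} : Arith φ → Arith ψ → Arith (.and φ ψ)
  | or {φ ψ : Fm} : Arith φ → Arith ψ → Arith (.or φ ψ)
  | imp {φ ψ : Fm} : Arith φ → Arith ψ → Arith (.imp φ ψ)
  | all {φ : Fm} : Arith φ → Arith (.all φ)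
  | ex {φ : Fm} : Arith φ → Arith (.ex φ)

/-- Σ¹₁ formulas. -/
def Sigma11 (φ : Fm) : Prop := ∃ θ, Arith θ ∧ φ = .exS θ

/-! ### Axioms -/

/-- The basic axioms. -/
inductive Basic : Fm → Prop
  | succ_ne : Basic (.all (.not (.eq (.add (.var 0) .one) .zero)))
  | succ_inj : Basic (.all (.all (.imp (.eq (.add (.var 1) .one) (.add (.var 0) .one))
      (.eq (.var 1) (.var 0)))))
  | add_zero : Basic (.all (.eq (.add (.var 0) .zero) (.var 0)))
  | add_succ : Basic (.all (.all (.eq (.add (.var 1) (.add (.var 0) .one))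
      (.add (.add (.var 1) (.var 0)) .one))))
  | mul_zero : Basic (.all (.eq (.mul (.var 0) .zero) .zero))
  | mul_succ : Basic (.all (.all (.eq (.mul (.var 1) (.add (.var 0) .one))
      (.add (.mul (.var 1) (.var 0)) (.var 1)))))
  | not_lt_zero : Basic (.all (.not (.lt (.var 0) .zero)))
  | lt_succ : Basic (.all (.all (Fm.iff (.lt (.var 1) (.add (.var 0) .one))
      (.or (.lt (.var 1) (.var 0)) (.eq (.var 1) (.var 0))))))

/-- The induction axiom `φ(0) ∧ ∀ n (φ(n) → φ(n+1)) → ∀ n φ(n)`; the induction variable is the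
number variable `0` of `φ`. -/
def Ind (φ : Fm) : Fm :=
  .imp (.and (φ.subst (fun n => match n with | 0 => .zero | n + 1 => .var n))
      (.all (.imp φ (φ.subst (fun n => match n with
        | 0 => .add (.var 0) .one
        | n + 1 => .var (n + 1))))))
    (.all φ)

/-- The Δ⁰₁ comprehension axiom `∀ n (φ(n) ↔ ψ(n)) → ∃ X ∀ n (n ∈ X ↔ φ(n))`. -/
def DComp (φ ψ : Fm) : Fm :=
  .imp (.all (Fm.iff φ ψ)) (.exS (.all (Fm.iff (.mem (.var 0) 0) φ.liftS)))

/-- The comprehension axiom `∃ X ∀ n (n ∈ X ↔ φ(n))`. -/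
def Comp (φ : Fm) : Fm := .exS (.all (Fm.iff (.mem (.var 0) 0) φ.liftS))

/-- The axioms of RCA₀: basic axioms, Σ⁰₁ induction, Δ⁰₁ comprehension. -/
def RCA0 : Set Fm :=
  {χ | Basic χ ∨ (∃ φ, Sigma01 φ ∧ χ = Ind φ) ∨ ∃ φ ψ, Sigma01 φ ∧ Pi01 ψ ∧ χ = DComp φ ψ}

/-- Σ¹₁ induction. -/
def ISigma11 : Set Fm := {χ | ∃ φ, Sigma11 φ ∧ χ = Ind φ}

/-- The axioms of full second-order arithmetic Z₂: basic axioms, induction and comprehension for
all formulas. -/
def Z2 : Set Fm := {χ | Basic χ ∨ (∃ φ, χ = Ind φ) ∨ ∃ φ, χ = Comp φ}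

/-! ### The infinite ray theorems -/

/-- Undirected or directed graphs. -/
inductive XKind
  | U
  | D

/-- Vertex-disjoint or edge-disjoint rays. -/
inductive YKind
  | V
  | E

/-- Single or double rays. -/
inductive ZKind
  | S
  | D

/-- The term `(s + t)² + s` coding the pair of `s` and `t`. -/
def pr (s t : Tm) : Tm := .add (.mul (.add s t) (.add s t)) s

/-- `(V, E)` is a graph: `E` consists of codes of pairs of distinct elements of `V`, and in the
undirected case `E` is symmetric. -/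
def fGraph (X : XKind) (V E : ℕ) : Fm :=
  .and
    (.all (.imp (.mem (.var 0) E) (.ex (.ex (.and (.eq (.var 2) (pr (.var 1) (.var 0)))
      (.and (.mem (.var 1) V) (.and (.mem (.var 0) V) (.not (.eq (.var 1) (.var 0))))))))))
    (match X with
      | .U => .all (.all (.imp (.mem (pr (.var 1) (.var 0)) E) (.mem (pr (.var 0) (.var 1)) E)))
      | .D => .eq .zero .zero)

/-- `x` is the vertex with index `k` of the `i`-th member of the sequence of rays `R`. -/
def fVx (R : ℕ) (i k x : Tm) : Fm := .mem (pr (pr k x) i) R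

/-- The index `m` is the successor of the index `k`. For single rays the indices are the natural
numbers. For double rays `2 j` stands for the integer `j` and `2 j + 1` for the integer `- j - 1`. -/
def fNx : ZKind → Tm → Tm → Fm
  | .S, k, m => .eq m (.add k .one)
  | .D, k, m =>
    .or (.ex (.and (.eq k.lift (.add (.var 0) (.var 0)))
          (.eq m.lift (.add (.add (.var 0) (.var 0)) (.add .one .one)))))
      (.or (.and (.eq k .one) (.eq m .zero))
        (.ex (.and (.eq k.lift (.add (.add (.var 0) (.var 0)) (.add .one (.add .one .one))))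
          (.eq m.lift (.add (.add (.var 0) (.var 0)) .one)))))

/-- The `i`-th member of `R` is a ray of kind `Z` in the graph `(V, E)`. -/
def fRay (Z : ZKind) (V E R : ℕ) (i : Tm) : Fm :=
  .and (.all (.ex (fVx R i.lift.lift (.var 1) (.var 0))))
  (.and (.all (.all (.all (.imp (.and (fVx R i.lift.lift.lift (.var 2) (.var 1))
      (fVx R i.lift.lift.lift (.var 2) (.var 0))) (.eq (.var 1) (.var 0))))))
  (.and (.all (.all (.all (.imp (.and (fVx R i.lift.lift.lift (.var 2) (.var 0))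
      (fVx R i.lift.lift.lift (.var 1) (.var 0))) (.eq (.var 2) (.var 1))))))
  (.and (.all (.all (.imp (fVx R i.lift.lift (.var 1) (.var 0)) (.mem (.var 0) V))))
  (.all (.all (.all (.all (.imp (.and (fNx Z (.var 3) (.var 2))
      (.and (fVx R i.lift.lift.lift.lift (.var 3) (.var 1))
        (fVx R i.lift.lift.lift.lift (.var 2) (.var 0))))
      (.mem (pr (.var 1) (.var 0)) E)))))))))

/-- The `i`-th member of `R` (a sequence of rays of kind `Z`) traverses the edge from `x` to `y`. -/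
def fTrav (Z : ZKind) (R : ℕ) (i x y : Tm) : Fm :=
  .ex (.ex (.and (fNx Z (.var 1) (.var 0)) (.and (fVx R i.lift.lift (.var 1) x.lift.lift)
    (fVx R i.lift.lift (.var 0) y.lift.lift))))

/-- The `i`-th and the `j`-th member of `R` are disjoint. -/
def fDisj (X : XKind) (Y : YKind) (Z : ZKind) (R : ℕ) (i j : Tm) : Fm :=
  match Y, X with
  | .V, _ => .not (.ex (.ex (.ex (.and (fVx R i.lift.lift.lift (.var 2) (.var 0))
      (fVx R j.lift.lift.lift (.var 1) (.var 0))))))
  | .E, .D => .not (.ex (.ex (.and (fTrav Z R i.lift.lift (.var 1) (.var 0))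
      (fTrav Z R j.lift.lift (.var 1) (.var 0)))))
  | .E, .U => .not (.ex (.ex (.and (fTrav Z R i.lift.lift (.var 1) (.var 0))
      (.or (fTrav Z R j.lift.lift (.var 1) (.var 0)) (fTrav Z R j.lift.lift (.var 0) (.var 1))))))

/-- The sentence IRT_XYZ: for all graphs `(V, E)` (set variables `2` and `1` below the quantifier
of `R`), if for every `n` there is a sequence `R` whose first `n` members are pairwise disjoint
rays, then there is a sequence `R` all of whose members are pairwise disjoint rays. -/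
def IRT (X : XKind) (Y : YKind) (Z : ZKind) : Fm :=
  .allS (.allS (.imp
    (.and (fGraph X 1 0)
      (.all (.exS (.and
        (.all (.imp (.lt (.var 0) (.var 1)) (fRay Z 2 1 0 (.var 0))))
        (.all (.all (.imp
          (.and (.lt (.var 1) (.var 2)) (.and (.lt (.var 0) (.var 2))
            (.not (.eq (.var 1) (.var 0)))))
          (fDisj X Y Z 0 (.var 1) (.var 0)))))))))
    (.exS (.and
      (.all (fRay Z 2 1 0 (.var 0)))
      (.all (.all (.imp (.not (.eq (.var 1) (.var 0))) (fDisj X Y Z 0 (.var 1) (.var 0)))))))))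

/-! ### Readable form of the sentences -/

/-- Code of a pair. -/
def pP (M : Str) (a b : M.N) : M.N := M.add (M.mul (M.add a b) (M.add a b)) a

/-- Graphs. -/
def IsGraph (M : Str) (X : XKind) (V E : Set M.N) : Prop :=
  (∀ e, e ∈ E → ∃ x y, e = pP M x y ∧ x ∈ V ∧ y ∈ V ∧ ¬ x = y) ∧
  (match X with
    | .U => ∀ x y, pP M x y ∈ E → pP M y x ∈ E
    | .D => M.zero = M.zero)

/-- `x` is the vertex with index `k` of the ray `i`. -/
def Vx (M : Str) (R : Set M.N) (i k x : M.N) : Prop := pP M (pP M k x) i ∈ R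

/-- Successive indices. -/
def NxI (M : Str) (Z : ZKind) (k m : M.N) : Prop :=
  match Z with
  | .S => m = M.add k M.one
  | .D => (∃ j, k = M.add j j ∧ m = M.add (M.add j j) (M.add M.one M.one)) ∨
      (k = M.one ∧ m = M.zero) ∨
      ∃ j, k = M.add (M.add j j) (M.add M.one (M.add M.one M.one)) ∧
        m = M.add (M.add j j) M.one

/-- Rays. -/
def IsZRay (M : Str) (Z : ZKind) (V E R : Set M.N) (i : M.N) : Prop :=
  (∀ k, ∃ x, Vx M R i k x) ∧
  (∀ k x y, Vx M R i k x ∧ Vx M R i k y → x = y) ∧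
  (∀ k m x, Vx M R i k x ∧ Vx M R i m x → k = m) ∧
  (∀ k x, Vx M R i k x → x ∈ V) ∧
  (∀ k m x y, NxI M Z k m ∧ Vx M R i k x ∧ Vx M R i m y → pP M x y ∈ E)

/-- Traversed edges. -/
def Trav (M : Str) (Z : ZKind) (R : Set M.N) (i x y : M.N) : Prop :=
  ∃ k m, NxI M Z k m ∧ Vx M R i k x ∧ Vx M R i m y

/-- Disjointness. -/
def Disj (M : Str) (X : XKind) (Y : YKind) (Z : ZKind) (R : Set M.N) (i j : M.N) : Prop :=
  match Y, X with
  | .V, _ => ¬ ∃ k m x, Vx M R i k x ∧ Vx M R j m x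
  | .E, .D => ¬ ∃ x y, Trav M Z R i x y ∧ Trav M Z R j x y
  | .E, .U => ¬ ∃ x y, Trav M Z R i x y ∧ (Trav M Z R j x y ∨ Trav M Z R j y x)

/-- Readable form of the truth of IRT_XYZ in the structure `M`. -/
def Holds (M : Str) (X : XKind) (Y : YKind) (Z : ZKind) : Prop :=
  ∀ V ∈ M.S, ∀ E ∈ M.S, (IsGraph M X V E ∧
    ∀ n, ∃ R ∈ M.S, (∀ i, M.lt i n → IsZRay M Z V E R i) ∧
      ∀ i j, (M.lt i n ∧ M.lt j n ∧ ¬ i = j) → Disj M X Y Z R i j) →
  ∃ R ∈ M.S, (∀ i, IsZRay M Z V E R i) ∧ ∀ i j, ¬ i = j → Disj M X Y Z R i j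

lemma sat_IRT (M : Str) (X : XKind) (Y : YKind) (Z : ZKind) (v : ℕ → M.N) (V : ℕ → Set M.N) :
    Sat M v V (IRT X Y Z) ↔ Holds M X Y Z := by
  cases X <;> cases Y <;> cases Z <;> exact Iff.rfl

/-- The sentence `IRT X Y Z` says what it should. -/
theorem valid_IRT_iff (M : Str) (X : XKind) (Y : YKind) (Z : ZKind) :
    Valid M (IRT X Y Z) ↔ Holds M X Y Z := by
  obtain ⟨A, hA⟩ := M.ne
  constructor
  · intro h
    exact (sat_IRT M X Y Z (fun _ => M.zero) (fun _ => A)).1 (h _ _ fun _ => hA)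
  · intro h v V _
    exact (sat_IRT M X Y Z v V).2 h

end Pool.Agent.H4.L2
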