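import Pool.Agent.H4.Ray.L2Def
import Pool.Agent.H4.Ray.Graph
import Pool.Agent.H4.Ray.Halin

/-!
The standard model satisfies full second-order arithmetic and the four single ray theorems, but not
the theorems for directed double rays.
-/

namespace Pool.Agent.H4.L2

open Pool.Agent.H4.Ray (itV itE itU IsRay IsDRay Dj Fam item Sp)

/-! ### Substitution lemmas -/

lemma val_lift (M : Str) (a : M.N) (v : ℕ → M.N) (t : Tm) :
    t.lift.val M (cons a v) = t.val M v := by
  induction t with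
  | var n => rfl
  | zero => rfl
  | one => rfl
  | add s t ihs iht => simp only [Tm.lift, Tm.val, ihs, iht]
  | mul s t ihs iht => simp only [Tm.lift, Tm.val, ihs, iht]

lemma val_subst (M : Str) (v : ℕ → M.N) (σ : ℕ → Tm) (t : Tm) :
    (t.sub σ).val M v = t.val M (fun n => (σ n).val M v) := by
  induction t with
  | var n => rfl
  | zero => rfl
  | one => rfl
  | add s t ihs iht => simp only [Tm.sub, Tm.val, ihs, iht]
  | mul s t ihs iht => simp only [Tm.sub, Tm.val, ihs, iht]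

lemma cons_up (M : Str) (a : M.N) (v : ℕ → M.N) (σ : ℕ → Tm) :
    (fun n => (up σ n).val M (cons a v)) = cons a (fun n => (σ n).val M v) := by
  funext n
  cases n with
  | zero => rfl
  | succ n => exact val_lift M a v (σ n)

lemma sat_subst (M : Str) (φ : Fm) (v : ℕ → M.N) (V : ℕ → Set M.N) (σ : ℕ → Tm) :
    Sat M v V (φ.subst σ) ↔ Sat M (fun n => (σ n).val M v) V φ := by
  induction φ generalizing v V σ with
  | eq s t => simp only [Fm.subst, Sat, val_subst]
  | lt s t => simp only [Fm.subst, Sat, val_subst]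
  | mem t X => simp only [Fm.subst, Sat, val_subst]
  | not φ ih => simp only [Fm.subst, Sat, ih]
  | and φ ψ ih ih' => simp only [Fm.subst, Sat, ih, ih']
  | or φ ψ ih ih' => simp only [Fm.subst, Sat, ih, ih']
  | imp φ ψ ih ih' => simp only [Fm.subst, Sat, ih, ih']
  | all φ ih => simp only [Fm.subst, Sat, ih, cons_up]
  | ex φ ih => simp only [Fm.subst, Sat, ih, cons_up]
  | allS φ ih => simp only [Fm.subst, Sat, ih]
  | exS φ ih => simp only [Fm.subst, Sat, ih]

lemma cons_upS {α : Type} (A : α) (V : ℕ → α) (ρ : ℕ → ℕ) :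
    (fun n => cons A V (upS ρ n)) = cons A (fun n => V (ρ n)) := by
  funext n
  cases n <;> rfl

lemma sat_ren (M : Str) (φ : Fm) (v : ℕ → M.N) (V : ℕ → Set M.N) (ρ : ℕ → ℕ) :
    Sat M v V (φ.ren ρ) ↔ Sat M v (fun n => V (ρ n)) φ := by
  induction φ generalizing v V ρ with
  | eq s t => simp only [Fm.ren, Sat]
  | lt s t => simp only [Fm.ren, Sat]
  | mem t X => simp only [Fm.ren, Sat]
  | not φ ih => simp only [Fm.ren, Sat, ih]
  | and φ ψ ih ih' => simp only [Fm.ren, Sat, ih, ih']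
  | or φ ψ ih ih' => simp only [Fm.ren, Sat, ih, ih']
  | imp φ ψ ih ih' => simp only [Fm.ren, Sat, ih, ih']
  | all φ ih => simp only [Fm.ren, Sat, ih]
  | ex φ ih => simp only [Fm.ren, Sat, ih]
  | allS φ ih => simp only [Fm.ren, Sat, ih, cons_upS]
  | exS φ ih => simp only [Fm.ren, Sat, ih, cons_upS]

lemma sat_liftS (M : Str) (φ : Fm) (v : ℕ → M.N) (V : ℕ → Set M.N) (A : Set M.N) :
    Sat M v (cons A V) φ.liftS ↔ Sat M v V φ := by
  unfold Fm.liftS
  rw [sat_ren]
  exact Iff.rfl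

/-! ### The standard model -/

/-- The standard model. -/
def std : Str where
  N := ℕ
  S := Set.univ
  ne := ⟨∅, trivial⟩
  zero := 0
  one := 1
  add := fun a b => a + b
  mul := fun a b => a * b
  lt := fun a b => a < b

lemma std_basic {φ : Fm} (h : Basic φ) : Valid std φ := by
  intro v V _
  cases h with
  | succ_ne => exact fun a => Nat.succ_ne_zero a
  | succ_inj => exact fun a b h => Nat.succ_injective h
  | add_zero => exact fun a => Nat.add_zero a
  | add_succ => exact fun a b => rfl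
  | mul_zero => exact fun a => Nat.mul_zero a
  | mul_succ => exact fun a b => Nat.mul_succ a b
  | not_lt_zero => exact fun a => Nat.not_lt_zero a
  | lt_succ =>
    intro a b
    exact ⟨fun h => Nat.lt_succ_iff_lt_or_eq.1 h, fun h => Nat.lt_succ_iff_lt_or_eq.2 h⟩

lemma std_ind (φ : Fm) : Valid std (Ind φ) := by
  intro v V _
  rintro ⟨h0, h1⟩ a
  rw [sat_subst] at h0
  have h0' : Sat std (cons (0 : ℕ) v) V φ := by
    refine (iff_of_eq ?_).1 h0
    congr 1
    funext n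
    cases n <;> rfl
  have h1' : ∀ b : ℕ, Sat std (cons b v) V φ → Sat std (cons (b + 1) v) V φ := by
    intro b hb
    have h2 := h1 b hb
    rw [sat_subst] at h2
    refine (iff_of_eq ?_).1 h2
    congr 1
    funext n
    cases n <;> rfl
  exact Nat.rec h0' h1' a

lemma std_comp (φ : Fm) : Valid std (Comp φ) := by
  intro v V _
  refine ⟨{a | Sat std (cons a v) V φ}, trivial, fun a => ?_⟩
  exact ⟨fun h => (sat_liftS std φ _ V _).2 h, fun h => (sat_liftS std φ _ V _).1 h⟩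

lemma std_dcomp (φ ψ : Fm) : Valid std (DComp φ ψ) :=
  fun v V hV _ => std_comp φ v V hV

/-! ### The sentences in the standard model -/

/-- Code of a pair of natural numbers. -/
def nP (a b : ℕ) : ℕ := (a + b) * (a + b) + a

/-- Graphs. -/
def nGraph (X : XKind) (V E : Set ℕ) : Prop :=
  (∀ e, e ∈ E → ∃ x y, e = nP x y ∧ x ∈ V ∧ y ∈ V ∧ ¬ x = y) ∧
  (match X with
    | .U => ∀ x y, nP x y ∈ E → nP y x ∈ E
    | .D => 0 = 0)

/-- `x` is the vertex with index `k` of the ray `i`. -/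
def nVx (R : Set ℕ) (i k x : ℕ) : Prop := nP (nP k x) i ∈ R

/-- Successive indices. -/
def nNx (Z : ZKind) (k m : ℕ) : Prop :=
  match Z with
  | .S => m = k + 1
  | .D => (∃ j, k = j + j ∧ m = (j + j) + (1 + 1)) ∨ (k = 1 ∧ m = 0) ∨
      ∃ j, k = (j + j) + (1 + (1 + 1)) ∧ m = (j + j) + 1

/-- Rays. -/
def nRay (Z : ZKind) (V E R : Set ℕ) (i : ℕ) : Prop :=
  (∀ k, ∃ x, nVx R i k x) ∧
  (∀ k x y, nVx R i k x ∧ nVx R i k y → x = y) ∧
  (∀ k m x, nVx R i k x ∧ nVx R i m x → k = m) ∧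
  (∀ k x, nVx R i k x → x ∈ V) ∧
  (∀ k m x y, nNx Z k m ∧ nVx R i k x ∧ nVx R i m y → nP x y ∈ E)

/-- Traversed edges. -/
def nTrav (Z : ZKind) (R : Set ℕ) (i x y : ℕ) : Prop :=
  ∃ k m, nNx Z k m ∧ nVx R i k x ∧ nVx R i m y

/-- Disjointness. -/
def nDisj (X : XKind) (Y : YKind) (Z : ZKind) (R : Set ℕ) (i j : ℕ) : Prop :=
  match Y, X with
  | .V, _ => ¬ ∃ k m x, nVx R i k x ∧ nVx R j m x
  | .E, .D => ¬ ∃ x y, nTrav Z R i x y ∧ nTrav Z R j x y
  | .E, .U => ¬ ∃ x y, nTrav Z R i x y ∧ (nTrav Z R j x y ∨ nTrav Z R j y x)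

/-- Truth of IRT_XYZ in the standard model. -/
def nHolds (X : XKind) (Y : YKind) (Z : ZKind) : Prop :=
  ∀ V ∈ (Set.univ : Set (Set ℕ)), ∀ E ∈ (Set.univ : Set (Set ℕ)), (nGraph X V E ∧
    ∀ n, ∃ R ∈ (Set.univ : Set (Set ℕ)), (∀ i, i < n → nRay Z V E R i) ∧
      ∀ i j, (i < n ∧ j < n ∧ ¬ i = j) → nDisj X Y Z R i j) →
  ∃ R ∈ (Set.univ : Set (Set ℕ)), (∀ i, nRay Z V E R i) ∧ ∀ i j, ¬ i = j → nDisj X Y Z R i j

theorem holds_std_iff (X : XKind) (Y : YKind) (Z : ZKind) : Holds std X Y Z ↔ nHolds X Y Z := by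
  cases X <;> cases Y <;> cases Z <;> exact Iff.rfl

/-! ### Coding in the standard model -/

lemma nP_inj {a b c d : ℕ} (h : nP a b = nP c d) : a = c ∧ b = d := by
  unfold nP at h
  have key : a + b = c + d := by
    by_contra hne
    rcases lt_or_gt_of_ne hne with hlt | hlt
    · obtain ⟨e, he⟩ := Nat.exists_eq_add_of_lt hlt
      rw [he] at h
      nlinarith [Nat.zero_le a, Nat.zero_le b, Nat.zero_le c, Nat.zero_le e,
        mul_nonneg (Nat.zero_le (a + b)) (Nat.zero_le e)]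
    · obtain ⟨e, he⟩ := Nat.exists_eq_add_of_lt hlt
      rw [he] at h
      nlinarith [Nat.zero_le a, Nat.zero_le d, Nat.zero_le c, Nat.zero_le e,
        mul_nonneg (Nat.zero_le (c + d)) (Nat.zero_le e)]
  rw [key] at h
  omega

/-- The set coding a sequence of functions. -/
def code (F : ℕ → ℕ → ℕ) : Set ℕ := {z | ∃ i k : ℕ, z = nP (nP k (F i k)) i}

lemma vx_code (F : ℕ → ℕ → ℕ) (i k x : ℕ) : nVx (code F) i k x ↔ x = F i k := by
  unfold nVx code
  constructor
  · rintro ⟨i', k', h⟩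
    obtain ⟨h1, h2⟩ := nP_inj h
    obtain ⟨h3, h4⟩ := nP_inj h1
    subst h2 h3
    exact h4
  · rintro rfl
    exact ⟨i, k, rfl⟩

/-- The function coded by a member of a sequence of rays. -/
lemma ray_fun {Z : ZKind} {V E R : Set ℕ} {i : ℕ} (h : nRay Z V E R i) :
    ∃ f : ℕ → ℕ, (∀ k x, nVx R i k x ↔ x = f k) ∧ Function.Injective f ∧
      (∀ k m, nNx Z k m → nP (f k) (f m) ∈ E) := by
  obtain ⟨h1, h2, h3, _, h5⟩ := h
  choose f hf using h1
  have hf' : ∀ k x, nVx R i k x ↔ x = f k := by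
    intro k x
    constructor
    · intro h
      exact h2 k x (f k) ⟨h, hf k⟩
    · rintro rfl
      exact hf k
  refine ⟨f, hf', fun k m hkm => h3 k m (f k) ⟨hf k, by rw [hkm]; exact hf m⟩, fun k m hkm => ?_⟩
  exact h5 k m (f k) (f m) ⟨hkm, hf k, hf m⟩

lemma ray_code {X : XKind} {Z : ZKind} {V E : Set ℕ} (hG : nGraph X V E) {F : ℕ → ℕ → ℕ}
    {i : ℕ} (hn : ∀ k : ℕ, ∃ m, nNx Z k m) (h1 : Function.Injective (F i))
    (h2 : ∀ k m, nNx Z k m → nP (F i k) (F i m) ∈ E) :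
    nRay Z V E (code F) i := by
  refine ⟨fun k => ⟨F i k, (vx_code F i k _).2 rfl⟩, ?_, ?_, ?_, ?_⟩
  · rintro k x y ⟨hx, hy⟩
    rw [vx_code] at hx hy
    rw [hx, hy]
  · rintro k m x ⟨hx, hy⟩
    rw [vx_code] at hx hy
    exact h1 (hx.symm.trans hy)
  · intro k x hx
    rw [vx_code] at hx
    obtain ⟨m, hm⟩ := hn k
    obtain ⟨a, b, hab, ha, _⟩ := hG.1 _ (h2 k m hm)
    obtain ⟨h3, _⟩ := nP_inj hab
    rw [hx, h3]
    exact ha
  · rintro k m x y ⟨hkm, hx, hy⟩
    rw [vx_code] at hx hy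
    rw [hx, hy]
    exact h2 k m hkm

/-- Disjointness of functions on indices. -/
def DisjF (X : XKind) (Y : YKind) (Z : ZKind) (f g : ℕ → ℕ) : Prop :=
  match Y, X with
  | .V, _ => ∀ k m, f k ≠ g m
  | .E, .D => ∀ k m k' m', nNx Z k m → nNx Z k' m' → ¬ (f k = g k' ∧ f m = g m')
  | .E, .U => ∀ k m k' m', nNx Z k m → nNx Z k' m' →
      ¬ (f k = g k' ∧ f m = g m') ∧ ¬ (f k = g m' ∧ f m = g k')

lemma disj_iff (X : XKind) (Y : YKind) (Z : ZKind) {R : Set ℕ} {i j : ℕ} {f g : ℕ → ℕ}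
    (hf : ∀ k x, nVx R i k x ↔ x = f k) (hg : ∀ k x, nVx R j k x ↔ x = g k) :
    nDisj X Y Z R i j ↔ DisjF X Y Z f g := by
  have trf : ∀ x y, nTrav Z R i x y ↔ ∃ k m, nNx Z k m ∧ x = f k ∧ y = f m := by
    intro x y
    unfold nTrav
    simp only [hf]
  have trg : ∀ x y, nTrav Z R j x y ↔ ∃ k m, nNx Z k m ∧ x = g k ∧ y = g m := by
    intro x y
    unfold nTrav
    simp only [hg]
  cases Y with
  | V =>
    show (¬ ∃ k m x, nVx R i k x ∧ nVx R j m x) ↔ ∀ k m, f k ≠ g m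
    constructor
    · intro h k m hkm
      exact h ⟨k, m, f k, (hf _ _).2 rfl, (hg _ _).2 hkm⟩
    · rintro h ⟨k, m, x, h1, h2⟩
      rw [hf] at h1
      rw [hg] at h2
      exact h k m (h1.symm.trans h2)
  | E =>
    cases X with
    | D =>
      show (¬ ∃ x y, nTrav Z R i x y ∧ nTrav Z R j x y) ↔ ∀ k m k' m', nNx Z k m →
        nNx Z k' m' → ¬ (f k = g k' ∧ f m = g m')
      constructor
      · rintro h k m k' m' h1 h2 ⟨h3, h4⟩
        exact h ⟨f k, f m, (trf _ _).2 ⟨k, m, h1, rfl, rfl⟩, (trg _ _).2 ⟨k', m', h2, h3, h4⟩⟩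
      · rintro h ⟨x, y, h1, h2⟩
        obtain ⟨k, m, h3, rfl, rfl⟩ := (trf _ _).1 h1
        obtain ⟨k', m', h4, h5, h6⟩ := (trg _ _).1 h2
        exact h k m k' m' h3 h4 ⟨h5, h6⟩
    | U =>
      show (¬ ∃ x y, nTrav Z R i x y ∧ (nTrav Z R j x y ∨ nTrav Z R j y x)) ↔
        ∀ k m k' m', nNx Z k m → nNx Z k' m' →
          ¬ (f k = g k' ∧ f m = g m') ∧ ¬ (f k = g m' ∧ f m = g k')
      constructor
      · intro h k m k' m' h1 h2
        refine ⟨?_, ?_⟩
        · rintro ⟨h3, h4⟩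
          exact h ⟨f k, f m, (trf _ _).2 ⟨k, m, h1, rfl, rfl⟩,
            Or.inl ((trg _ _).2 ⟨k', m', h2, h3, h4⟩)⟩
        · rintro ⟨h3, h4⟩
          exact h ⟨f k, f m, (trf _ _).2 ⟨k, m, h1, rfl, rfl⟩,
            Or.inr ((trg _ _).2 ⟨k', m', h2, h4, h3⟩)⟩
      · rintro h ⟨x, y, h1, h2⟩
        obtain ⟨k, m, h3, rfl, rfl⟩ := (trf _ _).1 h1
        rcases h2 with h2 | h2
        · obtain ⟨k', m', h4, h5, h6⟩ := (trg _ _).1 h2
          exact (h k m k' m' h3 h4).1 ⟨h5, h6⟩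
        · obtain ⟨k', m', h4, h5, h6⟩ := (trg _ _).1 h2
          exact (h k m k' m' h3 h4).2 ⟨h6, h5⟩

/-! ### Single rays -/

lemma nxS {k m : ℕ} : nNx .S k m ↔ m = k + 1 := Iff.rfl

/-- Halin's theorem in the form needed, for an item function matching the kinds. -/
lemma holds_single {α : Type} {it : ℕ → ℕ → α} (hok : Ray.ItemOK it) (X : XKind) (Y : YKind)
    (hit : ∀ f g : ℕ → ℕ, Dj it f g ↔ DisjF X Y .S f g) : nHolds X Y .S := by
  classical
  rintro V - E - ⟨hG, hmany⟩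
  have H : ∀ n, ∃ R, Fam it (fun u v : ℕ => nP u v ∈ E) n R := by
    intro n
    obtain ⟨R, -, hR, hd⟩ := hmany n
    have hex : ∀ i, i < n → ∃ f : ℕ → ℕ, (∀ k x, nVx R i k x ↔ x = f k) ∧
      Function.Injective f ∧ (∀ k m, nNx .S k m → nP (f k) (f m) ∈ E) :=
      fun i hi => ray_fun (hR i hi)
    choose! f hf1 hf2 hf3 using hex
    refine ⟨f, fun i hi => ⟨hf2 i hi, fun k => hf3 i hi k (k + 1) rfl⟩, ?_⟩
    intro i hi j hj hij
    rw [hit]
    exact (disj_iff X Y .S (hf1 i hi) (hf1 j hj)).1 (hd i j ⟨hi, hj, hij⟩)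
  obtain ⟨F, hF1, hF2⟩ := Ray.halin hok H
  refine ⟨code F, trivial, fun i => ?_, fun i j hij => ?_⟩
  · refine ray_code hG (fun k => ⟨k + 1, rfl⟩) (hF1 i).1 ?_
    rintro k m hkm
    rw [nxS] at hkm
    rw [hkm]
    exact (hF1 i).2 k
  · rw [disj_iff X Y .S (vx_code F i) (vx_code F j), ← hit]
    exact hF2 i j hij

theorem holds_S (X : XKind) (Y : YKind) : nHolds X Y .S := by
  cases Y with
  | V =>
    refine holds_single Ray.okV X .V fun f g => ?_
    exact Iff.rfl
  | E =>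
    cases X with
    | D =>
      refine holds_single Ray.okE .D .E fun f g => ?_
      constructor
      · intro h k m k' m' h1 h2 h3
        rw [nxS] at h1 h2
        subst h1 h2
        exact h k k' (Prod.ext h3.1 h3.2)
      · intro h k k' he
        have he' : (f k, f (k + 1)) = (g k', g (k' + 1)) := he
        rw [Prod.mk.injEq] at he'
        exact h k (k + 1) k' (k' + 1) rfl rfl he'
    | U =>
      refine holds_single Ray.okU .U .E fun f g => ?_
      constructor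
      · intro h k m k' m' h1 h2
        rw [nxS] at h1 h2
        subst h1 h2
        refine ⟨fun h3 => h k k' ?_, fun h3 => h k k' ?_⟩
        · show s(f k, f (k + 1)) = s(g k', g (k' + 1))
          rw [h3.1, h3.2]
        · show s(f k, f (k + 1)) = s(g k', g (k' + 1))
          rw [h3.1, h3.2]
          exact Sym2.eq_swap
      · intro h k k' he
        have he' : s(f k, f (k + 1)) = s(g k', g (k' + 1)) := he
        have h2 := h k (k + 1) k' (k' + 1) rfl rfl
        rw [Sym2.eq_iff] at he'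
        rcases he' with he' | he'
        · exact h2.1 he'
        · exact h2.2 he'

/-! ### Double rays -/

/-- The integer with a given index. -/
def zi (k : ℕ) : ℤ := if k % 2 = 0 then ((k / 2 : ℕ) : ℤ) else -((k / 2 : ℕ) : ℤ) - 1

/-- The index of an integer. -/
def iz (t : ℤ) : ℕ := if 0 ≤ t then 2 * t.toNat else 2 * (-t - 1).toNat + 1

lemma zi_iz (t : ℤ) : zi (iz t) = t := by
  unfold zi iz
  split_ifs <;> omega

lemma iz_inj : Function.Injective iz := Function.LeftInverse.injective zi_iz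

lemma zi_inj : Function.Injective zi := by
  intro a b h
  unfold zi at h
  split_ifs at h <;> omega

lemma nxD_zi {k m : ℕ} (h : nNx .D k m) : zi m = zi k + 1 := by
  rcases h with ⟨j, h1, h2⟩ | ⟨h1, h2⟩ | ⟨j, h1, h2⟩
  · unfold zi
    split_ifs <;> omega
  · subst h1 h2
    decide
  · unfold zi
    split_ifs <;> omega

lemma nxD_iz (t : ℤ) : nNx .D (iz t) (iz (t + 1)) := by
  rcases lt_trichotomy t (-1) with h | h | h
  · refine Or.inr (Or.inr ⟨(-t - 2).toNat, ?_, ?_⟩)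
    · unfold iz
      split_ifs <;> omega
    · unfold iz
      split_ifs <;> omega
  · subst h
    exact Or.inr (Or.inl ⟨rfl, rfl⟩)
  · refine Or.inl ⟨t.toNat, ?_, ?_⟩
    · unfold iz
      split_ifs <;> omega
    · unfold iz
      split_ifs <;> omega

lemma nxD_ex (k : ℕ) : ∃ m, nNx .D k m := by
  have h := nxD_iz (zi k)
  have : iz (zi k) = k := zi_inj (zi_iz _)
  rw [this] at h
  exact ⟨_, h⟩

theorem not_holds_D (Y : YKind) : ¬ nHolds .D Y .D := by
  intro h
  set E : Set ℕ := {z | ∃ a b : ℕ, z = nP a b ∧ Sp a b} with hE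
  have hmemE : ∀ a b : ℕ, nP a b ∈ E ↔ Sp a b := by
    intro a b
    constructor
    · rintro ⟨a', b', h1, h2⟩
      obtain ⟨rfl, rfl⟩ := nP_inj h1
      exact h2
    · intro h
      exact ⟨a, b, rfl, h⟩
  have hG : nGraph .D (Set.univ : Set ℕ) E := by
    refine ⟨?_, rfl⟩
    rintro e ⟨a, b, rfl, hab⟩
    exact ⟨a, b, rfl, trivial, trivial, fun hab' => by
      subst hab'
      exact Ray.sp_asymm hab hab⟩
  obtain ⟨R, -, hR1, hR2⟩ := h (Set.univ : Set ℕ) trivial E trivial ⟨hG, fun n => by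
    obtain ⟨f, hf1, hf2⟩ := Ray.sp_many n
    refine ⟨code (fun i k => f i (zi k)), trivial, fun i hi => ?_, ?_⟩
    · refine ray_code hG nxD_ex ?_ ?_
      · exact (hf1 i hi).1.comp zi_inj
      · intro k m hkm
        rw [hmemE, nxD_zi hkm]
        exact (hf1 i hi).2 _
    · rintro i j ⟨hi, hj, hij⟩
      rw [disj_iff .D Y .D (vx_code _ i) (vx_code _ j)]
      cases Y with
      | V => exact fun k m => hf2 i hi j hj hij _ _
      | E => exact fun k m k' m' _ _ h => hf2 i hi j hj hij _ _ h.1⟩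
  choose g hg1 hg2 hg3 using fun i => ray_fun (hR1 i)
  refine Ray.sp_none (fun i t => g i (iz t)) (fun i => ⟨(hg2 i).comp iz_inj, fun t => ?_⟩) ?_
  · rw [← hmemE]
    exact hg3 i _ _ (nxD_iz t)
  · intro i j hij t t' he
    have hd := (disj_iff .D Y .D (hg1 i) (hg1 j)).1 (hR2 i j hij)
    cases Y with
    | V => exact hd _ _ he.1
    | E => exact hd _ _ _ _ (nxD_iz t) (nxD_iz t') he

/-! ### Conclusion -/

/-- The four theorems on single rays. -/
def SingleRay : Set Fm := {φ | ∃ X Y, φ = IRT X Y .S}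

theorem std_models {φ : Fm} (h : φ ∈ RCA0 ∪ ISigma11 ∪ Z2 ∪ SingleRay) : Valid std φ := by
  rcases h with ((h | h) | h) | h
  · rcases h with h | ⟨ψ, _, rfl⟩ | ⟨ψ, χ, _, _, rfl⟩
    · exact std_basic h
    · exact std_ind ψ
    · exact std_dcomp ψ χ
  · obtain ⟨ψ, _, rfl⟩ := h
    exact std_ind ψ
  · rcases h with h | ⟨ψ, rfl⟩ | ⟨ψ, rfl⟩
    · exact std_basic h
    · exact std_ind ψ
    · exact std_comp ψ
  · obtain ⟨X, Y, rfl⟩ := h
    exact (valid_IRT_iff std X Y .S).2 ((holds_std_iff X Y .S).2 (holds_S X Y))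

theorem std_not (Y : YKind) : ¬ Valid std (IRT .D Y .D) := fun h =>
  not_holds_D Y ((holds_std_iff .D Y .D).1 ((valid_IRT_iff std .D Y .D).1 h))

end Pool.Agent.H4.L2
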