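import Pool.Agent.H4.Ray.Basic

/-!
Constancy of the labels along a double ray.
-/

namespace Pool.Agent.H4.Ray

/-- Wires have no event before their birth. -/
def Fresh (ev : ℕ → Ev) : Prop :=
  ∀ ℓ l i c, ev ℓ = .birth l i c → ∀ z < ℓ, ∀ t : St, t.lev = l → t.idx = i → ¬ (ev z).Inv t

namespace Ray2

variable {ev : ℕ → Ev} (Q : Ray2 ev)

/-- A function of layer and strand that only changes at the events of the strand is constant
between them. -/
lemma const_between (F : ℕ → St → ℤ) (h1 : ∀ ℓ t, ¬ (ev ℓ).Inv t → F (ℓ + 1) t = F ℓ t)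
    {t : St} {x : ℕ} (d : ℕ) (h : ∀ z, x ≤ z → z < x + d → ¬ (ev z).Inv t) :
    F (x + d) t = F x t := by
  induction d with
  | zero => rfl
  | succ d ih =>
    rw [← add_assoc, h1 _ _ (h _ (by omega) (by omega))]
    exact ih (fun z hz hz' => h z hz (by omega))

lemma const_between' (F : ℕ → St → ℤ) (h1 : ∀ ℓ t, ¬ (ev ℓ).Inv t → F (ℓ + 1) t = F ℓ t)
    {t : St} {x y : ℕ} (hxy : x ≤ y) (h : ∀ z, x ≤ z → z < y → ¬ (ev z).Inv t) :
    F y t = F x t := by
  obtain ⟨d, rfl⟩ := Nat.exists_eq_add_of_le hxy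
  exact const_between F h1 d h

lemma int_const {G : ℤ → ℤ} (h : ∀ k, G (k - 1) = G k) (k : ℤ) : G k = G 0 := by
  induction k using Int.induction_on with
  | zero => rfl
  | succ i ih => rw [← ih, ← h (i + 1), add_sub_cancel_right]
  | pred i ih => rw [← ih, h]

/-- Propagation of a value along a double ray. -/
lemma const_along (F : ℕ → St → ℤ) (h1 : ∀ ℓ t, ¬ (ev ℓ).Inv t → F (ℓ + 1) t = F ℓ t)
    (h2 : ∀ k : ℤ, F (if (Q.s (k - 1)).pos = true then Q.q k else Q.q k + 1) (Q.s (k - 1))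
      = F (if (Q.s k).pos = true then Q.q k + 1 else Q.q k) (Q.s k)) :
    ∃ C, ∀ ℓ t, Q.used ℓ t → F ℓ t = C := by
  have hr : ∀ k ℓ, (((Q.s k).pos = true ∧ Q.q k < ℓ ∧ ℓ ≤ Q.q (k + 1)) ∨
      ((Q.s k).pos = false ∧ Q.q (k + 1) < ℓ ∧ ℓ ≤ Q.q k)) →
      F ℓ (Q.s k) = F (if (Q.s k).pos = true then Q.q k + 1 else Q.q k) (Q.s k) := by
    intro k ℓ hℓ
    rcases Q.es k with ⟨hp, hx⟩ | ⟨hp, hx⟩
    · rw [if_pos hp]
      rcases hℓ with ⟨_, a, b⟩ | ⟨hp', _⟩
      · exact const_between' F h1 (by omega) (fun z hz hz' => hx.2.2.2 z (by omega) (by omega))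
      · rw [hp] at hp'; cases hp'
    · rw [if_neg (by rw [hp]; decide)]
      rcases hℓ with ⟨hp', _⟩ | ⟨_, a, b⟩
      · rw [hp] at hp'; cases hp'
      · exact (const_between' F h1 b (fun z hz hz' => hx.2.2.2 z (by omega) (by omega))).symm
  have hG := int_const (G := fun k => F (if (Q.s k).pos = true then Q.q k + 1 else Q.q k) (Q.s k))
    (by
      intro k
      rw [← h2 k, ← hr (k - 1)]
      rcases Q.es (k - 1) with ⟨hp, hx⟩ | ⟨hp, hx⟩
      · rw [if_pos hp]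
        left
        rw [sub_add_cancel] at hx ⊢
        exact ⟨hp, hx.1, le_rfl⟩
      · rw [if_neg (by rw [hp]; decide)]
        right
        rw [sub_add_cancel] at hx ⊢
        exact ⟨hp, Nat.lt_succ_self _, hx.1⟩)
  refine ⟨F (if (Q.s 0).pos = true then Q.q 0 + 1 else Q.q 0) (Q.s 0), fun ℓ t ht => ?_⟩
  obtain ⟨k, rfl, hk⟩ := ht
  rw [hr k ℓ hk]
  exact hG k

/-- The lower of the two labels along a used strand. -/
noncomputable def lo (ℓ : ℕ) (t : St) : ℤ := if t.pos = true then Q.D ℓ t else Q.U ℓ t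

lemma lo_succ_of_not_inv {ℓ : ℕ} {t : St} (h : ¬ (ev ℓ).Inv t) : Q.lo (ℓ + 1) t = Q.lo ℓ t := by
  unfold lo
  rw [Q.U_succ_of_not_inv h, Q.D_succ_of_not_inv h]

/-- Local consistency of the labels and freshness of births. -/
def Loc : Prop :=
  (∀ ℓ a b, ev ℓ = .cross a b → a ≠ b ∧ Q.U ℓ b = Q.D ℓ a) ∧ Fresh ev

variable {Q}

lemma St_eq {t : St} {l i : ℕ} {p : Bool} (h1 : t.lev = l) (h2 : t.idx = i) (h3 : t.pos = p) :
    t = ⟨l, i, p⟩ := by
  cases t; simp_all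

/-- A ray passing a birth comes in on the incoming strand and leaves on the outgoing one. -/
lemma birth_pass (hL : Fresh ev) {ℓ l i : ℕ} {c : St} (he : ev ℓ = .birth l i c) {k : ℤ}
    (hk : Q.q k = ℓ) : Q.s (k - 1) = ⟨l, i, false⟩ ∧ Q.s k = ⟨l, i, true⟩ := by
  have h1 := Q.inv_pred hk
  have h2 := Q.inv_self hk
  rw [he] at h1 h2
  constructor
  · refine St_eq h1.1 h1.2 ?_
    rcases Q.es (k - 1) with ⟨_, hx⟩ | ⟨hp, _⟩
    · rw [sub_add_cancel, hk] at hx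
      exact absurd hx.2.1 (hL ℓ l i c he _ hx.1 _ h1.1 h1.2)
    · exact hp
  · refine St_eq h2.1 h2.2 ?_
    rcases Q.es k with ⟨hp, _⟩ | ⟨_, hx⟩
    · exact hp
    · rw [hk] at hx
      exact absurd hx.2.1 (hL ℓ l i c he _ hx.1 _ h2.1 h2.2)

/-- Conservation at a birth. -/
lemma cons_birth (hL : Fresh ev) {ℓ l i : ℕ} {c : St} (he : ev ℓ = .birth l i c) :
    Q.u (ℓ + 1) ⟨l, i, false⟩ + Q.u (ℓ + 1) ⟨l, i, true⟩ = 0 := by
  have hi1 : (ev ℓ).Inv ⟨l, i, false⟩ := by rw [he]; exact ⟨rfl, rfl⟩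
  have hi2 : (ev ℓ).Inv ⟨l, i, true⟩ := by rw [he]; exact ⟨rfl, rfl⟩
  by_cases hpass : ∃ k, Q.q k = ℓ
  · obtain ⟨k, hk⟩ := hpass
    obtain ⟨h1, h2⟩ := birth_pass hL he hk
    rw [Q.u_succ hi1 hk, Q.u_succ hi2 hk, h1, h2]
    simp
  · push Not at hpass
    have := Q.u_zero_of_not_pass hi1 hpass
    have := Q.u_zero_of_not_pass hi2 hpass
    omega

/-- Labels after a birth. -/
lemma birth_labels (hL : Fresh ev) {ℓ l i : ℕ} {c : St} (he : ev ℓ = .birth l i c) :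
    Q.U (ℓ + 1) ⟨l, i, false⟩ = Q.U ℓ c ∧ Q.U (ℓ + 1) ⟨l, i, true⟩ = Q.D (ℓ + 1) ⟨l, i, false⟩ ∧
      Q.D (ℓ + 1) ⟨l, i, true⟩ = Q.U ℓ c := by
  have h1 : Q.U (ℓ + 1) ⟨l, i, false⟩ = Q.U ℓ c := by rw [Q.U_succ_birth he]; simp
  have h2 : Q.U (ℓ + 1) ⟨l, i, true⟩ = Q.U ℓ c - Q.u (ℓ + 1) ⟨l, i, false⟩ := by
    rw [Q.U_succ_birth he]; simp
  have h3 := cons_birth (Q := Q) hL he
  refine ⟨h1, ?_, ?_⟩
  · unfold D; rw [h1, h2]
  · unfold D; rw [h2]; omega

/-- The lower label is constant along the double ray. -/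
lemma lo_const (hL : Q.Loc) : ∃ C, ∀ ℓ t, Q.used ℓ t → Q.lo ℓ t = C := by
  refine Q.const_along Q.lo (fun ℓ t h => Q.lo_succ_of_not_inv h) ?_
  intro k
  have h1 := Q.inv_pred (k := k) rfl
  have h2 := Q.inv_self (k := k) rfl
  set ℓ := Q.q k with hℓ
  cases he : ev ℓ with
  | cross a b =>
    obtain ⟨hab, hadj⟩ := hL.1 ℓ a b he
    obtain ⟨c1, c2, c3⟩ := Q.cross_labels he hab hadj
    have ha : (ev ℓ).Inv a := by rw [he]; exact Or.inl rfl
    have hb : (ev ℓ).Inv b := by rw [he]; exact Or.inr rfl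
    have e1 := Q.u_at ha hℓ.symm
    have e2 := Q.u_at hb hℓ.symm
    have e3 := Q.u_succ ha hℓ.symm
    have e4 := Q.u_succ hb hℓ.symm
    have d1 : Q.D ℓ a = Q.U ℓ a - Q.u ℓ a := rfl
    have d2 : Q.D ℓ b = Q.U ℓ b - Q.u ℓ b := rfl
    have d3 : Q.D (ℓ + 1) a = Q.U (ℓ + 1) a - Q.u (ℓ + 1) a := rfl
    have d4 : Q.D (ℓ + 1) b = Q.U (ℓ + 1) b - Q.u (ℓ + 1) b := rfl
    rw [he] at h1 h2
    unfold lo
    cases hpa : a.pos <;> cases hpb : b.pos <;> rcases h1 with h1 | h1 <;> rcases h2 with h2 | h2 <;>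
      simp [h1, h2, hab, hab.symm, hpa, hpb] at e1 e2 e3 e4 ⊢ <;> omega
  | birth l i c =>
    obtain ⟨p1, p2⟩ := birth_pass hL.2 he hℓ.symm
    obtain ⟨b1, b2, b3⟩ := birth_labels (Q := Q) hL.2 he
    rw [p1, p2]
    unfold lo
    simp only [if_true, Bool.false_eq_true, if_false]
    rw [b1, b3]

/-- The labels along a used strand. -/
lemma labels_const (hL : Q.Loc) : ∃ C, ∀ ℓ t, Q.used ℓ t →
    (t.pos = true → Q.U ℓ t = C + 1 ∧ Q.D ℓ t = C) ∧
    (t.pos = false → Q.U ℓ t = C ∧ Q.D ℓ t = C + 1) := by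
  obtain ⟨C, hC⟩ := lo_const hL
  refine ⟨C, fun ℓ t ht => ⟨fun hp => ?_, fun hp => ?_⟩⟩
  · have h1 := hC ℓ t ht
    have h2 := Q.u_of_used_pos ht hp
    unfold lo at h1
    rw [if_pos hp] at h1
    refine ⟨?_, h1⟩
    unfold D at h1
    omega
  · have h1 := hC ℓ t ht
    have h2 := Q.u_of_used_neg ht hp
    unfold lo at h1
    rw [if_neg (by rw [hp]; decide)] at h1
    refine ⟨h1, ?_⟩
    unfold D
    omega

/-- If `Q` avoids the double ray `Q'`, the `Q`-labels are constant along `Q'`. -/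
lemma labels_const_other (hL : Q.Loc) (Q' : Ray2 ev) (hd : ∀ k k', Q.q k ≠ Q'.q k') :
    ∃ C, ∀ ℓ t, Q'.used ℓ t → Q.U ℓ t = C ∧ Q.D ℓ t = C := by
  have hu : ∀ ℓ t, Q'.used ℓ t → Q.u ℓ t = 0 := by
    intro ℓ t ht
    have : ¬ Q.used ℓ t := by
      rintro ⟨k, hkt, hk⟩
      obtain ⟨k', hkt', hk'⟩ := ht
      have es := Q.es k
      have es' := Q'.es k'
      rw [hkt] at es
      rw [hkt'] at es'
      cases hp : t.pos
      · simp only [hp, Bool.false_eq_true, false_and, true_and, false_or] at hk hk' es es'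
        unfold Es at es es'
        simp only [hp, Bool.false_eq_true, false_and, true_and, false_or] at es es'
        -- both `q (k+1)` and `q' (k'+1)` are the last event of `t` before `ℓ`
        have : Q.q (k + 1) = Q'.q (k' + 1) := by
          by_contra hne
          rcases lt_or_gt_of_ne hne with h | h
          · exact es.2.2.2 _ h (by omega) es'.2.1
          · exact es'.2.2.2 _ h (by omega) es.2.1
        exact hd _ _ this
      · simp only [hp, Bool.true_eq_false, false_and, true_and, or_false] at hk hk' es es'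
        unfold Es at es es'
        simp only [hp, Bool.true_eq_false, false_and, true_and, or_false] at es es'
        have : Q.q k = Q'.q k' := by
          by_contra hne
          rcases lt_or_gt_of_ne hne with h | h
          · exact es.2.2.2 _ h (by omega) es'.2.1
          · exact es'.2.2.2 _ h (by omega) es.2.1
        exact hd _ _ this
    unfold u
    rw [if_neg this]
  obtain ⟨C, hC⟩ := Q'.const_along Q.U (fun ℓ t h => Q.U_succ_of_not_inv h) (by
    intro k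
    have h1 := Q'.inv_pred (k := k) rfl
    have h2 := Q'.inv_self (k := k) rfl
    have hnp : ∀ j, Q.q j ≠ Q'.q k := fun j => hd j k
    set ℓ := Q'.q k with hℓ
    cases he : ev ℓ with
    | cross a b =>
      obtain ⟨hab, hadj⟩ := hL.1 ℓ a b he
      obtain ⟨c1, c2, c3⟩ := Q.cross_labels he hab hadj
      have ha : (ev ℓ).Inv a := by rw [he]; exact Or.inl rfl
      have hb : (ev ℓ).Inv b := by rw [he]; exact Or.inr rfl
      have e1 := Q.u_zero_of_not_pass ha hnp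
      have e2 := Q.u_zero_of_not_pass hb hnp
      have d1 : Q.D ℓ a = Q.U ℓ a - Q.u ℓ a := rfl
      have d2 : Q.D ℓ b = Q.U ℓ b - Q.u ℓ b := rfl
      have d3 : Q.D (ℓ + 1) a = Q.U (ℓ + 1) a - Q.u (ℓ + 1) a := rfl
      have d4 : Q.D (ℓ + 1) b = Q.U (ℓ + 1) b - Q.u (ℓ + 1) b := rfl
      rw [he] at h1 h2
      cases hpa : a.pos <;> cases hpb : b.pos <;> rcases h1 with h1 | h1 <;>
        rcases h2 with h2 | h2 <;>
        simp [h1, h2, hpa, hpb] <;> omega
    | birth l i c =>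
      have hi1 : (ev ℓ).Inv ⟨l, i, false⟩ := by rw [he]; exact ⟨rfl, rfl⟩
      obtain ⟨p1, p2⟩ : Q'.s (k - 1) = ⟨l, i, false⟩ ∧ Q'.s k = ⟨l, i, true⟩ := by
        rw [he] at h1 h2
        constructor
        · refine St_eq h1.1 h1.2 ?_
          rcases Q'.es (k - 1) with ⟨_, hx⟩ | ⟨hp, _⟩
          · rw [sub_add_cancel, ← hℓ] at hx
            exact absurd hx.2.1 (hL.2 ℓ l i c he _ hx.1 _ h1.1 h1.2)
          · exact hp
        · refine St_eq h2.1 h2.2 ?_
          rcases Q'.es k with ⟨hp, _⟩ | ⟨_, hx⟩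
          · exact hp
          · rw [← hℓ] at hx
            exact absurd hx.2.1 (hL.2 ℓ l i c he _ hx.1 _ h2.1 h2.2)
      obtain ⟨b1, b2, b3⟩ := birth_labels (Q := Q) hL.2 he
      have e1 := Q.u_zero_of_not_pass hi1 hnp
      rw [p1, p2]
      simp only [if_true, Bool.false_eq_true, if_false]
      have d1 : Q.D (ℓ + 1) ⟨l, i, false⟩ = Q.U (ℓ + 1) ⟨l, i, false⟩ - Q.u (ℓ + 1) ⟨l, i, false⟩ :=
        rfl
      omega)
  refine ⟨C, fun ℓ t ht => ⟨hC ℓ t ht, ?_⟩⟩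
  unfold D
  rw [hC ℓ t ht, hu ℓ t ht, sub_zero]

variable (Q)

lemma exists_large_right (ℓ : ℕ) (k : ℤ) : ∃ i : ℕ, ℓ ≤ Q.q (k + i) := by
  by_contra hcon
  push Not at hcon
  let f : Fin (ℓ + 1) → Fin ℓ := fun i => ⟨Q.q (k + (i : ℕ)), hcon i⟩
  have hf : Function.Injective f := by
    intro i j hij
    have h1 : Q.q (k + ((i : ℕ) : ℤ)) = Q.q (k + ((j : ℕ) : ℤ)) := congrArg Fin.val hij
    have h2 := Q.inj h1
    apply Fin.ext
    omega
  have := Fintype.card_le_of_injective f hf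
  simp at this

lemma exists_large_left (ℓ : ℕ) (k : ℤ) : ∃ i : ℕ, ℓ ≤ Q.q (k - i) := by
  by_contra hcon
  push Not at hcon
  let f : Fin (ℓ + 1) → Fin ℓ := fun i => ⟨Q.q (k - (i : ℕ)), hcon i⟩
  have hf : Function.Injective f := by
    intro i j hij
    have h1 : Q.q (k - ((i : ℕ) : ℤ)) = Q.q (k - ((j : ℕ) : ℤ)) := congrArg Fin.val hij
    have h2 := Q.inj h1
    apply Fin.ext
    omega
  have := Fintype.card_le_of_injective f hf
  simp at this

/-- A double ray with a vertex below `ℓ` crosses layer `ℓ` outwards. -/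
lemma ex_used_pos {ℓ : ℕ} (h : ∃ k, Q.q k < ℓ) : ∃ t : St, t.pos = true ∧ Q.used ℓ t := by
  obtain ⟨k, hk⟩ := h
  have hex := Q.exists_large_right ℓ k
  classical
  set i := Nat.find hex with hi
  have hi1 : ℓ ≤ Q.q (k + i) := Nat.find_spec hex
  have hi0 : i ≠ 0 := by
    intro h0
    rw [h0] at hi1
    simp at hi1
    omega
  obtain ⟨j, hj⟩ := Nat.exists_eq_succ_of_ne_zero hi0
  have hj1 : Q.q (k + j) < ℓ := by
    have := Nat.find_min hex (m := j) (by omega)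
    omega
  have e : k + (i : ℤ) = (k + j) + 1 := by rw [hj]; push_cast; ring
  rw [e] at hi1
  rcases Q.es (k + j) with ⟨hp, hx⟩ | ⟨hp, hx⟩
  · exact ⟨_, hp, k + j, rfl, Or.inl ⟨hp, hj1, hi1⟩⟩
  · have := hx.1
    omega

/-- A double ray with a vertex below `ℓ` crosses layer `ℓ` inwards. -/
lemma ex_used_neg {ℓ : ℕ} (h : ∃ k, Q.q k < ℓ) : ∃ t : St, t.pos = false ∧ Q.used ℓ t := by
  obtain ⟨k, hk⟩ := h
  have hex := Q.exists_large_left ℓ k
  classical
  set i := Nat.find hex with hi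
  have hi1 : ℓ ≤ Q.q (k - i) := Nat.find_spec hex
  have hi0 : i ≠ 0 := by
    intro h0
    rw [h0] at hi1
    simp at hi1
    omega
  obtain ⟨j, hj⟩ := Nat.exists_eq_succ_of_ne_zero hi0
  have hj1 : Q.q (k - j) < ℓ := by
    have := Nat.find_min hex (m := j) (by omega)
    omega
  have e : k - (j : ℤ) = (k - i) + 1 := by rw [hj]; push_cast; ring
  rw [e] at hj1
  rcases Q.es (k - i) with ⟨hp, hx⟩ | ⟨hp, hx⟩
  · have := hx.1
    omega
  · exact ⟨_, hp, k - i, rfl, Or.inr ⟨hp, hj1, hi1⟩⟩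

end Ray2

end Pool.Agent.H4.Ray
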