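import Pool.Agent.H4.Ray.Seq

/-!
There is no infinite family of disjoint double rays.
-/

namespace Pool.Agent.H4.Ray

open Ray2

lemma follows_mem {e : ℕ → Ev} {ℓ : ℕ} {es : List Ev} (h : Follows e ℓ es) {x : Ev} (hx : x ∈ es) :
    ∃ z, ℓ ≤ z ∧ z < ℓ + es.length ∧ e z = x := by
  obtain ⟨i, hi, rfl⟩ := List.mem_iff_getElem.1 hx
  exact ⟨ℓ + i, by omega, by omega, follows_get h i hi⟩

lemma follows_all {e : ℕ → Ev} {ℓ : ℕ} {es : List Ev} (h : Follows e ℓ es) {z : ℕ} (hz : ℓ ≤ z)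
    (hz' : z < ℓ + es.length) : e z ∈ es := by
  obtain ⟨i, rfl⟩ := Nat.exists_eq_add_of_le hz
  rw [follows_get h i (by omega)]
  exact List.getElem_mem _

lemma seg1_ev (n : ℕ) : Seg1 ev (offB n) (offA n) := by
  refine ⟨by unfold offA; omega, fun z hz hz' => ?_⟩
  obtain ⟨x, y, h1, h2, h3, _⟩ := Z1_form (follows_all (follows_Z1 n) hz hz')
  exact ⟨x, y, h1, h2, h3⟩

lemma seg2_ev (n : ℕ) : Seg2 ev (offA n) (off (n + 1)) := by
  rw [off_succ]
  refine ⟨by omega, fun z hz hz' => ?_⟩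
  obtain ⟨x, y, h1, h2⟩ := mem_Z2.1 (follows_all (follows_Z2 n) hz hz')
  obtain ⟨x', y', h3, h4, h5, _⟩ := Z1_form h1
  injection h3 with e1 e2
  subst e1 e2
  exact ⟨y, x, h2, h5, h4⟩

lemma ex_cross1 {n : ℕ} {x y : St} (hx : x.pos = false) (hx' : x ∈ Bl (n + 1))
    (hy : y.pos = true) (hy' : y ∈ Bl (n + 1)) (h : x.lev ≠ y.lev) :
    ∃ z, offB n ≤ z ∧ z < offA n ∧ ev z = .cross x y := by
  rw [mem_Bl] at hx' hy'
  exact follows_mem (follows_Z1 n) (Z1_cross hx hx'.2 (by omega) hy hy'.2 (by omega) h)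

lemma ex_cross2 {n : ℕ} {x y : St} (hx : x.pos = false) (hx' : x ∈ Bl (n + 1))
    (hy : y.pos = true) (hy' : y ∈ Bl (n + 1)) (h : x.lev ≠ y.lev) :
    ∃ z, offA n ≤ z ∧ z < off (n + 1) ∧ ev z = .cross y x := by
  rw [mem_Bl] at hx' hy'
  rw [off_succ]
  exact follows_mem (follows_Z2 n)
    (mem_Z2.2 ⟨x, y, Z1_cross hx hx'.2 (by omega) hy hy'.2 (by omega) h, rfl⟩)

lemma used_old {Q : Ray2 ev} {ℓ : ℕ} {t : St} (h : Q.used ℓ t) : ∃ z < ℓ, (ev z).Inv t := by
  obtain ⟨k, rfl, hk⟩ := h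
  rcases hk with ⟨_, h1, _⟩ | ⟨_, h1, _⟩
  · exact ⟨_, h1, Q.inv_left k⟩
  · exact ⟨_, h1, Q.inv_right k⟩

lemma used_mem_offB {Q : Ray2 ev} {n : ℕ} {t : St} (h : Q.used (offB n) t) : t ∈ Bl (n + 1) := by
  obtain ⟨z, hz, ht⟩ := used_old h
  exact mem_offB hz ht

lemma used_mem_offA {Q : Ray2 ev} {n : ℕ} {t : St} (h : Q.used (offA n) t) : t ∈ Bl (n + 1) := by
  obtain ⟨z, hz, ht⟩ := used_old h
  exact mem_offA hz ht

/-- Two double rays using the same strand at the same layer share a vertex. -/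
lemma used_share {e : ℕ → Ev} (Q Q' : Ray2 e) {ℓ : ℕ} {t : St} (h : Q.used ℓ t)
    (h' : Q'.used ℓ t) : ∃ k k', Q.q k = Q'.q k' := by
  obtain ⟨k, hkt, hk⟩ := h
  obtain ⟨k', hkt', hk'⟩ := h'
  have es := Q.es k
  have es' := Q'.es k'
  rw [hkt] at es
  rw [hkt'] at es'
  unfold Es at es es'
  cases hp : t.pos
  · simp only [hp, Bool.false_eq_true, false_and, true_and, false_or] at hk hk' es es'
    refine ⟨k + 1, k' + 1, ?_⟩
    by_contra hne
    rcases lt_or_gt_of_ne hne with h | h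
    · exact es.2.2.2 _ h (by omega) es'.2.1
    · exact es'.2.2.2 _ h (by omega) es.2.1
  · simp only [hp, Bool.true_eq_false, false_and, true_and, or_false] at hk hk' es es'
    refine ⟨k, k', ?_⟩
    by_contra hne
    rcases lt_or_gt_of_ne hne with h | h
    · exact es.2.2.2 _ h (by omega) es'.2.1
    · exact es'.2.2.2 _ h (by omega) es.2.1

lemma coh_adj {Q : Ray2 ev} {ℓ : ℕ} {A B : List St} {x y : St}
    (h : Q.Coh ℓ ((A ++ x :: y :: B : List St) : Cycle St)) : Q.D ℓ x = Q.U ℓ y := by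
  rw [cyc_rot] at h
  unfold Coh at h
  rw [List.cons_append, Cycle.chain_coe_cons, List.cons_append, List.cons_append,
    List.isChain_cons_cons] at h
  exact h.1

lemma coh_get {Q : Ray2 ev} {ℓ : ℕ} {A L B : List St}
    (h : Q.Coh ℓ ((A ++ (L ++ B) : List St) : Cycle St)) {i : ℕ} (hi : i + 1 < L.length) :
    Q.D ℓ L[i] = Q.U ℓ L[i + 1] := by
  have e : L = L.take i ++ L[i] :: L[i + 1] :: L.drop (i + 2) := by
    conv_lhs => rw [← List.take_append_drop i L]
    rw [List.drop_eq_getElem_cons (by omega), List.drop_eq_getElem_cons hi]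
  have e2 : A ++ (L ++ B) = (A ++ L.take i) ++ L[i] :: L[i + 1] :: (L.drop (i + 2) ++ B) := by
    have := congrArg (fun l => A ++ (l ++ B)) e
    simp only [List.append_assoc, List.cons_append] at this ⊢
    exact this
  rw [e2] at h
  exact coh_adj h

/-- The labels along the used strands. -/
def LC (Q : Ray2 ev) (C : ℤ) : Prop := ∀ ℓ t, Q.used ℓ t →
    (t.pos = true → Q.U ℓ t = C + 1 ∧ Q.D ℓ t = C) ∧
    (t.pos = false → Q.U ℓ t = C ∧ Q.D ℓ t = C + 1)

lemma u_not_used {Q : Ray2 ev} {ℓ : ℕ} {t : St} (h : ¬ Q.used ℓ t) : Q.D ℓ t = Q.U ℓ t := by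
  unfold D u
  rw [if_neg h, sub_zero]

lemma mid_split {n α : ℕ} (hα : α ≤ n) : ∃ A B, mid n = A ++ ((M α ++ P α) ++ B) := by
  unfold mid
  obtain ⟨d, hd⟩ := Nat.exists_eq_add_of_le (show α + 1 ≤ n + 1 by omega)
  refine ⟨(List.range α).flatMap (fun c => M c ++ P c),
    ((List.range d).map (fun x => α + 1 + x)).flatMap (fun c => M c ++ P c), ?_⟩
  rw [hd, List.range_add, List.flatMap_append, List.range_succ, List.flatMap_append]
  simp

lemma M_length (l : ℕ) : (M l).length = l + 1 := by simp [M]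

lemma P_length (l : ℕ) : (P l).length = l + 1 := by simp [P]

/-- In the middle cyclic order an incoming used strand is followed by outgoing strands of the same
level with a large label. -/
lemma mid_contra {Q : Ray2 ev} {C : ℤ} (hC : LC Q C) {n : ℕ} {t : St} (ht : t ∈ Bl (n + 1))
    (hp : t.pos = false) (hD : Q.D (offA n) t = C + 1) :
    ∃ y ∈ Bl (n + 1), y.lev = t.lev ∧ y.pos = true ∧ Q.U (offA n) y = C + 1 := by
  rw [mem_Bl] at ht
  obtain ⟨A, B, hAB⟩ := mid_split (show t.lev ≤ n by omega)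
  have hcoh := coh_offA Q n
  rw [hAB] at hcoh
  set α := t.lev with hα
  have hlen : (M α ++ P α).length = 2 * (α + 1) := by
    rw [List.length_append, M_length, P_length]; ring
  have hM : ∀ i (hi : i ≤ α), (M α ++ P α)[i]'(by omega) = ⟨α, i, false⟩ := by
    intro i hi
    rw [List.getElem_append_left (by rw [M_length]; omega)]
    simp [M]
  have key : ∀ d, t.idx + d ≤ α → Q.D (offA n) ⟨α, t.idx + d, false⟩ = C + 1 := by
    intro d
    induction d with
    | zero =>
      intro _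
      have : (⟨α, t.idx + 0, false⟩ : St) = t := (St_eq rfl rfl hp).symm
      rw [this]
      exact hD
    | succ d ih =>
      intro hd
      have h1 := ih (by omega)
      have h2 := coh_get hcoh (i := t.idx + d) (by omega)
      rw [hM _ (by omega), hM _ (by omega), h1] at h2
      have e : t.idx + (d + 1) = t.idx + d + 1 := rfl
      rw [e]
      by_cases hu : Q.used (offA n) ⟨α, t.idx + d + 1, false⟩
      · have := ((hC _ _ hu).2 rfl).1
        omega
      · rw [u_not_used hu, ← h2]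
  have h1 := key (α - t.idx) (by omega)
  rw [show t.idx + (α - t.idx) = α by omega] at h1
  have h2 := coh_get hcoh (i := α) (by omega)
  rw [hM _ le_rfl, h1] at h2
  have h3 : (M α ++ P α)[α + 1]'(by omega) = ⟨α, α, true⟩ := by
    rw [List.getElem_append_right (by rw [M_length])]
    simp [M, P]
  rw [h3] at h2
  exact ⟨⟨α, α, true⟩, mem_Bl.2 ⟨ht.1, le_rfl⟩, rfl, rfl, h2.symm⟩

def PH (Q : Ray2 ev) (C : ℤ) (l n : ℕ) : Prop :=
  ∀ t ∈ Bl (n + 1), t.lev ≠ l → Q.U (offA n) t ≤ C ∧ Q.D (offA n) t ≤ C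

def PF (Q : Ray2 ev) (C : ℤ) (l n : ℕ) : Prop :=
  ∀ t ∈ Bl (n + 1), t.lev ≠ l → C + 1 ≤ Q.U (off (n + 1)) t ∧ C + 1 ≤ Q.D (off (n + 1)) t

def PB (Q : Ray2 ev) (C : ℤ) (l n : ℕ) : Prop :=
  ∀ t ∈ Bl (n + 1), t.lev ≠ l → C + 1 ≤ Q.U (offB n) t ∧ C + 1 ≤ Q.D (offB n) t

lemma offB_le_offA (n : ℕ) : offB n ≤ offA n := (seg1_ev n).1

lemma offA_le_off (n : ℕ) : offA n ≤ off (n + 1) := (seg2_ev n).1

lemma off_le_offB (n : ℕ) : off n ≤ offB n := by unfold offB; omega

lemma init {Q : Ray2 ev} {C : ℤ} (hC : LC Q C) {n : ℕ} (hk : ∃ k, Q.q k < offB n) :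
    ∃ l ≤ n, PH Q C l n ∧ ∀ t, Q.used (offB n) t → t.lev = l := by
  have hL := loc_ev Q
  have hk' : ∃ k, Q.q k < offA n := by
    obtain ⟨k, hk⟩ := hk
    exact ⟨k, lt_of_lt_of_le hk (offB_le_offA n)⟩
  -- labels of incoming strands of level different from that of a used outgoing strand
  have A1 : ∀ j, Q.used (offB n) j → j.pos = true → ∀ x ∈ Bl (n + 1), x.pos = false →
      x.lev ≠ j.lev → Q.U (offA n) x ≤ C ∧ Q.D (offA n) x ≤ C := by
    intro j hj hjp x hx hxp hne
    obtain ⟨z, h1, h2, h3⟩ := ex_cross1 hxp hx hjp (used_mem_offB hj) hne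
    exact (seg1_cross hL (seg1_ev n) h1 h2 h3 C).1 ((hC _ _ hj).1 hjp).2.le
  have A2 : ∀ i, Q.used (offB n) i → i.pos = false → ∀ y ∈ Bl (n + 1), y.pos = true →
      y.lev ≠ i.lev → Q.U (offA n) y ≤ C ∧ Q.D (offA n) y ≤ C := by
    intro i hi hip y hy hyp hne
    obtain ⟨z, h1, h2, h3⟩ := ex_cross1 hip (used_mem_offB hi) hyp hy (Ne.symm hne)
    exact (seg1_cross hL (seg1_ev n) h1 h2 h3 C).2 ((hC _ _ hi).2 hip).1.le
  have key : ∀ i j, Q.used (offB n) i → i.pos = false → Q.used (offB n) j → j.pos = true →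
      i.lev = j.lev := by
    intro i j hi hip hj hjp
    by_contra hne
    obtain ⟨i', hip', hi'⟩ := Q.ex_used_neg hk'
    have hD := ((hC _ _ hi').2 hip').2
    have hmem := used_mem_offA hi'
    have hlev : i'.lev = j.lev := by
      by_contra h
      have := (A1 j hj hjp i' hmem hip' h).2
      omega
    obtain ⟨y, hy, hyl, hyp, hyU⟩ := mid_contra hC hmem hip' hD
    have := (A2 i hi hip y hy hyp (by rw [hyl, hlev]; exact Ne.symm hne)).1
    omega
  obtain ⟨j, hjp, hj⟩ := Q.ex_used_pos hk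
  obtain ⟨i, hip, hi⟩ := Q.ex_used_neg hk
  have hij := key i j hi hip hj hjp
  refine ⟨j.lev, ?_, ?_, ?_⟩
  · have := mem_Bl.1 (used_mem_offB hj)
    omega
  · intro t ht hne
    cases hp : t.pos
    · exact A1 j hj hjp t ht hp hne
    · exact A2 i hi hip t ht hp (by rw [hij]; exact hne)
  · intro t ht
    cases hp : t.pos
    · exact key t j ht hp hj hjp
    · rw [← hij]; exact (key i t hi hip ht hp).symm

lemma PF_of_PH {Q : Ray2 ev} {C : ℤ} (hC : LC Q C) {l n : ℕ} (hk : ∃ k, Q.q k < offA n)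
    (h : PH Q C l n) : PF Q C l n := by
  have hL := loc_ev Q
  obtain ⟨j, hjp, hj⟩ := Q.ex_used_pos hk
  obtain ⟨i, hip, hi⟩ := Q.ex_used_neg hk
  have hj1 := (hC _ _ hj).1 hjp
  have hi1 := (hC _ _ hi).2 hip
  have hjl : j.lev = l := by
    by_contra hne
    have := (h j (used_mem_offA hj) hne).1
    omega
  have hil : i.lev = l := by
    by_contra hne
    have := (h i (used_mem_offA hi) hne).2
    omega
  intro t ht hne
  cases hp : t.pos
  · obtain ⟨z, h1, h2, h3⟩ := ex_cross2 hp ht hjp (used_mem_offA hj) (by rw [hjl]; exact hne)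
    exact (seg2_cross hL (seg2_ev n) h1 h2 h3 (C + 1)).2 hj1.1.ge
  · obtain ⟨z, h1, h2, h3⟩ := ex_cross2 hip (used_mem_offA hi) hp ht
      (by rw [hil]; exact Ne.symm hne)
    exact (seg2_cross hL (seg2_ev n) h1 h2 h3 (C + 1)).1 hi1.2.ge

/-- Moving an outgoing strand down increases the labels of the other strands. -/
lemma down_mono {Q : Ray2 ev} (hL : Q.Loc) {w : St} (hw : w.pos = true) {m n : ℕ} (hmn : m ≤ n)
    (h : ∀ z, m ≤ z → z < n → ∃ s, ev z = .cross w s) {t : St} (ht : t ≠ w) :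
    Q.U m t ≤ Q.U n t ∧ Q.D m t ≤ Q.D n t := by
  obtain ⟨d, rfl⟩ := Nat.exists_eq_add_of_le hmn
  induction d with
  | zero => exact ⟨le_rfl, le_rfl⟩
  | succ d ih =>
    have ih' := ih (by omega) (fun z hz hz' => h z hz (by omega))
    obtain ⟨s, he⟩ := h (m + d) (by omega) (by omega)
    rw [← add_assoc]
    by_cases h2 : t = s
    · have := up_of_pos hL he hw
      rw [h2] at ih' ⊢
      omega
    · have hni : ¬ (ev (m + d)).Inv t := by
        rw [he]
        rintro (h | h)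
        · exact ht h
        · exact h2 h
      rw [Q.U_succ_of_not_inv hni, Q.D_succ_of_not_inv hni]
      exact ih'

lemma gst_last {n i : ℕ} (hi : i ≤ n + 2) :
    ∃ A x, gst (n + 2) i = ⟨0, 0, true⟩ :: (A ++ [x]) ∧ x.lev ≠ 0 := by
  obtain ⟨T, hT⟩ := Bl_head (n + 1)
  cases i with
  | zero =>
    have h1 : ∃ A', Bl (n + 2) = ⟨0, 0, true⟩ :: (A' ++ [⟨n + 1, n + 1, false⟩]) := by
      obtain ⟨T', hT'⟩ := Bl_head n
      refine ⟨T' ++ (P (n + 1) ++ (List.range (n + 1)).map (fun i => ⟨n + 1, i, false⟩)), ?_⟩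
      have : Bl (n + 2) = Bl (n + 1) ++ (P (n + 1) ++ M (n + 1)) := rfl
      rw [this, hT']
      have h2 : M (n + 1) = (List.range (n + 1)).map (fun i => (⟨n + 1, i, false⟩ : St)) ++
          [⟨n + 1, n + 1, false⟩] := by
        unfold M
        rw [List.range_succ, List.map_append]
        rfl
      rw [h2]
      simp
    obtain ⟨A', hA'⟩ := h1
    refine ⟨A', ⟨n + 1, n + 1, false⟩, ?_, by simp⟩
    unfold gst
    rw [blk_zero, List.append_nil, hA']
  | succ i =>
    refine ⟨T ++ (⟨n + 2, i, true⟩ :: blk (n + 2) i), ⟨n + 2, i, false⟩, ?_, by simp⟩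
    unfold gst
    rw [hT, blk_succ]
    simp

lemma G_inv {Q : Ray2 ev} {C : ℤ} (hC : LC Q C) {l n : ℕ} (hl : l ≤ n + 1)
    (h : PF Q C l (n + 1)) (i : ℕ) (hi : i ≤ n + 3) :
    ∀ t ∈ gst (n + 2) i, t.lev ≠ l →
      C + 1 ≤ Q.U (goff (n + 2) i) t ∧ C + 1 ≤ Q.D (goff (n + 2) i) t := by
  have hL := loc_ev Q
  induction i with
  | zero =>
    intro t ht hne
    rw [goff_zero]
    unfold gst at ht
    rw [blk_zero, List.append_nil] at ht
    exact h t ht hne
  | succ i ih =>
    have ih' := ih (by omega)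
    set m := goff (n + 2) i with hm
    have hfol : Follows ev m (Gi (n + 2) i) := follows_Gi (by omega)
    have he : ev m = .birth (n + 2) i ⟨0, 0, true⟩ := hfol.1
    have hc_mem : (⟨0, 0, true⟩ : St) ∈ gst (n + 2) i := by
      unfold gst
      rw [List.mem_append, mem_Bl]
      left
      simp
    -- the label of the gap of the birth
    have hg : C + 1 ≤ Q.U m ⟨0, 0, true⟩ := by
      by_cases hl0 : l = 0
      · obtain ⟨A, x, hA, hx⟩ := gst_last (n := n) (i := i) (by omega)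
        have hcoh := coh_goff Q (n := n + 2) (i := i) (by omega)
        have hxm : x ∈ gst (n + 2) i := by rw [hA]; simp
        rw [hA] at hcoh
        have e : (((⟨0, 0, true⟩ : St) :: (A ++ [x]) : List St) : Cycle St) =
            (([] ++ x :: ⟨0, 0, true⟩ :: A : List St) : Cycle St) := by
          have := cyc_rot ((⟨0, 0, true⟩ : St) :: A) [x]
          simpa using this
        rw [e] at hcoh
        have hadj := coh_adj hcoh
        rw [← hm] at hadj
        rw [← hadj]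
        exact (ih' x hxm (by rw [hl0]; exact hx)).2
      · exact (ih' _ hc_mem (Ne.symm hl0)).1
    obtain ⟨b1, b2, b3⟩ := birth_labels (Q := Q) fresh_ev he
    -- the incoming strand is not used
    have hw : Q.D (m + 1) ⟨n + 2, i, false⟩ = Q.U (m + 1) ⟨n + 2, i, false⟩ := by
      apply u_not_used
      intro hu
      have := ((hC _ _ hu).2 rfl).1
      omega
    have hsuc : goff (n + 2) (i + 1) = m + 1 + (Bl (n + 2)).length := by
      rw [goff_succ]
      unfold Gi
      rw [List.length_cons, List.length_map]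
      omega
    have hseg : ∀ z, m + 1 ≤ z → z < goff (n + 2) (i + 1) →
        ∃ s, ev z = .cross ⟨n + 2, i, true⟩ s := by
      intro z hz hz'
      have h2 := follows_all hfol.2 (z := z) hz (by rw [List.length_map, ← hsuc]; exact hz')
      rw [List.mem_map] at h2
      obtain ⟨s, _, hs⟩ := h2
      exact ⟨s, hs.symm⟩
    have hmono : ∀ t, t ≠ (⟨n + 2, i, true⟩ : St) →
        Q.U (m + 1) t ≤ Q.U (goff (n + 2) (i + 1)) t ∧
          Q.D (m + 1) t ≤ Q.D (goff (n + 2) (i + 1)) t :=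
      fun t ht => down_mono hL rfl (by omega) hseg ht
    -- all strands but the new outgoing one
    have hmost : ∀ t ∈ gst (n + 2) (i + 1), t ≠ (⟨n + 2, i, true⟩ : St) → t.lev ≠ l →
        C + 1 ≤ Q.U (goff (n + 2) (i + 1)) t ∧ C + 1 ≤ Q.D (goff (n + 2) (i + 1)) t := by
      intro t ht hne hlev
      have hm1 := hmono t hne
      by_cases hw' : t = (⟨n + 2, i, false⟩ : St)
      · rw [hw'] at hm1 ⊢
        omega
      · have htm : t ∈ gst (n + 2) i := by
          unfold gst at ht ⊢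
          rw [blk_succ] at ht
          simp only [List.mem_append, List.mem_cons, List.not_mem_nil, or_false] at ht ⊢
          tauto
        have hni : ¬ (ev m).Inv t := by
          rw [he]
          rintro ⟨h1, h2⟩
          cases hp : t.pos
          · exact hw' (St_eq h1 h2 hp)
          · exact hne (St_eq h1 h2 hp)
        have h3 := ih' t htm hlev
        rw [Q.U_succ_of_not_inv hni, Q.D_succ_of_not_inv hni] at hm1
        omega
    intro t ht hlev
    by_cases hne : t = (⟨n + 2, i, true⟩ : St)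
    · subst hne
      obtain ⟨x, T, hxT, hx⟩ : ∃ x T, blk (n + 2) i ++ [(⟨n + 2, i, false⟩ : St)] = x :: T ∧
          (x ∈ blk (n + 2) i ∨ x = ⟨n + 2, i, false⟩) := by
        cases hb : blk (n + 2) i with
        | nil => exact ⟨_, [], rfl, Or.inr rfl⟩
        | cons y ys => exact ⟨y, ys ++ [⟨n + 2, i, false⟩], rfl, Or.inl (by simp)⟩
      have hcoh := coh_goff Q (n := n + 2) (i := i + 1) (by omega)
      have e : gst (n + 2) (i + 1) = Bl (n + 2) ++ ⟨n + 2, i, true⟩ :: x :: T := by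
        unfold gst
        rw [blk_succ, hxT]
      have hxm : x ∈ gst (n + 2) (i + 1) := by rw [e]; simp
      rw [e] at hcoh
      have hadj := coh_adj hcoh
      have hxlev : x.lev = n + 2 := by
        rcases hx with hx | rfl
        · exact (mem_blk.1 hx).1
        · rfl
      have hxne : x ≠ (⟨n + 2, i, true⟩ : St) := by
        rcases hx with hx | rfl
        · have := (mem_blk.1 hx).2
          rintro rfl
          simp at this
        · simp
      have h4 := (hmost x hxm hxne (by omega)).1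
      have h5 := Q.u_le_one (goff (n + 2) (i + 1)) ⟨n + 2, i, true⟩ rfl
      have h6 := U_eq (Q := Q) (goff (n + 2) (i + 1)) ⟨n + 2, i, true⟩
      omega
    · exact hmost t ht hne hlev

lemma PB_of_PF {Q : Ray2 ev} {C : ℤ} (hC : LC Q C) {l n : ℕ} (hl : l ≤ n + 1)
    (h : PF Q C l (n + 1)) : PB Q C l (n + 2) := by
  intro t ht hne
  have := G_inv hC hl h (n + 3) le_rfl
  exact this t ht hne

/-- Eventually the labels and the used strands are governed by one level. -/
lemma eventually_level (Q : Ray2 ev) : ∃ C : ℤ, LC Q C ∧ ∃ l N : ℕ, ∀ n, N ≤ n →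
    PH Q C l n ∧ PB Q C l n ∧ (∀ t, Q.used (offB n) t → t.lev = l) ∧ ∃ k, Q.q k < offB n := by
  obtain ⟨C, hC⟩ := labels_const (loc_ev Q)
  refine ⟨C, hC, ?_⟩
  set N0 := Q.q 0 + 1 with hN0
  have hk : ∀ n, N0 ≤ n → ∃ k, Q.q k < offB n := by
    intro n hn
    refine ⟨0, ?_⟩
    have := le_off n
    have := off_le_offB n
    omega
  obtain ⟨l, hl, hPH, hlev⟩ := init hC (hk N0 le_rfl)
  have key : ∀ d, PH Q C l (N0 + d) ∧ (d ≠ 0 → PB Q C l (N0 + d)) ∧
      (∀ t, Q.used (offB (N0 + d)) t → t.lev = l) := by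
    intro d
    induction d with
    | zero => exact ⟨hPH, fun h => absurd rfl h, hlev⟩
    | succ d ih =>
      obtain ⟨n, hn⟩ : ∃ n, N0 + d = n + 1 := ⟨Q.q 0 + d, by omega⟩
      have hka : ∃ k, Q.q k < offA (N0 + d) := by
        obtain ⟨k, hk'⟩ := hk (N0 + d) (by omega)
        exact ⟨k, lt_of_lt_of_le hk' (offB_le_offA _)⟩
      have hPF := PF_of_PH hC hka ih.1
      rw [hn] at hPF
      have hPB := PB_of_PF hC (by omega) hPF
      have e : N0 + (d + 1) = n + 2 := by omega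
      rw [e]
      obtain ⟨l', hl', hPH', hlev'⟩ := init hC (n := n + 2) (hk (n + 2) (by omega))
      have hll : l' = l := by
        obtain ⟨j, hjp, hj⟩ := Q.ex_used_pos (hk (n + 2) (by omega))
        rw [← hlev' j hj]
        by_contra hne
        have h1 := (hPB j (used_mem_offB hj) hne).2
        have h2 := ((hC _ _ hj).1 hjp).2
        omega
      subst hll
      exact ⟨hPH', fun _ => hPB, hlev'⟩
  refine ⟨l, N0 + 1, fun n hn => ?_⟩
  obtain ⟨d, rfl⟩ := Nat.exists_eq_add_of_le (show N0 ≤ n by omega)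
  obtain ⟨h1, h2, h3⟩ := key d
  exact ⟨h1, h2 (by omega), h3, hk _ (by omega)⟩

/-- No infinite family of pairwise disjoint double rays. -/
theorem no_infinite (R : ℕ → Ray2 ev)
    (hd : ∀ i j, i ≠ j → ∀ k k', (R i).q k ≠ (R j).q k') : False := by
  choose C hC l N hN using fun i => eventually_level (R i)
  have hll : ∀ i, l i = l 0 := by
    intro i
    by_contra hne
    have hi0 : i ≠ 0 := by rintro rfl; exact hne rfl
    obtain ⟨ψ, hψ⟩ := labels_const_other (loc_ev (R 0)) (R i) (hd 0 i (Ne.symm hi0))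
    set n := max (N 0) (N i) with hn
    obtain ⟨a1, a2, a3, a4⟩ := hN 0 n (le_max_left _ _)
    obtain ⟨b1, b2, b3, b4⟩ := hN i n (le_max_right _ _)
    obtain ⟨t, htp, ht⟩ := (R i).ex_used_pos b4
    have h1 := (a2 t (used_mem_offB ht) (by rw [b3 t ht]; exact hne)).1
    rw [(hψ _ _ ht).1] at h1
    have b5 : ∃ k, (R i).q k < offA n := by
      obtain ⟨k, hk⟩ := b4
      exact ⟨k, lt_of_lt_of_le hk (offB_le_offA n)⟩
    obtain ⟨t', htp', ht'⟩ := (R i).ex_used_pos b5
    have hlev : t'.lev = l i := by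
      by_contra h
      have := (b1 t' (used_mem_offA ht') h).1
      have := ((hC i _ _ ht').1 htp').1
      omega
    have h2 := (a1 t' (used_mem_offA ht') (by rw [hlev]; exact hne)).1
    rw [(hψ _ _ ht').1] at h2
    omega
  set L := l 0 with hL
  obtain ⟨n, hn⟩ : ∃ n, ∀ i ≤ L + 1, N i ≤ n := by
    refine ⟨(Finset.range (L + 2)).sup N, fun i hi => ?_⟩
    exact Finset.le_sup (f := N) (Finset.mem_range.2 (by omega))
  have hex : ∀ i : Fin (L + 2), ∃ t : St, t.pos = true ∧ (R i).used (offB n) t ∧ t.lev = L ∧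
      t.idx ≤ L := by
    intro i
    obtain ⟨b1, b2, b3, b4⟩ := hN i n (hn i (by omega))
    obtain ⟨t, htp, ht⟩ := (R i).ex_used_pos b4
    have hlev := b3 t ht
    rw [hll] at hlev
    have := mem_Bl.1 (used_mem_offB ht)
    exact ⟨t, htp, ht, hlev, by omega⟩
  choose t ht using hex
  let f : Fin (L + 2) → Fin (L + 1) := fun i => ⟨(t i).idx, by have := (ht i).2.2.2; omega⟩
  have hf : ¬ Function.Injective f := by
    intro h
    have := Fintype.card_le_of_injective f h
    simp at this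
  unfold Function.Injective at hf
  push Not at hf
  obtain ⟨i, j, hij, hne⟩ := hf
  have e1 : (t i).idx = (t j).idx := congrArg Fin.val hij
  have e2 : t i = t j := by
    have h1 : t i = ⟨L, (t i).idx, true⟩ := St_eq (ht i).2.2.1 rfl (ht i).1
    have h2 : t j = ⟨L, (t j).idx, true⟩ := St_eq (ht j).2.2.1 rfl (ht j).1
    rw [h1, h2, e1]
  have h3 := (ht i).2.1
  rw [e2] at h3
  obtain ⟨k, k', hkk⟩ := used_share _ _ h3 (ht j).2.1
  exact hd i j (fun h => hne (Fin.ext h)) k k' hkk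

end Pool.Agent.H4.Ray
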