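import Pool.Agent.H4.Ray.Coh

/-!
The sequence of events of the example.
-/

namespace Pool.Agent.H4.Ray

/-- Outgoing strands of level `l`. -/
def P (l : ℕ) : List St := (List.range (l + 1)).reverse.map (fun i => ⟨l, i, true⟩)

/-- Incoming strands of level `l`. -/
def M (l : ℕ) : List St := (List.range (l + 1)).map (fun i => ⟨l, i, false⟩)

/-- The first `i` wires of level `n`. -/
def blk (n i : ℕ) : List St :=
  (List.range i).reverse.map (fun j => (⟨n, j, true⟩ : St)) ++
    (List.range i).map (fun j => (⟨n, j, false⟩ : St))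

/-- The strands of the levels below `n`. -/
def Bl : ℕ → List St
  | 0 => []
  | n + 1 => Bl n ++ (P n ++ M n)

lemma blk_full (n : ℕ) : blk n (n + 1) = P n ++ M n := rfl

lemma blk_zero (n : ℕ) : blk n 0 = [] := rfl

lemma blk_succ (n i : ℕ) : blk n (i + 1) = ⟨n, i, true⟩ :: (blk n i ++ [⟨n, i, false⟩]) := by
  unfold blk
  rw [List.range_succ, List.reverse_append, List.map_append, List.map_append]
  simp

lemma mem_P {l : ℕ} {s : St} : s ∈ P l ↔ s.lev = l ∧ s.idx ≤ l ∧ s.pos = true := by
  unfold P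
  simp only [List.mem_map, List.mem_reverse, List.mem_range]
  constructor
  · rintro ⟨i, hi, rfl⟩; exact ⟨rfl, by simpa using Nat.lt_succ_iff.1 hi, rfl⟩
  · rintro ⟨h1, h2, h3⟩; exact ⟨s.idx, by omega, by cases s; simp_all⟩

lemma mem_M {l : ℕ} {s : St} : s ∈ M l ↔ s.lev = l ∧ s.idx ≤ l ∧ s.pos = false := by
  unfold M
  simp only [List.mem_map, List.mem_range]
  constructor
  · rintro ⟨i, hi, rfl⟩; exact ⟨rfl, by simpa using Nat.lt_succ_iff.1 hi, rfl⟩
  · rintro ⟨h1, h2, h3⟩; exact ⟨s.idx, by omega, by cases s; simp_all⟩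

lemma mem_blk {n i : ℕ} {s : St} : s ∈ blk n i ↔ s.lev = n ∧ s.idx < i := by
  unfold blk
  simp only [List.mem_append, List.mem_map, List.mem_reverse, List.mem_range]
  constructor
  · rintro (⟨j, hj, rfl⟩ | ⟨j, hj, rfl⟩)
    · exact ⟨rfl, hj⟩
    · exact ⟨rfl, hj⟩
  · rintro ⟨h1, h2⟩
    obtain ⟨l, j, p⟩ := s
    simp only at h1 h2
    subst h1
    cases p
    · exact Or.inr ⟨j, h2, rfl⟩
    · exact Or.inl ⟨j, h2, rfl⟩

lemma mem_Bl {n : ℕ} {s : St} : s ∈ Bl n ↔ s.lev < n ∧ s.idx ≤ s.lev := by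
  induction n with
  | zero => simp [Bl]
  | succ n ih =>
    unfold Bl
    rw [List.mem_append, ih, List.mem_append, mem_P, mem_M]
    cases s.pos <;> simp <;> omega

/-- The events exchanging the adjacent blocks `X` (above) and `Y` (below). -/
def SW (X Y : List St) : List Ev :=
  Y.flatMap (fun y => X.reverse.map (fun x => Ev.cross x y))

lemma mem_SW {X Y : List St} {e : Ev} : e ∈ SW X Y ↔ ∃ x ∈ X, ∃ y ∈ Y, e = .cross x y := by
  unfold SW
  simp only [List.mem_flatMap, List.mem_map, List.mem_reverse]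
  constructor
  · rintro ⟨y, hy, x, hx, rfl⟩; exact ⟨x, hx, y, hy, rfl⟩
  · rintro ⟨x, hx, y, hy, rfl⟩; exact ⟨y, hy, x, hx, rfl⟩

/-- Births of the wires of level `n`; each new outgoing strand crosses all older strands. -/
def Gi (n i : ℕ) : List Ev :=
  Ev.birth n i ⟨0, 0, true⟩ :: (Bl n).map (fun s => Ev.cross ⟨n, i, true⟩ s)

/-- First phase of stage `n`. -/
def G (n : ℕ) : List Ev := (List.range (n + 1)).flatMap (fun i => Gi n i)

/-- One round of the second phase. -/
def Zr (n d : ℕ) : List Ev :=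
  (List.range (n + 1)).flatMap (fun c => SW (M c) (P ((c + (d + 1)) % (n + 1))))

/-- Second phase of stage `n`. -/
def Z1 (n : ℕ) : List Ev := (List.range n).flatMap (fun d => Zr n d)

/-- Exchange the two strands of a crossing. -/
def flip : Ev → Ev
  | .cross a b => .cross b a
  | .birth l i c => .birth l i c

/-- Third phase of stage `n`. -/
def Z2 (n : ℕ) : List Ev := (Z1 n).reverse.map flip

/-- Stage `n`. -/
def stg (n : ℕ) : List Ev := G n ++ (Z1 n ++ Z2 n)

/-! ### Cycles -/

lemma cyc_rot (A B : List St) : ((A ++ B : List St) : Cycle St) = ((B ++ A : List St) : Cycle St) :=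
  Cycle.coe_eq_coe.2 List.isRotated_append

lemma Run.cast {es : List Ev} {C C' D D' : Cycle St} (h : Run es C D) (h1 : C = C') (h2 : D = D') :
    Run es C' D' := by subst h1 h2; exact h

lemma run_swap1 (X : List St) (y : St) (Z : List St) :
    Run (X.reverse.map (fun x => Ev.cross x y)) ((X ++ y :: Z : List St) : Cycle St)
      ((y :: (X ++ Z) : List St) : Cycle St) := by
  induction X generalizing Z with
  | nil => exact Run.nil _
  | cons x X ih =>
    rw [List.reverse_cons, List.map_append]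
    have h1 := ih (Z ++ [x])
    refine Run.append (h1.cast ?_ ?_ : Run _ _ ((x :: y :: (X ++ Z) : List St) : Cycle St)) ?_
    · have := cyc_rot (X ++ y :: Z) [x]
      simpa using this
    · have := cyc_rot (y :: (X ++ Z)) [x]
      simpa using this
    · exact Run.single (Step.cross x y (X ++ Z))

lemma run_SW (X Y Z : List St) :
    Run (SW X Y) ((X ++ (Y ++ Z) : List St) : Cycle St) ((Y ++ (X ++ Z) : List St) : Cycle St) := by
  induction Y generalizing Z with
  | nil => exact Run.nil _
  | cons y Y ih =>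
    have h1 := run_swap1 X y (Y ++ Z)
    have h2 := ih (Z ++ [y])
    have : SW X (y :: Y) = X.reverse.map (fun x => Ev.cross x y) ++ SW X Y := by
      unfold SW; rw [List.flatMap_cons]
    rw [this]
    refine Run.append h1 (h2.cast ?_ ?_)
    · have := cyc_rot (X ++ (Y ++ Z)) [y]
      simpa using this
    · have := cyc_rot (Y ++ (X ++ Z)) [y]
      simpa using this

lemma run_SW' (A X Y Z : List St) :
    Run (SW X Y) ((A ++ (X ++ (Y ++ Z)) : List St) : Cycle St)
      ((A ++ (Y ++ (X ++ Z)) : List St) : Cycle St) := by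
  refine (run_SW X Y (Z ++ A)).cast ?_ ?_
  · have := cyc_rot (X ++ (Y ++ Z)) A
    simpa using this
  · have := cyc_rot (Y ++ (X ++ Z)) A
    simpa using this

lemma run_flatMap_SW (L : List ℕ) (X Y : ℕ → List St) (A : List St) :
    Run (L.flatMap (fun c => SW (X c) (Y c)))
      ((A ++ L.flatMap (fun c => X c ++ Y c) : List St) : Cycle St)
      ((A ++ L.flatMap (fun c => Y c ++ X c) : List St) : Cycle St) := by
  induction L generalizing A with
  | nil => exact Run.nil _
  | cons c L ih =>
    rw [List.flatMap_cons, List.flatMap_cons, List.flatMap_cons]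
    have h1 := run_SW' A (X c) (Y c) (L.flatMap (fun c => X c ++ Y c))
    have h2 := ih (A ++ (Y c ++ X c))
    refine Run.append (h1.cast (by simp) rfl) (h2.cast (by simp) (by simp))

lemma run_range (f : ℕ → List Ev) (S : ℕ → Cycle St) (n : ℕ)
    (h : ∀ d < n, Run (f d) (S d) (S (d + 1))) :
    Run ((List.range n).flatMap f) (S 0) (S n) := by
  induction n with
  | zero => exact Run.nil _
  | succ n ih =>
    rw [List.range_succ, List.flatMap_append]
    refine Run.append (ih fun d hd => h d (by omega)) ?_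
    have := h n (by omega)
    simpa using this

/-- Intermediate cyclic orders of the second phase. -/
def Y (n d : ℕ) : List St := (List.range (n + 1)).flatMap (fun c => M c ++ P ((c + d) % (n + 1)))

lemma flatMap_shift (A B : ℕ → List St) (n : ℕ) :
    (List.range (n + 1)).flatMap (fun c => A c ++ B c) =
      A 0 ++ ((List.range n).flatMap (fun c => B c ++ A (c + 1)) ++ B n) := by
  induction n with
  | zero => simp
  | succ n ih =>
    rw [List.range_succ, List.flatMap_append, ih, List.range_succ (n := n), List.flatMap_append]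
    simp

lemma rot_Y (n d : ℕ) :
    (((List.range (n + 1)).flatMap (fun c => P ((c + d) % (n + 1)) ++ M c) : List St) : Cycle St) =
      ((Y n (d + 1) : List St) : Cycle St) := by
  rw [flatMap_shift (fun c => P ((c + d) % (n + 1))) M n, cyc_rot]
  congr 1
  unfold Y
  rw [List.range_succ, List.flatMap_append]
  rw [List.append_assoc]
  congr 1
  · have : (fun c => M c ++ P ((c + 1 + d) % (n + 1))) =
        (fun c => M c ++ P ((c + (d + 1)) % (n + 1))) := by
      funext c
      rw [show c + 1 + d = c + (d + 1) by omega]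
    rw [this]
  · simp only [List.flatMap_cons, List.flatMap_nil, List.append_nil]
    congr 2
    rw [show n + (d + 1) = (0 + d) + (n + 1) by omega, Nat.add_mod_right]

lemma run_Zr (n d : ℕ) :
    Run (Zr n d) ((Y n (d + 1) : List St) : Cycle St) ((Y n (d + 2) : List St) : Cycle St) := by
  have := run_flatMap_SW (List.range (n + 1)) M (fun c => P ((c + (d + 1)) % (n + 1))) []
  exact this.cast rfl (rot_Y n (d + 1))

/-- The cyclic order between the second and the third phase. -/
def mid (n : ℕ) : List St := (List.range (n + 1)).flatMap (fun c => M c ++ P c)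

lemma Bl_flat (n : ℕ) : Bl n = (List.range n).flatMap (fun c => P c ++ M c) := by
  induction n with
  | zero => rfl
  | succ n ih => rw [List.range_succ, List.flatMap_append, ← ih]; simp [Bl]

lemma Y_one (n : ℕ) : ((Bl (n + 1) : List St) : Cycle St) = ((Y n 1 : List St) : Cycle St) := by
  rw [← rot_Y n 0, Bl_flat]
  congr 1
  refine List.flatMap_congr fun c hc => ?_
  rw [List.mem_range] at hc
  rw [Nat.add_zero, Nat.mod_eq_of_lt hc]

lemma Y_last (n : ℕ) : Y n (n + 1) = mid n := by
  unfold Y mid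
  refine List.flatMap_congr fun c hc => ?_
  rw [List.mem_range] at hc
  rw [Nat.add_mod_right, Nat.mod_eq_of_lt hc]

lemma run_Z1 (n : ℕ) :
    Run (Z1 n) ((Bl (n + 1) : List St) : Cycle St) ((mid n : List St) : Cycle St) := by
  have := run_range (Zr n) (fun d => ((Y n (d + 1) : List St) : Cycle St)) n
    (fun d _ => run_Zr n d)
  refine this.cast (Y_one n).symm ?_
  rw [Y_last]

lemma Step.flip {a b : St} {C C' : Cycle St} (h : Step (.cross a b) C C') :
    Step (.cross b a) C' C := by
  cases h with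
  | cross _ _ Z => exact Step.cross b a Z

lemma Run.flip {es : List Ev} {C C' : Cycle St} (h : Run es C C')
    (hc : ∀ e ∈ es, ∃ a b, e = .cross a b) : Run (es.reverse.map flip) C' C := by
  induction h with
  | nil C => exact Run.nil _
  | @cons e es C C' C'' hs _ ih =>
    rw [List.reverse_cons, List.map_append]
    refine Run.append (ih fun e he => hc e (by simp [he])) ?_
    obtain ⟨a, b, rfl⟩ := hc e (by simp)
    exact Run.single hs.flip

lemma mem_Z1 {n : ℕ} {e : Ev} : e ∈ Z1 n ↔
    ∃ c r, c ≤ n ∧ r ≤ n ∧ c ≠ r ∧ ∃ x ∈ M c, ∃ y ∈ P r, e = .cross x y := by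
  unfold Z1 Zr
  simp only [List.mem_flatMap, List.mem_range, mem_SW]
  constructor
  · rintro ⟨d, hd, c, hc, x, hx, y, hy, rfl⟩
    refine ⟨c, (c + (d + 1)) % (n + 1), by omega, ?_, ?_, x, hx, y, hy, rfl⟩
    · have := Nat.mod_lt (c + (d + 1)) (show n + 1 > 0 by omega)
      omega
    · intro h
      rcases lt_or_ge (c + (d + 1)) (n + 1) with h1 | h1
      · rw [Nat.mod_eq_of_lt h1] at h; omega
      · rw [Nat.mod_eq_sub_mod h1, Nat.mod_eq_of_lt (by omega)] at h
        omega
  · rintro ⟨c, r, hc, hr, hcr, x, hx, y, hy, rfl⟩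
    rcases lt_or_gt_of_ne hcr with h1 | h1
    · refine ⟨r - c - 1, by omega, c, by omega, x, hx, y, ?_, rfl⟩
      rw [show c + (r - c - 1 + 1) = r by omega, Nat.mod_eq_of_lt (by omega)]
      exact hy
    · refine ⟨r + (n + 1) - c - 1, by omega, c, by omega, x, hx, y, ?_, rfl⟩
      rw [show c + (r + (n + 1) - c - 1 + 1) = r + (n + 1) by omega, Nat.add_mod_right,
        Nat.mod_eq_of_lt (by omega)]
      exact hy

lemma Z1_form {n : ℕ} {e : Ev} (h : e ∈ Z1 n) : ∃ x y, e = .cross x y ∧ x.pos = false ∧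
    y.pos = true ∧ x.lev ≠ y.lev := by
  obtain ⟨c, r, hc, hr, hcr, x, hx, y, hy, rfl⟩ := mem_Z1.1 h
  rw [mem_M] at hx
  rw [mem_P] at hy
  exact ⟨x, y, rfl, hx.2.2, hy.2.2, by rw [hx.1, hy.1]; exact hcr⟩

lemma Z1_cross {n : ℕ} {x y : St} (hx : x.pos = false) (hx' : x.idx ≤ x.lev) (hx'' : x.lev ≤ n)
    (hy : y.pos = true) (hy' : y.idx ≤ y.lev) (hy'' : y.lev ≤ n) (h : x.lev ≠ y.lev) :
    Ev.cross x y ∈ Z1 n :=
  mem_Z1.2 ⟨x.lev, y.lev, hx'', hy'', h, x, mem_M.2 ⟨rfl, hx', hx⟩, y, mem_P.2 ⟨rfl, hy', hy⟩, rfl⟩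

lemma mem_Z2 {n : ℕ} {e : Ev} : e ∈ Z2 n ↔ ∃ x y, Ev.cross x y ∈ Z1 n ∧ e = .cross y x := by
  unfold Z2
  simp only [List.mem_map, List.mem_reverse]
  constructor
  · rintro ⟨e', he', rfl⟩
    obtain ⟨x, y, rfl, _⟩ := Z1_form he'
    exact ⟨x, y, he', rfl⟩
  · rintro ⟨x, y, h, rfl⟩
    exact ⟨_, h, rfl⟩

lemma run_Z2 (n : ℕ) :
    Run (Z2 n) ((mid n : List St) : Cycle St) ((Bl (n + 1) : List St) : Cycle St) :=
  (run_Z1 n).flip fun e he => by
    obtain ⟨x, y, h, _⟩ := Z1_form he
    exact ⟨x, y, h⟩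

lemma run_down (w : St) (X Z : List St) :
    Run (X.map (fun s => Ev.cross w s)) ((w :: (X ++ Z) : List St) : Cycle St)
      ((X ++ w :: Z : List St) : Cycle St) := by
  induction X generalizing Z with
  | nil => exact Run.nil _
  | cons x X ih =>
    rw [List.map_cons]
    refine Run.cons (Step.cross w x (X ++ Z)) ((ih (Z ++ [x])).cast ?_ ?_)
    · have := cyc_rot (w :: (X ++ Z)) [x]
      simpa using this
    · have := cyc_rot (X ++ w :: Z) [x]
      simpa using this

lemma Bl_head (n : ℕ) : ∃ T, Bl (n + 1) = ⟨0, 0, true⟩ :: T := by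
  induction n with
  | zero => exact ⟨[⟨0, 0, false⟩], rfl⟩
  | succ n ih =>
    obtain ⟨T, hT⟩ := ih
    exact ⟨T ++ (P (n + 1) ++ M (n + 1)), by
      conv_lhs => unfold Bl
      rw [hT]; rfl⟩

lemma step_birth (n i : ℕ) (hi : i ≤ n) :
    Step (.birth n i ⟨0, 0, true⟩) ((Bl n ++ blk n i : List St) : Cycle St)
      ((⟨n, i, false⟩ :: ⟨n, i, true⟩ :: (Bl n ++ blk n i) : List St) : Cycle St) := by
  cases n with
  | zero =>
    have : i = 0 := by omega
    subst this
    exact Step.birth0 0 0 _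
  | succ n =>
    obtain ⟨T, hT⟩ := Bl_head n
    have hfr : ∀ s ∈ Bl (n + 1) ++ blk (n + 1) i, ¬ (s.lev = n + 1 ∧ s.idx = i) := by
      intro s hs
      rw [List.mem_append, mem_Bl, mem_blk] at hs
      omega
    rw [hT, List.cons_append] at hfr ⊢
    exact Step.birth (n + 1) i ⟨0, 0, true⟩ (T ++ blk (n + 1) i) hfr

/-- Lists of strands at the beginning of the sub-phases of the first phase. -/
def gst (n i : ℕ) : List St := Bl n ++ blk n i

lemma run_Gi (n i : ℕ) (hi : i ≤ n) :
    Run (Gi n i) ((gst n i : List St) : Cycle St) ((gst n (i + 1) : List St) : Cycle St) := by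
  refine Run.cons (step_birth n i hi) ?_
  refine (run_down ⟨n, i, true⟩ (Bl n) (blk n i ++ [⟨n, i, false⟩])).cast ?_ ?_
  · have := cyc_rot (⟨n, i, true⟩ :: (Bl n ++ blk n i)) [⟨n, i, false⟩]
    simpa using this
  · unfold gst
    rw [blk_succ]

lemma run_G (n : ℕ) :
    Run (G n) ((Bl n : List St) : Cycle St) ((Bl (n + 1) : List St) : Cycle St) := by
  have := run_range (Gi n) (fun i => ((gst n i : List St) : Cycle St)) (n + 1)
    (fun i hi => run_Gi n i (by omega))
  refine this.cast ?_ rfl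
  simp only [gst, blk_zero, List.append_nil]

end Pool.Agent.H4.Ray
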