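import Pool.Agent.H4.Ray.Program

/-!
The infinite sequence of events.
-/

namespace Pool.Agent.H4.Ray

/-- The events of the stages below `n`. -/
def pre (n : ℕ) : List Ev := (List.range n).flatMap stg

/-- Position of the beginning of stage `n`. -/
def off (n : ℕ) : ℕ := (pre n).length

/-- The sequence of events. -/
def ev (ℓ : ℕ) : Ev := (pre (ℓ + 1)).getD ℓ (Ev.birth 0 0 ⟨0, 0, true⟩)

lemma pre_succ (n : ℕ) : pre (n + 1) = pre n ++ stg n := by
  unfold pre
  rw [List.range_succ, List.flatMap_append]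
  simp

lemma stg_pos (n : ℕ) : 0 < (stg n).length := by
  unfold stg G
  rw [List.length_append, List.range_succ, List.flatMap_append, List.length_append]
  simp [Gi]

lemma le_off (n : ℕ) : n ≤ off n := by
  induction n with
  | zero => exact Nat.zero_le _
  | succ n ih =>
    unfold off at ih ⊢
    rw [pre_succ, List.length_append]
    have := stg_pos n
    omega

lemma pre_prefix {m n : ℕ} (h : m ≤ n) : pre m <+: pre n := by
  obtain ⟨d, rfl⟩ := Nat.exists_eq_add_of_le h
  induction d with
  | zero => exact List.prefix_rfl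
  | succ d ih =>
    rw [← add_assoc, pre_succ]
    exact (ih (by omega)).trans (List.prefix_append _ _)

lemma off_mono {m n : ℕ} (h : m ≤ n) : off m ≤ off n := (pre_prefix h).length_le

lemma ev_eq {n ℓ : ℕ} (h : ℓ < (pre n).length) : ev ℓ = (pre n)[ℓ] := by
  have h1 : ℓ < (pre (ℓ + 1)).length := by
    have := le_off (ℓ + 1)
    unfold off at this
    omega
  have h2 : ev ℓ = (pre (ℓ + 1))[ℓ] := by
    unfold ev
    rw [List.getD_eq_getElem _ _ h1]
  rw [h2]
  rcases le_total (ℓ + 1) n with h3 | h3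
  · exact (pre_prefix h3).getElem h1
  · exact ((pre_prefix h3).getElem h).symm

lemma follows_pre (n : ℕ) : Follows ev 0 (pre n) :=
  follows_of_get fun i hi => by
    rw [Nat.zero_add]
    exact ev_eq hi

lemma follows_stg (n : ℕ) : Follows ev (off n) (stg n) := by
  have := follows_pre (n + 1)
  rw [pre_succ, follows_append, Nat.zero_add] at this
  exact this.2

/-- Position of the beginning of the sub-phase `i` of stage `n`. -/
def goff (n i : ℕ) : ℕ := off n + ((List.range i).flatMap (Gi n)).length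

/-- Position of the end of the first phase. -/
def offB (n : ℕ) : ℕ := off n + (G n).length

/-- Position of the end of the second phase. -/
def offA (n : ℕ) : ℕ := offB n + (Z1 n).length

lemma off_succ (n : ℕ) : off (n + 1) = offA n + (Z2 n).length := by
  unfold offA offB off
  rw [pre_succ]
  unfold stg
  simp only [List.length_append]
  omega

lemma goff_last (n : ℕ) : goff n (n + 1) = offB n := rfl

lemma goff_zero (n : ℕ) : goff n 0 = off n := rfl

lemma goff_succ (n i : ℕ) : goff n (i + 1) = goff n i + (Gi n i).length := by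
  unfold goff
  rw [List.range_succ, List.flatMap_append, List.length_append]
  simp
  omega

lemma follows_G (n : ℕ) : Follows ev (off n) (G n) := by
  have := follows_stg n
  unfold stg at this
  rw [follows_append] at this
  exact this.1

lemma follows_Z1 (n : ℕ) : Follows ev (offB n) (Z1 n) := by
  have := follows_stg n
  unfold stg at this
  rw [follows_append, follows_append] at this
  exact this.2.1

lemma follows_Z2 (n : ℕ) : Follows ev (offA n) (Z2 n) := by
  have := follows_stg n
  unfold stg at this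
  rw [follows_append, follows_append] at this
  exact this.2.2

lemma follows_range {e : ℕ → Ev} {ℓ N : ℕ} {f : ℕ → List Ev}
    (h : Follows e ℓ ((List.range N).flatMap f)) {i : ℕ} (hi : i < N) :
    Follows e (ℓ + ((List.range i).flatMap f).length) (f i) := by
  induction N with
  | zero => omega
  | succ N ih =>
    rw [List.range_succ, List.flatMap_append, follows_append] at h
    rcases Nat.lt_succ_iff_lt_or_eq.1 hi with h1 | rfl
    · exact ih h.1 h1
    · simpa using h.2

lemma follows_Gi {n i : ℕ} (hi : i ≤ n) : Follows ev (goff n i) (Gi n i) :=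
  follows_range (follows_G n) (by omega)

lemma run_stg (n : ℕ) : Run (stg n) ((Bl n : List St) : Cycle St)
    ((Bl (n + 1) : List St) : Cycle St) :=
  (run_G n).append ((run_Z1 n).append (run_Z2 n))

lemma off_add (n : ℕ) : off n + (stg n).length = off (n + 1) := by
  unfold off
  rw [pre_succ, List.length_append]

section

variable (Q : ℕ → Cycle St → Prop)
  (hP : ∀ ℓ C C', Q ℓ C → Step (ev ℓ) C C' → Q (ℓ + 1) C')
  (h0 : Q 0 (([] : List St) : Cycle St))

include hP h0

lemma prop_off (n : ℕ) : Q (off n) ((Bl n : List St) : Cycle St) := by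
  induction n with
  | zero => exact h0
  | succ n ih =>
    have h1 := (run_prop Q hP (run_stg n) (follows_stg n) ih).1
    rw [off_add] at h1
    exact h1

lemma prop_goff (n i : ℕ) (hi : i ≤ n + 1) : Q (goff n i) ((gst n i : List St) : Cycle St) := by
  induction i with
  | zero =>
    have := prop_off Q hP h0 n
    rw [goff_zero]
    simpa [gst, blk_zero] using this
  | succ i ih =>
    rw [goff_succ]
    exact (run_prop Q hP (run_Gi n i (by omega)) (follows_Gi (by omega)) (ih (by omega))).1

lemma prop_offB (n : ℕ) : Q (offB n) ((Bl (n + 1) : List St) : Cycle St) := by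
  rw [← goff_last]
  exact prop_goff Q hP h0 n (n + 1) le_rfl

lemma prop_offA (n : ℕ) : Q (offA n) ((mid n : List St) : Cycle St) :=
  (run_prop Q hP (run_Z1 n) (follows_Z1 n) (prop_offB Q hP h0 n)).1

lemma prop_all (ℓ : ℕ) : ∃ C1 C2, Q ℓ C1 ∧ Step (ev ℓ) C1 C2 := by
  have hex : ∃ n, ℓ < off n := ⟨ℓ + 1, by have := le_off (ℓ + 1); omega⟩
  classical
  set n := Nat.find hex with hn
  have h1 : ℓ < off n := Nat.find_spec hex
  have hn0 : n ≠ 0 := by
    intro h
    rw [h] at h1
    have : off 0 = 0 := rfl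
    omega
  obtain ⟨m, hm⟩ := Nat.exists_eq_succ_of_ne_zero hn0
  have h2 : off m ≤ ℓ := by
    have := Nat.find_min hex (m := m) (by omega)
    omega
  exact (run_prop Q hP (run_stg m) (follows_stg m) (prop_off Q hP h0 m)).2 ℓ h2 (by
    rw [off_add, ← Nat.succ_eq_add_one, ← hm]
    exact h1)

end

lemma good_nil : Good ev 0 (([] : List St) : Cycle St) :=
  ⟨by rw [Cycle.nodup_coe_iff]; exact List.nodup_nil, fun z hz => by omega⟩

lemma good_all (ℓ : ℕ) : ∃ C1 C2, Good ev ℓ C1 ∧ Step (ev ℓ) C1 C2 :=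
  prop_all (Good ev) (fun _ _ _ h hs => h.step hs) good_nil ℓ

lemma fresh_ev : Fresh ev := fresh_of_good good_all

/-- Goodness and coherence. -/
def GC (Q : Ray2 ev) (ℓ : ℕ) (C : Cycle St) : Prop := Good ev ℓ C ∧ Q.Coh ℓ C

lemma GC_step (Q : Ray2 ev) (ℓ : ℕ) (C C' : Cycle St) (h : GC Q ℓ C) (hs : Step (ev ℓ) C C') :
    GC Q (ℓ + 1) C' :=
  ⟨h.1.step hs, h.2.step Q fresh_ev h.1.1 hs⟩

lemma GC_nil (Q : Ray2 ev) : GC Q 0 (([] : List St) : Cycle St) := ⟨good_nil, trivial⟩

lemma loc_ev (Q : Ray2 ev) : Q.Loc :=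
  Q.loc_of_coh fresh_ev (prop_all (GC Q) (GC_step Q) (GC_nil Q))

lemma coh_off (Q : Ray2 ev) (n : ℕ) : Q.Coh (off n) ((Bl n : List St) : Cycle St) :=
  (prop_off (GC Q) (GC_step Q) (GC_nil Q) n).2

lemma coh_goff (Q : Ray2 ev) {n i : ℕ} (hi : i ≤ n + 1) :
    Q.Coh (goff n i) ((gst n i : List St) : Cycle St) :=
  (prop_goff (GC Q) (GC_step Q) (GC_nil Q) n i hi).2

lemma coh_offB (Q : Ray2 ev) (n : ℕ) : Q.Coh (offB n) ((Bl (n + 1) : List St) : Cycle St) :=
  (prop_offB (GC Q) (GC_step Q) (GC_nil Q) n).2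

lemma coh_offA (Q : Ray2 ev) (n : ℕ) : Q.Coh (offA n) ((mid n : List St) : Cycle St) :=
  (prop_offA (GC Q) (GC_step Q) (GC_nil Q) n).2

lemma mem_off {n z : ℕ} (hz : z < off n) {t : St} (ht : (ev z).Inv t) : t ∈ Bl n := by
  have := (prop_off (Good ev) (fun _ _ _ h hs => h.step hs) good_nil n).2 z hz t ht
  rwa [Cycle.mem_coe_iff] at this

lemma mem_goff {n i z : ℕ} (hi : i ≤ n + 1) (hz : z < goff n i) {t : St} (ht : (ev z).Inv t) :
    t ∈ gst n i := by
  have := (prop_goff (Good ev) (fun _ _ _ h hs => h.step hs) good_nil n i hi).2 z hz t ht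
  rwa [Cycle.mem_coe_iff] at this

lemma mem_offB {n z : ℕ} (hz : z < offB n) {t : St} (ht : (ev z).Inv t) : t ∈ Bl (n + 1) := by
  have := (prop_offB (Good ev) (fun _ _ _ h hs => h.step hs) good_nil n).2 z hz t ht
  rwa [Cycle.mem_coe_iff] at this

lemma mem_mid {n : ℕ} {t : St} : t ∈ mid n ↔ t ∈ Bl (n + 1) := by
  rw [mem_Bl]
  unfold mid
  simp only [List.mem_flatMap, List.mem_range, List.mem_append, mem_M, mem_P]
  constructor
  · rintro ⟨c, hc, h | h⟩ <;> omega
  · rintro ⟨h1, h2⟩
    refine ⟨t.lev, h1, ?_⟩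
    cases t.pos <;> simp [h2]

lemma mem_offA {n z : ℕ} (hz : z < offA n) {t : St} (ht : (ev z).Inv t) : t ∈ Bl (n + 1) := by
  have := (prop_offA (Good ev) (fun _ _ _ h hs => h.step hs) good_nil n).2 z hz t ht
  rwa [Cycle.mem_coe_iff, mem_mid] at this

end Pool.Agent.H4.Ray
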