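import Pool.Agent.H4.Ray.Main

/-!
The wires of level `n` are disjoint double rays.
-/

namespace Pool.Agent.H4.Ray

open Ray2

lemma ev_mem_stg (z : ℕ) : ∃ n, ev z ∈ stg n := by
  have hex : ∃ n, z < off n := ⟨z + 1, by have := le_off (z + 1); omega⟩
  classical
  set n := Nat.find hex with hn
  have h1 : z < off n := Nat.find_spec hex
  have hn0 : n ≠ 0 := by
    intro h
    rw [h] at h1
    have : off 0 = 0 := rfl
    omega
  obtain ⟨m, hm⟩ := Nat.exists_eq_succ_of_ne_zero hn0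
  have h2 : off m ≤ z := by
    have := Nat.find_min hex (m := m) (by omega)
    omega
  refine ⟨m, follows_all (follows_stg m) h2 ?_⟩
  rw [off_add, ← Nat.succ_eq_add_one, ← hm]
  exact h1

lemma cross_lev {z : ℕ} {a b : St} (h : ev z = .cross a b) : a.lev ≠ b.lev := by
  obtain ⟨n, hn⟩ := ev_mem_stg z
  rw [h] at hn
  unfold stg at hn
  rw [List.mem_append, List.mem_append] at hn
  rcases hn with hn | hn | hn
  · unfold G at hn
    rw [List.mem_flatMap] at hn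
    obtain ⟨i, hi, hn⟩ := hn
    unfold Gi at hn
    rw [List.mem_cons] at hn
    rcases hn with hn | hn
    · cases hn
    · rw [List.mem_map] at hn
      obtain ⟨s, hs, he⟩ := hn
      injection he with e1 e2
      subst e1 e2
      have := (mem_Bl.1 hs).1
      simp only
      omega
  · obtain ⟨x, y, h1, _, _, h2⟩ := Z1_form hn
    injection h1 with e1 e2
    subst e1 e2
    exact h2
  · obtain ⟨x, y, h1, h2⟩ := mem_Z2.1 hn
    obtain ⟨x', y', h3, _, _, h4⟩ := Z1_form h1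
    injection h2 with e1 e2
    injection h3 with e3 e4
    subst e1 e2 e3 e4
    exact Ne.symm h4

/-- The events of a strand. -/
def Pt (t : St) (z : ℕ) : Prop := (ev z).Inv t

lemma two_inv {z : ℕ} {s t : St} (hs : (ev z).Inv s) (ht : (ev z).Inv t) (hl : s.lev = t.lev)
    (hne : s ≠ t) : s.idx = t.idx ∧ ∃ c, ev z = .birth s.lev s.idx c := by
  cases he : ev z with
  | cross a b =>
    have := cross_lev he
    rw [he] at hs ht
    rcases hs with rfl | rfl <;> rcases ht with rfl | rfl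
    · exact absurd rfl hne
    · exact absurd hl this
    · exact absurd hl.symm this
    · exact absurd rfl hne
  | birth l i c =>
    rw [he] at hs ht
    exact ⟨hs.2.trans ht.2.symm, c, by rw [hs.1, hs.2]⟩

lemma inv_large {t : St} (ht : t.idx ≤ t.lev) (n : ℕ) (hn : t.lev < n) (h1 : 1 ≤ n) :
    ∃ z, n ≤ z ∧ (ev z).Inv t := by
  have htm : t ∈ Bl (n + 1) := mem_Bl.2 ⟨by omega, ht⟩
  obtain ⟨r, hr, hrn⟩ : ∃ r, r ≠ t.lev ∧ r ≤ n := by
    by_cases h : t.lev = 0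
    · exact ⟨1, by omega, h1⟩
    · exact ⟨0, by omega, by omega⟩
  have hle : n ≤ offB n := (le_off n).trans (off_le_offB n)
  cases hp : t.pos
  · obtain ⟨z, hz, _, he⟩ := ex_cross1 (n := n) hp htm (y := ⟨r, 0, true⟩) rfl
      (mem_Bl.2 ⟨by simp only; omega, by simp⟩) (by simp only; omega)
    exact ⟨z, by omega, by rw [he]; exact Or.inl rfl⟩
  · obtain ⟨z, hz, _, he⟩ := ex_cross1 (n := n) (x := ⟨r, 0, false⟩) rfl
      (mem_Bl.2 ⟨by simp only; omega, by simp⟩) hp htm (by simp only; omega)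
    exact ⟨z, by omega, by rw [he]; exact Or.inr rfl⟩

lemma inf_inv {t : St} (ht : t.idx ≤ t.lev) : {z | Pt t z}.Infinite := by
  rw [Set.infinite_iff_exists_gt]
  intro a
  obtain ⟨z, hz, hz'⟩ := inv_large ht (a + t.lev + 1) (by omega) (by omega)
  exact ⟨z, hz', by omega⟩

/-- Enumeration of the events of a strand. -/
noncomputable def en (t : St) (k : ℕ) : ℕ := Nat.nth (Pt t) k

lemma en_inv {t : St} (ht : t.idx ≤ t.lev) (k : ℕ) : (ev (en t k)).Inv t :=
  Nat.nth_mem_of_infinite (inf_inv ht) k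

lemma en_mono {t : St} (ht : t.idx ≤ t.lev) : StrictMono (en t) := Nat.nth_strictMono (inf_inv ht)

lemma en_surj {t : St} {z : ℕ} (hz : (ev z).Inv t) : ∃ k, en t k = z := by
  classical
  exact ⟨Nat.count (Pt t) z, Nat.nth_count (p := Pt t) hz⟩

lemma en_nx {t : St} (ht : t.idx ≤ t.lev) (k : ℕ) : Nx ev t (en t k) (en t (k + 1)) := by
  refine ⟨en_mono ht (Nat.lt_succ_self k), en_inv ht k, en_inv ht (k + 1), ?_⟩
  intro z hz hz' h
  obtain ⟨j, rfl⟩ := en_surj h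
  have h1 := (en_mono ht).lt_iff_lt.1 hz
  have h2 := (en_mono ht).lt_iff_lt.1 hz'
  omega

lemma ev_goff {n i : ℕ} (hi : i ≤ n) : ev (goff n i) = .birth n i ⟨0, 0, true⟩ :=
  (follows_Gi hi).1

lemma en_zero {l i : ℕ} (hi : i ≤ l) (p : Bool) : en ⟨l, i, p⟩ 0 = goff l i := by
  obtain ⟨k, hk⟩ := en_surj (t := ⟨l, i, p⟩) (z := goff l i) (by rw [ev_goff hi]; exact ⟨rfl, rfl⟩)
  have hm : en ⟨l, i, p⟩ 0 ≤ en ⟨l, i, p⟩ k := (en_mono hi).monotone (Nat.zero_le _)
  rw [hk] at hm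
  rcases hm.eq_or_lt with h | h
  · exact h
  · exact absurd (en_inv (t := ⟨l, i, p⟩) hi 0)
      (fresh_ev _ _ _ _ (ev_goff hi) _ h _ rfl rfl)

/-- Vertices of a wire. -/
noncomputable def wq (l i : ℕ) (k : ℤ) : ℕ :=
  if 0 ≤ k then en ⟨l, i, true⟩ k.toNat else en ⟨l, i, false⟩ (-k).toNat

lemma wq_nat {l i : ℕ} (k : ℕ) : wq l i k = en ⟨l, i, true⟩ k := by
  unfold wq
  rw [if_pos (by omega), Int.toNat_natCast]

lemma wq_neg {l i : ℕ} (hi : i ≤ l) (k : ℕ) : wq l i (-k) = en ⟨l, i, false⟩ k := by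
  unfold wq
  rcases Nat.eq_zero_or_pos k with rfl | hk
  · simp [en_zero hi]
  · rw [if_neg (by omega), neg_neg, Int.toNat_natCast]

lemma both_inv {l i : ℕ} (hi : i ≤ l) {j k : ℕ}
    (h : en ⟨l, i, true⟩ j = en ⟨l, i, false⟩ k) : j = 0 ∧ k = 0 := by
  have h1 := en_inv (t := ⟨l, i, true⟩) hi j
  have h2 := en_inv (t := ⟨l, i, false⟩) hi k
  rw [← h] at h2
  obtain ⟨_, c, hc⟩ := two_inv h1 h2 rfl (by simp)
  constructor
  · by_contra hj
    have hlt := en_mono (t := ⟨l, i, true⟩) hi (Nat.pos_of_ne_zero hj)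
    exact fresh_ev _ _ _ _ hc _ hlt ⟨l, i, true⟩ rfl rfl (en_inv (t := ⟨l, i, true⟩) hi 0)
  · by_contra hk
    have hlt := en_mono (t := ⟨l, i, false⟩) hi (Nat.pos_of_ne_zero hk)
    rw [← h] at hlt
    exact fresh_ev _ _ _ _ hc _ hlt ⟨l, i, false⟩ rfl rfl (en_inv (t := ⟨l, i, false⟩) hi 0)

/-- The double ray of a wire. -/
noncomputable def wire {l i : ℕ} (hi : i ≤ l) : Ray2 ev where
  q := wq l i
  s := fun k => if 0 ≤ k then ⟨l, i, true⟩ else ⟨l, i, false⟩
  inj := by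
    intro a b hab
    rcases Int.eq_nat_or_neg a with ⟨m, rfl | rfl⟩ <;> rcases Int.eq_nat_or_neg b with ⟨n, rfl | rfl⟩
    · rw [wq_nat, wq_nat] at hab
      rw [(en_mono (t := ⟨l, i, true⟩) hi).injective hab]
    · rw [wq_nat, wq_neg hi] at hab
      obtain ⟨rfl, rfl⟩ := both_inv hi hab
      simp
    · rw [wq_nat, wq_neg hi] at hab
      obtain ⟨rfl, rfl⟩ := both_inv hi hab.symm
      simp
    · rw [wq_neg hi, wq_neg hi] at hab
      rw [(en_mono (t := ⟨l, i, false⟩) hi).injective hab]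
  es := by
    intro k
    by_cases hk : 0 ≤ k
    · obtain ⟨m, rfl⟩ := Int.eq_ofNat_of_zero_le hk
      left
      rw [if_pos hk]
      refine ⟨rfl, ?_⟩
      have e : ((m : ℤ) + 1) = ((m + 1 : ℕ) : ℤ) := by push_cast; ring
      rw [e, wq_nat, wq_nat]
      exact en_nx (t := ⟨l, i, true⟩) hi m
    · obtain ⟨m, hm⟩ := Int.eq_ofNat_of_zero_le (show 0 ≤ -k - 1 by omega)
      right
      rw [if_neg hk]
      refine ⟨rfl, ?_⟩
      have e1 : k = -((m + 1 : ℕ) : ℤ) := by push_cast; omega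
      have e2 : k + 1 = -(m : ℤ) := by omega
      rw [e2, e1, wq_neg hi, wq_neg hi]
      exact en_nx (t := ⟨l, i, false⟩) hi m

lemma wq_inv {l i : ℕ} (hi : i ≤ l) (k : ℤ) : ∃ p, (ev (wq l i k)).Inv ⟨l, i, p⟩ := by
  unfold wq
  split_ifs
  · exact ⟨true, en_inv (t := ⟨l, i, true⟩) hi _⟩
  · exact ⟨false, en_inv (t := ⟨l, i, false⟩) hi _⟩

/-- Wires of the same level are disjoint. -/
lemma wires_disjoint {l i j : ℕ} (hi : i ≤ l) (hj : j ≤ l) (hij : i ≠ j) (k k' : ℤ) :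
    wq l i k ≠ wq l j k' := by
  intro h
  obtain ⟨p, hp⟩ := wq_inv hi k
  obtain ⟨p', hp'⟩ := wq_inv hj k'
  rw [← h] at hp'
  exact hij (two_inv hp hp' rfl (by simp [hij])).1

end Pool.Agent.H4.Ray
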